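import Mathlib
import Pool.Agent.H20.G.R_pool_sql_team_seeded_63374d34.N684.BK.Stm

/-!
Project KC (helper99): Turán numbers of `K_{s,t}` for `t ≥ 2 ^ ((2.20694 + ε) s)`, random varieties
in weighted spaces with `u` cubic variables.  Definitions and statements.
-/

set_option autoImplicit false

open MvPolynomial Filter
open scoped ENNReal

namespace Pool.Agent.H99.KC

open Pool.Agent.N684.BK

/-- the weights: `2 D` for the first `u` variables (cubic ones), `3 D` for the next ones up to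
`s + e` (quadratic ones), `1` for the last `k` ones -/
def wE (u s e k D : ℕ) : Fin (s + e + k) → ℕ :=
  fun i => if (i : ℕ) < u then 2 * D else if (i : ℕ) < s + e then 3 * D else 1

/-- COM2: common zeros of random polynomials -/
def S_COM2 : Prop := ∀ (u s e k : ℕ), 1 ≤ s → u ≤ s + e →
  2 * (s ^ 2 + 2 + k + k * s) ≤ k * (k + 3) * (k + 2) →
  ∃ C : ℕ, ∀ (F : Type) [Field F] [Fintype F]
  (U : Fin (s + e + k) → Submodule F (MvPolynomial (Fin (s + e + k)) F)),
  (∀ i : Fin (s + e + k), (i : ℕ) < s + e →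
    U i ≤ PW F (wE u s e k (s ^ 2 + s + 2)) (6 * (s ^ 2 + s + 2)) ∧
    Module.finrank F (PW F (wE u s e k (s ^ 2 + s + 2)) (6 * (s ^ 2 + s + 2))) ≤
      Module.finrank F (U i) + s) →
  (∀ i : Fin (s + e + k), s + e ≤ (i : ℕ) →
    U i ≤ PW F (wE u s e k (s ^ 2 + s + 2)) (3 * (s ^ 2 + s + 2) ^ 2) ∧
    Module.finrank F (PW F (wE u s e k (s ^ 2 + s + 2)) (3 * (s ^ 2 + s + 2) ^ 2)) ≤
      Module.finrank F (U i) + s) →
  Fintype.card F ^ (s ^ 2 + 2) * Nat.card {w : ∀ i, U i //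
    2 ^ (s + e - u) * 3 ^ u * (3 * (s ^ 2 + s + 2) ^ 2) ^ k <
      Set.ncard {y : Fin (s + e + k) → F |
        ∀ i, eval y (w i : MvPolynomial (Fin (s + e + k)) F) = 0}} ≤
    C * ∏ i, Nat.card (U i)

/-- the coordinates in `Z` of a vector, the other ones are replaced by `0` -/
def msk {F : Type} [Field F] {j : ℕ} (Z : Finset (Fin j)) : (Fin j → F) →ₗ[F] (Fin j → F) where
  toFun v i := if i ∈ Z then v i else 0
  map_add' v w := by funext i; by_cases h : i ∈ Z <;> simp [h]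
  map_smul' a v := by funext i; by_cases h : i ∈ Z <;> simp [h]

/-- CNT2: the small exceptional set.

PROOF.  Say `P n T` iff `finrank (B.map (msk T)) ≤ n * (r - 1)` and `n * (j + 1) ≤ r * T.card`.
`P 0 ∅` holds.  `P n T` implies `n < r` (else `r * (j + 1) ≤ r * j`), so there is a largest `n` with
`∃ T, P n T`, and this `T` works: `finrank ≤ n * (r - 1) ≤ r ^ 2`; if `finrank (B.map (msk Z)) < r` and
`r * (Z \ T).card > j` then `P (n + 1) (T ∪ Z)`: `msk (T ∪ Z) v = msk T v + msk (Z \ T) v`, so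
`B.map (msk (T ∪ Z)) ≤ B.map (msk T) ⊔ B.map (msk (Z \ T))`, and `msk (Z \ T) = msk (Z \ T) ∘ msk Z`, so
`finrank (B.map (msk (Z \ T))) ≤ finrank (B.map (msk Z)) ≤ r - 1`; `(T ∪ Z).card = T.card + (Z \ T).card`. -/
def S_CNT2 : Prop := ∀ (F : Type) [Field F] (j r : ℕ) (B : Submodule F (Fin j → F)), 1 ≤ r →
  ∃ T : Finset (Fin j), Module.finrank F (B.map (msk T)) ≤ r ^ 2 ∧
    ∀ Z : Finset (Fin j), Module.finrank F (B.map (msk Z)) < r → r * (Z \ T).card ≤ j

/-- CNT3: generic vectors.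

PROOF.  Induction on `r` (for all `B`; the statement for `r` vectors and all `Z` of rank at least `r`).
`r = 0`: nothing to show (no `x ≠ 0`).  `r → r + 1`: take `σ` for `r`.  For `Z` with
`r + 1 ≤ finrank (B.map (msk Z))` the set `E Z := {v ∈ B | msk Z v ∈ span (range (fun l => msk Z (σ l)))}`
is a proper subspace of `B` (otherwise `B.map (msk Z)` has dimension at most `r`), so it has at most
`|B| / q` elements.  There are at most `2 ^ j < q` sets `Z`, so the union of the `E Z` is not all of `B`.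
Take `v ∈ B` outside of the union and `σ' = Fin.snoc σ v` (or `Fin.cons`).  If `x ≠ 0` and
`msk Z (∑ x_l σ'_l) = 0`: if the coefficient of `v` is not `0` then `msk Z v` is in the span,
contradiction; otherwise use the hypothesis for `σ` and `Z` (rank at least `r`). -/
def S_CNT3 : Prop := ∀ (F : Type) [Field F] [Fintype F] (j r : ℕ) (B : Submodule F (Fin j → F)),
  2 ^ j < Fintype.card F →
  ∃ σ : Fin r → Fin j → F, (∀ l, σ l ∈ B) ∧
    ∀ Z : Finset (Fin j), r ≤ Module.finrank F (B.map (msk Z)) →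
      ∀ x : Fin r → F, x ≠ 0 → msk Z (∑ l, x l • σ l) ≠ 0

/-- CNT1A: number of the vectors of type (b).

PROOF.  `κ = (j + r + j / r + r ^ 2) / 2`, `D = finrank (P.map (msk Tᶜ)) ≤ finrank P`.  The number is at most
`q ^ (j - finrank P) ≤ q ^ (j - D)`, as `v` is orthogonal to `P` for the nondegenerate form `∑ c_i y_i z_i`
(`Pool.Agent.N392.BK.ROWS.Bf`, `Bf_nondeg`; see `CIRC.two_mul_finrank`).  It is also at most
`q ^ (D + r + j / r + r ^ 2)`: the vector `x` (`q ^ r` choices), `s = ∑ x_l σ_l`, the vector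
`msk Tᶜ (s * v) ∈ P.map (msk Tᶜ)` (`q ^ D` choices), the vector `w ∈ U` with `v = w` on `T` (at most `q ^ (r ^ 2)`) and
the values of `v` on `{i ∉ T | s i = 0}` (at most `j / r` coordinates) determine `v` (for `i ∉ T` with `s i ≠ 0`:
`v i = (s * v) i / s i`).  And `min (j - D) (D + r + j / r + r ^ 2) ≤ κ`. -/
def S_CNT1A : Prop := ∀ (F : Type) [Field F] [Fintype F] (j r : ℕ) (c : Fin j → F)
  (T : Finset (Fin j)) (U : Submodule F (Fin j → F)) (σ : Fin r → Fin j → F)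
  (P : Submodule F (Fin j → F)), 1 ≤ r →
  (∀ i, c i ≠ 0) → Module.finrank F U ≤ r ^ 2 →
  (∀ x : Fin r → F, x ≠ 0 →
    r * Set.ncard {i : Fin j | i ∉ T ∧ (∑ l, x l • σ l) i = 0} ≤ j) →
  Nat.card {v : Fin j → F // (∀ y ∈ P, ∑ i, c i * y i * v i = 0) ∧
    (∃ w ∈ U, ∀ i ∈ T, v i = w i) ∧
    ∃ x : Fin r → F, x ≠ 0 ∧ msk Tᶜ ((∑ l, x l • σ l) * v) ∈ P.map (msk Tᶜ)} ≤
  Fintype.card F ^ ((j + r + j / r + r ^ 2) / 2)

/-- CNT1: number of the families that are compatible with given `T`, `U`, `σ`.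

PROOF.  Let `q = card F`, `Tᶜ` the complement of `T`.  For a family `w : Fin b → Fin j → F` let
`D w = finrank (span {msk Tᶜ (σ l * w t) | l, t})` (pointwise products; `D w ≤ j`), and
`M b = ∑_{w valid} (q ^ (j / r + 1)) ^ (j - D w)`.
Claim: `M (b + 1) ≤ (1 + q ^ κ) * M b`, `κ = (j + r + j / r + r ^ 2) / 2`.  Then `card ≤ M b` and
`M 0 ≤ (q ^ (j / r + 1)) ^ j` prove the result (`1 + q ^ κ ≤ 2 * q ^ κ`).
Proof of the claim: a valid family `w'` of `b + 1` vectors is `Fin.snoc w v` (or `Fin.cons v w`) with a valid `w`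
(fix `w`, let `D = D w`, `L = span {msk Tᶜ (σ l * w t)}`), and either
(a) `D w' = D + r`: at most `q ^ j` vectors `v`, each contributes
  `(q ^ (j/r+1)) ^ (j - D - r)`, and `q ^ j ≤ (q ^ (j/r+1)) ^ r`: total at most `(q ^ (j/r+1)) ^ (j - D)`; or
(b) `D w' < D + r`: then there is `x : Fin r → F`, `x ≠ 0`, with `msk Tᶜ ((∑ x_l σ_l) * v) ∈ L`
  (the `r` vectors `msk Tᶜ (σ l * v)` are dependent modulo `L`).  By `S_CNT1A` with
  `P = span {σ l * w t | l, t}` (`L = P.map (msk Tᶜ)`) there are at most `q ^ κ` such `v`; and `D w' ≥ D`, so the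
  total contribution is at most `q ^ κ * (q ^ (j/r+1)) ^ (j - D)`. -/
def S_CNT1 : Prop := ∀ (F : Type) [Field F] [Fintype F] (j r b : ℕ) (c : Fin j → F)
  (T : Finset (Fin j)) (U : Submodule F (Fin j → F)) (σ : Fin r → Fin j → F), 1 ≤ r →
  (∀ i, c i ≠ 0) → Module.finrank F U ≤ r ^ 2 →
  (∀ x : Fin r → F, x ≠ 0 →
    r * Set.ncard {i : Fin j | i ∉ T ∧ (∑ l, x l • σ l) i = 0} ≤ j) →
  Nat.card {w : Fin b → Fin j → F //
    (∀ l t t', ∑ i, c i * σ l i * w t i * w t' i = 0) ∧ ∀ t, ∃ v ∈ U, ∀ i ∈ T, w t i = v i} ≤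
  (Fintype.card F ^ (j / r + 1)) ^ j *
    (2 * Fintype.card F ^ ((j + r + j / r + r ^ 2) / 2)) ^ b

/-- CNT4: number of the families with `∑ c w w w = 0`.

PROOF.  For such a `w` let `B = span (range w)`; take `T` from `hCNT2` and `σ` from `hCNT3`.  Then `w` is counted
in `hCNT1` for `(T, U, σ)`, `U = B.map (msk T)` (`U = span (range μ)` for some
`μ : Fin (r ^ 2) → Fin j → F`): `σ l ∈ B` is a combination of the `w t`, so `∑ c σ_l w w = 0`; `w t i = (msk T (w t)) i` for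
`i ∈ T`; if `x ≠ 0` and `Z = {i | (∑ x_l σ_l) i = 0}` then `msk Z (∑ x_l σ_l) = 0`, so by `hCNT3`
`finrank (B.map (msk Z)) < r`, so `r * (Z \ T).card ≤ j`.  So the set is contained in the union over all
`(T, μ, σ)` (at most `2 ^ j * q ^ (j * r ^ 2) * q ^ (j * r)` triples) with the conditions, and each has at
most `(q ^ (j / r + 1)) ^ j * (2 * q ^ κ) ^ b` elements. -/
def S_CNT4 : Prop := ∀ (F : Type) [Field F] [Fintype F] (j r b : ℕ) (c : Fin j → F), 1 ≤ r →
  (∀ i, c i ≠ 0) → 2 ^ j < Fintype.card F →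
  Nat.card {w : Fin b → Fin j → F // ∀ t₁ t₂ t₃, ∑ i, c i * w t₁ i * w t₂ i * w t₃ i = 0} ≤
    2 ^ (j + b) * Fintype.card F ^
      (j * r ^ 2 + j * r + (j / r + 1) * j + b * ((j + r + j / r + r ^ 2) / 2))

/-- CUB: number of the matrices with cubic rows.

PROOF.  If `finrank (span (insert 1 (range A))) = b + 1` there is `J : Finset (Fin u)` with `J.card = b` and
`span (insert 1 (range A)) = span (insert 1 (A '' J))` (extend the independent family `1` by rows).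
`A` is determined by `J` (at most `2 ^ u` choices), the family `w : Fin b → Fin j → F` of the rows in `J` (in
increasing order; at most `S_CNT4` many) and the other `u - b` rows, which lie in
`span (insert 1 (range w))`, a space with `q ^ (b + 1)` elements. -/
def S_CUB : Prop := ∀ (F : Type) [Field F] [Fintype F] (u j r b : ℕ) (c : Fin j → F), 1 ≤ r →
  (∀ i, c i ≠ 0) → 2 ^ j < Fintype.card F →
  Nat.card {A : Fin u → Fin j → F // (∀ t₁ t₂ t₃, ∑ i, c i * A t₁ i * A t₂ i * A t₃ i = 0) ∧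
    Module.finrank F (Submodule.span F (insert 1 (Set.range A))) = b + 1} ≤
    2 ^ u * (2 ^ (j + b) * Fintype.card F ^
      (j * r ^ 2 + j * r + (j / r + 1) * j + b * ((j + r + j / r + r ^ 2) / 2))) *
      Fintype.card F ^ ((b + 1) * (u - b))

/-- ROWS2: matrices whose rows and a given subspace `B` span an isotropic subspace.

PROOF.  As in `Pool.Agent.N392.BK.ROWS` (there `B` is the line of the all-ones vector): let `S M d` be the
number.  `S (M + 1) d ≤ S M d * q ^ (b + d) + S M (d - 1) * q ^ (j - (b + d - 1))` (the second summand only for `1 ≤ d`): the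
last row is in the span of the others and `B`, or it is orthogonal to it.  `S M d = 0` for
`d > M`.  Induction on `M`. -/
def S_ROWS2 : Prop := ∀ (F : Type) [Field F] [Fintype F] (M j b d : ℕ) (c : Fin j → F)
  (B : Submodule F (Fin j → F)), (∀ i, c i ≠ 0) → Module.finrank F B = b →
  Nat.card {A : Fin M → Fin j → F //
    (∀ x ∈ B ⊔ Submodule.span F (Set.range A),
      ∀ y ∈ B ⊔ Submodule.span F (Set.range A), ∑ i, c i * x i * y i = 0) ∧
    Module.finrank F ↥(B ⊔ Submodule.span F (Set.range A)) = b + d} *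
    Fintype.card F ^ (d * b + d * (d - 1) / 2 + d * (b + d)) ≤
  2 ^ M * Fintype.card F ^ (d * j + M * (b + d))

/-- the inequality of the exponents (`b + 1` is the dimension of the span of the cubic rows and `1`,
`b + 1 + d` the dimension of the span of all rows and `1`) -/
def Good (u s e k r : ℕ) : Prop := ∀ j b d : ℕ, b ≤ u → 1 ≤ b + d → 2 * (b + 1 + d) ≤ j → j ≤ s →
  j + (j * r ^ 2 + j * r + (j / r + 1) * j + b * ((j + r + j / r + r ^ 2) / 2)) +
    (b + 1) * (u - b) + (d * j + (s + e + k - u) * (b + 1 + d)) + 2 ≤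
  (j - 1) * (e + k) + s + (d * (b + 1) + d * (d - 1) / 2 + d * (b + 1 + d))

/-- CIRC2: number of minimally dependent families.

PROOF.  As `Pool.Agent.N392.BK.CIRC`.  If `card F ≤ 2 ^ s` the left-hand side is at most
`(2 ^ s) ^ (j * (s + e + k) + 2)`, take this as one summand of `C`.  Otherwise: for a circuit `A` let `c` be its relation
(`Pool.Agent.N392.BK.CIRC.exists_rel`), `B = span (1, rows a < u)`, `A' = span (1, all rows)`; `A'` is
isotropic (`CIRC.iso_of`), `2 ≤ finrank A'`, `2 * finrank A' ≤ j` (`CIRC.two_le_finrank`, `CIRC.two_mul_finrank`), and the first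
`u` rows satisfy the hypothesis of `S_CUB` (as `X a * X b * X c ∈ W`).  With `b + 1 = finrank B`
(`b ≤ u`), `b + 1 + d = finrank A'`: the number of the first `u` rows is bounded by `S_CUB`, and for each of them
the number of the other `s + e + k - u` rows by `S_ROWS2`; the number of the `c` is at most
`q ^ j`, the number of the pairs `(b, d)` at most `s ^ 2`.  Then `Good`. -/
def S_CIRC2 : Prop := ∀ (u s e k r j : ℕ), 1 ≤ r → u ≤ s + e → Good u s e k r → j ≤ s → ∃ C : ℕ,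
  ∀ (F : Type) [Field F] [Fintype F] (W : Submodule F (MvPolynomial (Fin (s + e + k)) F)),
  1 ∈ W → (∀ a, X a ∈ W) → (∀ a b, X a * X b ∈ W) →
  (∀ a b c : Fin (s + e + k), (a : ℕ) < u → (b : ℕ) < u → (c : ℕ) < u → X a * X b * X c ∈ W) →
  Nat.card {A : Fin j → Fin (s + e + k) → F // Circ W A} * Fintype.card F ^ 2 ≤
    C * Fintype.card F ^ ((j - 1) * (e + k) + s)

/-- ALG2: the Turán numbers for primes -/
def S_ALG2 : Prop := ∀ (u s e k r t : ℕ), 2 ≤ s → 1 ≤ r → u ≤ s + e → Good u s e k r →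
  2 * (s ^ 2 + 2 + k + k * s) ≤ k * (k + 3) * (k + 2) →
  2 ^ (s + e - u) * 3 ^ u * (3 * (s ^ 2 + s + 2) ^ 2) ^ k < t → ∃ p₀ : ℕ, ∀ p : ℕ, p₀ ≤ p →
  p.Prime → p ^ (2 * s - 1) ≤ 4 * SimpleGraph.extremalNumber (4 * p ^ s)
    (completeBipartiteGraph (Fin s) (Fin t))

/-- GOOD: the inequality of the exponents holds.

PROOF.  Let `η = (1/2 - u/s)²`, `δ ≤ 1`, `r = ⌈100 / δ⌉`, `J = j / 2` (real), `β = b + 1`, `a = β + d ≤ J`, `G = e + k - s ≥ (η + δ) s`.
Difference right - left, up to lower order terms (a) at most `3 * j ^ 2 / r + C_r * j` in absolute value, `C_r` depending on `r` only: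
`(j - 1) (e + k) + s - β u - β (J - β) - d (j - a) + (a² - β²) / 2 - (s + e + k - u) a`.
It is decreasing in `a` (for `a ≤ J`; the derivative is `-(s + e + k - u) - j - β + 3 a ≤ 0`, as
`s + e + k - u ≥ s ≥ j`), so it is at least its value at `a = J`:
`G (J - 1) + (J - β) (u - (J + β) / 2)` (with `G = e + k - s`).
If `J ≤ u`: the second summand is `≥ 0`.  If `u < J`:
`(J - β) (u - (J + β) / 2) = (β - u)² / 2 - (J - u)² / 2 ≥ - (J - u)² / 2 ≥ - J η s`, because
`(J - u)² / J` increases in `J ≥ u` and `J ≤ s / 2`; so the total is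
`≥ (η + δ) s (J - 1) - η s J = δ s (J - 1) - η s`, and `η s ≤ s / 4 ≤ δ s J / 8` for `J > u` large: if
`J ≤ 2 / δ` then `u < 2 / δ`, and then `(J - u)² / 2 ≤ J ^ 2 / 2 ≤ J / δ` is a lower order term itself.
`J ≥ 2`, so `J - 1 ≥ J / 2 = j / 4`: the total is `≥ δ s j / 8 - ...` and beats `3 j ^ 2 / r + C_r j` for `s ≥ s₀`, as `j ≤ s` and `r ≥ 100 / δ`. -/
def S_GOOD : Prop := ∀ δ : ℝ, 0 < δ → δ ≤ 1 → ∃ r s₀ : ℕ, 1 ≤ r ∧ ∀ u s e k : ℕ, s₀ ≤ s →
  2 * u ≤ s → (s : ℝ) + ((1 / 2 - (u : ℝ) / s) ^ 2 + δ) * s ≤ (e : ℝ) + k → Good u s e k r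

/-- NUM: the choice of the parameters.

PROOF.  Let `v = 1 - logb 2 3 / 2` (`0.2 < v < 0.21`: only `0 < v < 1/2` is needed, i.e.
`1 < logb 2 3 < 2`).  `u = ⌊v s⌋`, `k = max 6 ⌈2 s ^ (2/3)⌉` (as in `Pool.Agent.N353.BK.FIN.MAIN`, where the condition on `k` is proved),
`e = ⌈s + ((1/2 - u/s)² + δ) s⌉`, `δ = min 1 (ε / 4)`.  Then
`(s + e - u) + u * logb 2 3 + k * logb 2 (3 * (s ^ 2 + s + 2) ^ 2) ≤ (9/4 - v² + ε) s - 1` for large `s`:
`(s + e - u) + u * logb 2 3 ≤ 2 s + (1/2 - u/s)² s + δ s + 1 + u (logb 2 3 - 1)`, `|u/s - v| ≤ 1/s`, and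
`2 + (1/2 - v)² + v * (1 - 2 v) = 9/4 - v²` (`logb 2 3 - 1 = 1 - 2 v`); `k * logb 2 (..) = o(s)`. -/
def S_NUM : Prop := S_GOOD → ∀ ε : ℝ, 0 < ε → ∃ s₀ : ℕ, ∀ s : ℕ, s₀ ≤ s → 2 ≤ s ∧ ∃ u e k r : ℕ, 1 ≤ r ∧ u ≤ s + e ∧
    Good u s e k r ∧ 2 * (s ^ 2 + 2 + k + k * s) ≤ k * (k + 3) * (k + 2) ∧
    ((2 ^ (s + e - u) * 3 ^ u * (3 * (s ^ 2 + s + 2) ^ 2) ^ k : ℕ) : ℝ) <
      (2 : ℝ) ^ ((9 / 4 - (1 - Real.logb 2 3 / 2) ^ 2 + ε) * s)

/-- MAIN2 -/
def S_MAIN2 : Prop := ∀ ε : ℝ, 0 < ε → ∃ s₀ : ℕ, ∀ s t : ℕ, s₀ ≤ s →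
  (2 : ℝ) ^ ((9 / 4 - (1 - Real.logb 2 3 / 2) ^ 2 + ε) * s) ≤ t →
  ∃ c : ℝ, 0 < c ∧ ∀ n : ℕ, 2 ≤ n → c * (n : ℝ) ^ (2 - 1 / (s : ℝ)) ≤
    (SimpleGraph.extremalNumber n (completeBipartiteGraph (Fin s) (Fin t)) : ℝ)

end Pool.Agent.H99.KC
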