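import Mathlib
import Pool.Agent.H20.G.R_pool_sql_team_seeded_63374d34.N678.BK.COM
import Pool.Agent.H99.KC.Stm

/-!
Project KC: common zeros of random polynomials (adapted from the module COM of project BK).
-/

set_option autoImplicit false

open MvPolynomial Filter
open scoped ENNReal

namespace Pool.Agent.H99.KC

open Pool.Agent.N684.BK Pool.Agent.N678.BK.COM

lemma wE_pos (u s e k D : ℕ) (hD : 1 ≤ D) (i : Fin (s + e + k)) : 1 ≤ wE u s e k D i := by
  unfold wE
  split_ifs <;> omega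

lemma wE_le (u s e k D : ℕ) (hD : 1 ≤ D) (i : Fin (s + e + k)) : wE u s e k D i ≤ 3 * D := by
  unfold wE
  split_ifs <;> omega

theorem COM2 (_hMONO : S_MONO) (hTOP : S_TOP) (hRAT : S_RAT) (hTR : S_TR) (hPOS : S_POS) (hQU : S_QU)
    (hRCI : S_RCI) (hFE : S_FE) (hFIB : S_FIB) : S_COM2 := by
  intro u s e k hs hu hk
  set D := s ^ 2 + s + 2 with hDdef
  have hD : 1 ≤ D := by omega
  obtain ⟨c₁, hc₁⟩ := hRCI (s + e + k) (3 * D) (3 * D ^ 2)
  have hk1 : 1 ≤ k := by
    rcases Nat.eq_zero_or_pos k with rfl | h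
    · simp at hk
    · exact h
  -- the number h' of the quadratic forms
  have hch : 2 * (k + 3).choose 2 = (k + 3) * (k + 2) := by
    have := Nat.triangle_succ (k + 2)
    rw [Nat.choose_two_right, Nat.mul_div_cancel']
    · rfl
    · simpa using (Nat.even_mul_pred_self (k + 3)).two_dvd
  have hchs : k * s + (s ^ 2 + 2 + k) ≤ k * (k + 3).choose 2 := by
    have : k * (k + 3) * (k + 2) = 2 * (k * (k + 3).choose 2) := by
      calc k * (k + 3) * (k + 2) = k * ((k + 3) * (k + 2)) := by ring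
        _ = k * (2 * (k + 3).choose 2) := by rw [hch]
        _ = _ := by ring
    rw [this] at hk
    omega
  have hles : s ≤ (k + 3).choose 2 := by
    by_contra hcon
    push Not at hcon
    have : k * (k + 3).choose 2 ≤ k * s := Nat.mul_le_mul_left k hcon.le
    have : 0 < s ^ 2 + 2 + k := by omega
    omega
  obtain ⟨h', hh'⟩ : ∃ h', h' + s = (k + 3).choose 2 := ⟨(k + 3).choose 2 - s, by omega⟩
  have hkh : (s ^ 2 + 2) + k ≤ k * h' := by
    rw [← hh', mul_add] at hchs
    omega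
  obtain ⟨c₂, hc₂⟩ := count_bad hFE hFIB hQU (s + e) k (6 * D) (3 * D) s h'
  refine ⟨(∑ i : Fin (s + e), c₂ i) * ((s + e).factorial * 2 ^ (s + e)) + c₁ (s + e + k), ?_⟩
  intro F _ _ U hU1 hU2
  have hwt : ∀ i, 1 ≤ wE u s e k D i ∧ wE u s e k D i ≤ 3 * D := fun i => ⟨wE_pos u s e k D hD i, wE_le u s e k D hD i⟩
  have hfin : ∀ a, Finite (U a) := by
    intro a
    rcases lt_or_ge (a : ℕ) (s + e) with ha | ha
    · exact finite_le (fun i => (hwt i).1) (hU1 a ha).1
    · exact finite_le (fun i => (hwt i).1) (hU2 a ha).1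
  have hq : 0 < Fintype.card F := Fintype.card_pos
  -- the bad event
  let B : (∀ a, U a) → Prop := fun w => ∃ iu : Fin (s + e) × (Fin k → F), Bd (m := s + e) U iu.1 iu.2 w
  have hB : Fintype.card F ^ (s ^ 2 + 2) * Nat.card {w : ∀ a, U a // B w} ≤
      ((∑ i : Fin (s + e), c₂ i) * ((s + e).factorial * 2 ^ (s + e))) * ∏ a, Nat.card (U a) := by
    have e1 : Nat.card {w : ∀ a, U a // B w} ≤ ∑ iu : Fin (s + e) × (Fin k → F),
        Nat.card {w : ∀ a, U a // Bd (m := s + e) U iu.1 iu.2 w} :=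
      card_union (fun iu : Fin (s + e) × (Fin k → F) => Bd (m := s + e) U iu.1 iu.2)
    have e2 : Fintype.card F ^ (k * h') * Nat.card {w : ∀ a, U a // B w} ≤
        Fintype.card F ^ k * (((∑ i : Fin (s + e), c₂ i) * ((s + e).factorial * 2 ^ (s + e))) *
          ∏ a, Nat.card (U a)) := by
      calc Fintype.card F ^ (k * h') * Nat.card {w : ∀ a, U a // B w}
          ≤ Fintype.card F ^ (k * h') * ∑ iu : Fin (s + e) × (Fin k → F),
              Nat.card {w : ∀ a, U a // Bd (m := s + e) U iu.1 iu.2 w} := Nat.mul_le_mul_left _ e1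
        _ = ∑ iu : Fin (s + e) × (Fin k → F), Fintype.card F ^ (k * h') *
              Nat.card {w : ∀ a, U a // Bd (m := s + e) U iu.1 iu.2 w} := by rw [Finset.mul_sum]
        _ ≤ ∑ iu : Fin (s + e) × (Fin k → F), c₂ iu.1 * ((s + e).factorial * 2 ^ (s + e)) *
              ∏ a, Nat.card (U a) := by
            refine Finset.sum_le_sum fun iu _ => ?_
            refine hc₂ F (wE u s e k D) hwt ?_ hh'.le U hfin hU1 iu.1 iu.1.2 iu.2
            intro i
            have := (hwt i).2; omega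
        _ = _ := by
            rw [Fintype.sum_prod_type]
            simp only [Finset.sum_const, Finset.card_univ, Fintype.card_pi, Finset.prod_const,
              Fintype.card_fin, smul_eq_mul]
            rw [← Finset.mul_sum, ← Finset.sum_mul, ← Finset.sum_mul]
    have e3 : Fintype.card F ^ (s ^ 2 + 2) * Fintype.card F ^ k ≤ Fintype.card F ^ (k * h') := by
      rw [← pow_add]
      exact Nat.pow_le_pow_right hq hkh
    have e4 : Fintype.card F ^ k * (Fintype.card F ^ (s ^ 2 + 2) * Nat.card {w : ∀ a, U a // B w}) ≤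
        Fintype.card F ^ k * (((∑ i : Fin (s + e), c₂ i) * ((s + e).factorial * 2 ^ (s + e))) *
          ∏ a, Nat.card (U a)) := by
      refine le_trans ?_ e2
      calc Fintype.card F ^ k * (Fintype.card F ^ (s ^ 2 + 2) * Nat.card {w : ∀ a, U a // B w})
          = (Fintype.card F ^ (s ^ 2 + 2) * Fintype.card F ^ k) * Nat.card {w : ∀ a, U a // B w} := by ring
        _ ≤ _ := Nat.mul_le_mul_right _ e3
    exact Nat.le_of_mul_le_mul_left e4 (pow_pos hq k)
  -- the other event
  obtain ⟨hdim0, hdeg0⟩ := hTOP F (s + e + k) (wE u s e k D) (fun i => (hwt i).1)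
  let d : Fin (s + e + k) → ℕ := fun i => wE u s e k D i * (if (i : ℕ) < u then 3 else if (i : ℕ) < s + e then 2 else 3 * D ^ 2)
  have hd1 : ∀ i : Fin (s + e + k), (i : ℕ) < s + e → d i = 6 * D := by
    intro i hi
    simp only [d, wE, if_pos hi]
    split_ifs <;> ring
  have hd2 : ∀ i : Fin (s + e + k), s + e ≤ (i : ℕ) → d i = 3 * D ^ 2 := by
    intro i hi
    have hiu : ¬ (i : ℕ) < u := by omega
    simp only [d, wE, if_neg (not_lt.mpr hi), if_neg hiu]
    ring
  have hD2 : 2 ≤ D := by omega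
  have hmain := hc₁ F (wE u s e k D) hwt (s + e + k) (s ^ 2 + 2) ⊥ Ideal.isPrime_bot hdim0 U d
    (by
      intro i
      rcases lt_or_ge (i : ℕ) (s + e) with hi | hi
      · rw [hd1 i hi]
        exact (hU1 i hi).1
      · rw [hd2 i hi]
        exact (hU2 i hi).1)
    (by
      intro i
      rcases lt_or_ge (i : ℕ) (s + e) with hi | hi
      · rw [hd1 i hi]
        constructor
        · omega
        · nlinarith
      · rw [hd2 i hi]
        constructor
        · nlinarith
        · exact le_rfl)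
    B
    (by
      intro w hw i Q hQ _ hl hdQ
      rcases lt_or_ge (i : ℕ) (s + e) with hi | hi
      · by_cases htr : ∃ a : Fin (s + e + k), s + e ≤ (a : ℕ) ∧
            Transcendental F (Ideal.Quotient.mk Q (X a))
        · obtain ⟨a, ha, hta⟩ := htr
          left
          refine hTR F (s + e + k) D (6 * D) s (wE u s e k D) (fun i => (hwt i).1) Q (U i) a hQ hta ?_
            (hU1 i hi).1 (hU1 i hi).2 (s ^ 2 + 2) (by omega)
          have hau : ¬ (a : ℕ) < u := by omega
          simp only [wE, if_neg (not_lt.mpr ha), if_neg hau]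
          omega
        · right
          intro y hy
          apply hw
          refine ⟨(⟨i, hi⟩, fun j => y (Fin.natAdd (s + e) j)), Q, hQ, ?_, ?_, hdQ⟩
          · intro a ha
            rw [yv_eq y a ha]
            refine hRAT F (s + e + k) Q y a hQ hy ?_
            by_contra hna
            exact htr ⟨a, ha, hna⟩
          · intro l hli
            exact hl l hli
      · left
        obtain ⟨a, hta⟩ := hPOS F (s + e + k) Q hQ (by have := i.2; omega)
        refine hTR F (s + e + k) D (3 * D ^ 2) s (wE u s e k D) (fun i => (hwt i).1) Q (U i) a hQ hta ?_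
            (hU2 i hi).1 (hU2 i hi).2 (s ^ 2 + 2) (by omega)
        calc wE u s e k D a * D ≤ 3 * D * D := Nat.mul_le_mul_right D (hwt a).2
          _ = 3 * D ^ 2 := by ring)
  -- the degree of the zero ideal
  have hprodwt : (1 : ℝ≥0∞) ≤ ∏ i, (wE u s e k D i : ℝ≥0∞) := by
    have : 1 ≤ ∏ i, wE u s e k D i := Finset.one_le_prod' (fun i _ => (hwt i).1)
    exact_mod_cast this
  have hDeg1 : Deg (wE u s e k D) (s + e + k) (⊥ : Ideal (MvPolynomial (Fin (s + e + k)) F)) ≤ 1 := by
    calc Deg (wE u s e k D) (s + e + k) (⊥ : Ideal (MvPolynomial (Fin (s + e + k)) F))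
        = Deg (wE u s e k D) (s + e + k) (⊥ : Ideal (MvPolynomial (Fin (s + e + k)) F)) * 1 := by rw [mul_one]
      _ ≤ Deg (wE u s e k D) (s + e + k) (⊥ : Ideal (MvPolynomial (Fin (s + e + k)) F)) *
          ∏ i, (wE u s e k D i : ℝ≥0∞) := by gcongr
      _ ≤ 1 := hdeg0
  have hDeg2 : Deg (wE u s e k D) (s + e + k) (⊥ : Ideal (MvPolynomial (Fin (s + e + k)) F)) *
      ∏ i, (d i : ℝ≥0∞) ≤ ((2 ^ (s + e - u) * 3 ^ u * (3 * D ^ 2) ^ k : ℕ) : ℝ≥0∞) := by
    have hg : ∏ i : Fin (s + e + k), (if (i : ℕ) < u then 3 else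
        if (i : ℕ) < s + e then 2 else 3 * D ^ 2) = 2 ^ (s + e - u) * 3 ^ u * (3 * D ^ 2) ^ k := by
      obtain ⟨m, hm⟩ := Nat.exists_eq_add_of_le hu
      have hprod : ∀ (a b : ℕ) (x y : ℕ), ∏ i : Fin (a + b), (if (i : ℕ) < a then x else y) =
          x ^ a * y ^ b := by
        intro a b x y
        rw [Fin.prod_univ_add]
        simp
      have h1 : ∏ i : Fin (s + e), (if (i : ℕ) < u then 3 else 2) = 3 ^ u * 2 ^ m := by
        rw [hm]
        exact hprod u m 3 2
      rw [Fin.prod_univ_add]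
      have h2 : ∀ i : Fin (s + e), (if ((Fin.castAdd k i : Fin (s + e + k)) : ℕ) < u then 3 else
          if ((Fin.castAdd k i : Fin (s + e + k)) : ℕ) < s + e then 2 else 3 * D ^ 2) =
          (if (i : ℕ) < u then 3 else 2) := by
        intro i
        simp
      have h3 : ∀ i : Fin k, (if ((Fin.natAdd (s + e) i : Fin (s + e + k)) : ℕ) < u then 3 else
          if ((Fin.natAdd (s + e) i : Fin (s + e + k)) : ℕ) < s + e then 2 else 3 * D ^ 2) =
          3 * D ^ 2 := by
        intro i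
        have h4 : ¬ ((Fin.natAdd (s + e) i : Fin (s + e + k)) : ℕ) < u := by
          simp; omega
        rw [if_neg h4]
        simp
      simp only [h2, h3, h1, Finset.prod_const, Finset.card_univ, Fintype.card_fin]
      have h5 : s + e - u = m := by omega
      rw [h5]
      ring
    have hdd : ∏ i, (d i : ℝ≥0∞) = (∏ i, (wE u s e k D i : ℝ≥0∞)) *
        ((2 ^ (s + e - u) * 3 ^ u * (3 * D ^ 2) ^ k : ℕ) : ℝ≥0∞) := by
      rw [← hg]
      push_cast
      rw [← Finset.prod_mul_distrib]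
      refine Finset.prod_congr rfl fun i _ => ?_
      simp only [d]
      push_cast
      rfl
    rw [hdd, ← mul_assoc]
    calc Deg (wE u s e k D) (s + e + k) (⊥ : Ideal (MvPolynomial (Fin (s + e + k)) F)) *
          (∏ i, (wE u s e k D i : ℝ≥0∞)) * ((2 ^ (s + e - u) * 3 ^ u * (3 * D ^ 2) ^ k : ℕ) : ℝ≥0∞)
        ≤ 1 * ((2 ^ (s + e - u) * 3 ^ u * (3 * D ^ 2) ^ k : ℕ) : ℝ≥0∞) := by gcongr
      _ = _ := one_mul _
  have hA : Fintype.card F ^ (s ^ 2 + 2) * Nat.card {w : ∀ i, U i // ¬ B w ∧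
      Deg (wE u s e k D) (s + e + k) (⊥ : Ideal (MvPolynomial (Fin (s + e + k)) F)) *
      ∏ i, (d i : ℝ≥0∞) < (Set.ncard {y : Fin (s + e + k) → F |
        Van (⊥ : Ideal (MvPolynomial (Fin (s + e + k)) F)) y ∧
      ∀ i, eval y (w i : MvPolynomial (Fin (s + e + k)) F) = 0} : ℝ≥0∞)} ≤
      c₁ (s + e + k) * ∏ i, Nat.card (U i) := by
    have : (Fintype.card F : ℝ≥0∞) ^ (s ^ 2 + 2) * (Nat.card {w : ∀ i, U i // ¬ B w ∧
      Deg (wE u s e k D) (s + e + k) (⊥ : Ideal (MvPolynomial (Fin (s + e + k)) F)) *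
      ∏ i, (d i : ℝ≥0∞) < (Set.ncard {y : Fin (s + e + k) → F |
        Van (⊥ : Ideal (MvPolynomial (Fin (s + e + k)) F)) y ∧
      ∀ i, eval y (w i : MvPolynomial (Fin (s + e + k)) F) = 0} : ℝ≥0∞)} : ℝ≥0∞) ≤
      c₁ (s + e + k) * 1 * ∏ i, (Nat.card (U i) : ℝ≥0∞) := hmain.trans (by gcongr)
    rw [mul_one] at this
    exact_mod_cast this
  have hsub : Nat.card {w : ∀ i, U i //
      2 ^ (s + e - u) * 3 ^ u * (3 * D ^ 2) ^ k < Set.ncard {y : Fin (s + e + k) → F |
      ∀ i, eval y (w i : MvPolynomial (Fin (s + e + k)) F) = 0}} ≤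
      Nat.card {w : ∀ a, U a // B w} + Nat.card {w : ∀ i, U i // ¬ B w ∧
      Deg (wE u s e k D) (s + e + k) (⊥ : Ideal (MvPolynomial (Fin (s + e + k)) F)) *
      ∏ i, (d i : ℝ≥0∞) < (Set.ncard {y : Fin (s + e + k) → F |
        Van (⊥ : Ideal (MvPolynomial (Fin (s + e + k)) F)) y ∧
      ∀ i, eval y (w i : MvPolynomial (Fin (s + e + k)) F) = 0} : ℝ≥0∞)} := by
    classical
    rw [← Nat.card_sum]
    refine Nat.card_le_card_of_injective (fun w => if hb : B w.1 then Sum.inl ⟨w.1, hb⟩ else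
      Sum.inr ⟨w.1, hb, ?_⟩) ?_
    · refine lt_of_le_of_lt hDeg2 ?_
      have h0 := w.2
      have hv : {y : Fin (s + e + k) → F | Van (⊥ : Ideal (MvPolynomial (Fin (s + e + k)) F)) y ∧
          ∀ i, eval y (w.1 i : MvPolynomial (Fin (s + e + k)) F) = 0} =
          {y : Fin (s + e + k) → F | ∀ i, eval y (w.1 i : MvPolynomial (Fin (s + e + k)) F) = 0} := by
        ext y
        simp only [Set.mem_ofPred_eq, and_iff_right_iff_imp]
        intro _ p hp
        rw [Ideal.mem_bot] at hp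
        rw [hp, map_zero]
      rw [hv]
      exact_mod_cast h0
    · rintro ⟨w, hw⟩ ⟨w', hw'⟩ h
      apply Subtype.ext
      by_cases hb : B w <;> by_cases hb' : B w' <;> simp [hb, hb'] at h
      · exact h
      · exact h
  calc Fintype.card F ^ (s ^ 2 + 2) * Nat.card {w : ∀ i, U i //
      2 ^ (s + e - u) * 3 ^ u * (3 * D ^ 2) ^ k < Set.ncard {y : Fin (s + e + k) → F |
      ∀ i, eval y (w i : MvPolynomial (Fin (s + e + k)) F) = 0}}
      ≤ Fintype.card F ^ (s ^ 2 + 2) * (Nat.card {w : ∀ a, U a // B w} + Nat.card {w : ∀ i, U i // ¬ B w ∧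
      Deg (wE u s e k D) (s + e + k) (⊥ : Ideal (MvPolynomial (Fin (s + e + k)) F)) *
      ∏ i, (d i : ℝ≥0∞) < (Set.ncard {y : Fin (s + e + k) → F |
        Van (⊥ : Ideal (MvPolynomial (Fin (s + e + k)) F)) y ∧
      ∀ i, eval y (w i : MvPolynomial (Fin (s + e + k)) F) = 0} : ℝ≥0∞)}) := Nat.mul_le_mul_left _ hsub
    _ ≤ _ := by
      rw [mul_add, add_mul]
      exact Nat.add_le_add hB hA

end Pool.Agent.H99.KC
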