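import Pool.Agent.H20.G.R_pool_sql_team_seeded_63374d34.N684.BK.Alg4
import Pool.Agent.H99.KC.CMM

/-!
Project KC: the graphs (adapted from the modules Alg2, Alg3, Alg4 of project BK).
-/

set_option autoImplicit false

open MvPolynomial

namespace Pool.Agent.H99.KC

open Pool.Agent.N684.BK

theorem XXX_mem_PW2 {F : Type} [Field F] {N : ℕ} (wt : Fin N → ℕ) (K : ℕ) (a b c : Fin N)
    (h : wt a + wt b + wt c ≤ K) : (X a * X b * X c : MvPolynomial (Fin N) F) ∈ PW F wt K := by
  classical
  rw [mem_PW]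
  intro m hm
  have he : (X a * X b * X c : MvPolynomial (Fin N) F) =
      monomial (Finsupp.single a 1 + Finsupp.single b 1 + Finsupp.single c 1) 1 := by
    have h1 : (X a * X b * X c : MvPolynomial (Fin N) F) =
        monomial (Finsupp.single a 1) 1 * monomial (Finsupp.single b 1) 1 *
          monomial (Finsupp.single c 1) 1 := rfl
    rw [h1, monomial_mul, monomial_mul, one_mul, one_mul]
  have hm' : m = Finsupp.single a 1 + Finsupp.single b 1 + Finsupp.single c 1 := by
    by_contra h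
    rw [he, mem_support_iff, coeff_monomial, if_neg (Ne.symm h)] at hm
    exact hm rfl
  have hw : ∀ c : Fin N, wd wt (Finsupp.single c 1) = wt c := by
    intro c
    unfold wd
    rw [Finset.sum_eq_single c]
    · simp
    · intro b _ hb
      rw [Finsupp.single_eq_of_ne hb]
      simp
    · simp
  have hadd : ∀ m m' : Fin N →₀ ℕ, wd wt (m + m') = wd wt m + wd wt m' := by
    intro m m'
    unfold wd
    rw [← Finset.sum_add_distrib]
    refine Finset.sum_congr rfl fun i _ => ?_
    rw [Finsupp.add_apply, mul_add]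
  rw [hm', hadd, hadd, hw, hw, hw]
  exact h

/-- the statement COM for the families that occur -/
theorem com_apply2 (hCOM : S_COM2) (u s e k : ℕ) (hs : 1 ≤ s) (hu : u ≤ s + e)
    (hk : 2 * (s ^ 2 + 2 + k + k * s) ≤ k * (k + 3) * (k + 2)) :
    ∃ C : ℕ, ∀ (F : Type) [Field F] [Fintype F]
    (W H : Submodule F (MvPolynomial (Fin (s + e + k)) F)),
    W = PW F (wE u s e k (s ^ 2 + s + 2)) (6 * (s ^ 2 + s + 2)) →
    H = PW F (wE u s e k (s ^ 2 + s + 2)) (3 * (s ^ 2 + s + 2) ^ 2) →
    ∀ A : Fin s → Fin (s + e + k) → F, Ind W A →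
    Fintype.card F ^ (s ^ 2 + 2) * Nat.card
      {x : ((Fin e → van W A) × (Fin k → van H A)) × (Fin s → W) //
        2 ^ (s + e - u) * 3 ^ u * (3 * (s ^ 2 + s + 2) ^ 2) ^ k < Set.ncard {y : Fin (s + e + k) → F |
          (∀ i, eval y (x.1.1 i : MvPolynomial (Fin (s + e + k)) F) = 0) ∧
          (∀ i, eval y (x.1.2 i : MvPolynomial (Fin (s + e + k)) F) = 0) ∧
          (∀ i, eval y (x.2 i : MvPolynomial (Fin (s + e + k)) F) = 0)}} ≤
      C * (Nat.card (van W A) ^ e * Nat.card (van H A) ^ k * Nat.card W ^ s) := by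
  obtain ⟨C, hC⟩ := hCOM u s e k hs hu hk
  refine ⟨C, ?_⟩
  intro F _ _ W H hW hH A hA
  have hwt : ∀ i, 1 ≤ wE u s e k (s ^ 2 + s + 2) i := by
    intro i
    unfold wE
    split_ifs <;> omega
  have hWf : Module.Finite F W := by rw [hW]; exact PW_finite _ hwt _
  have hHf : Module.Finite F H := by rw [hH]; exact PW_finite _ hwt _
  have hWH : W ≤ H := by
    rw [hW, hH]
    refine PW_mono ?_
    nlinarith [Nat.zero_le (s ^ 2 + s)]
  have hvW := van_finite W A
  have hvH := van_finite H A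
  let E : (Fin s ⊕ Fin e) ⊕ Fin k ≃ Fin (s + e + k) :=
    (Equiv.sumCongr finSumFinEquiv (Equiv.refl _)).trans finSumFinEquiv
  let Us : (Fin s ⊕ Fin e) ⊕ Fin k → Submodule F (MvPolynomial (Fin (s + e + k)) F) :=
    Sum.elim (Sum.elim (fun _ => W) (fun _ => van W A)) (fun _ => van H A)
  have hUf : ∀ z, Module.Finite F (Us z) := by
    rintro ((z | z) | z)
    · exact hWf
    · exact hvW
    · exact hvH
  have hUf2 : ∀ z, Finite (Us z) := fun z => by
    have := hUf z
    exact finite_sub _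
  let U : Fin (s + e + k) → Submodule F (MvPolynomial (Fin (s + e + k)) F) :=
    fun i => Us (E.symm i)
  have hcA : Fintype.card (Fin s) = s := Fintype.card_fin s
  have key := hC F U (by
      intro i hi
      obtain ⟨z, rfl⟩ := E.surjective i
      show Us (E.symm (E z)) ≤ _ ∧ _ ≤ Module.finrank F (Us (E.symm (E z))) + s
      rw [E.symm_apply_apply, ← hW]
      rcases z with (z | z) | z
      · exact ⟨le_rfl, Nat.le_add_right _ _⟩
      · refine ⟨van_le W A, ?_⟩
        have h1 := finrank_van hA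
        rw [hcA] at h1
        exact h1.ge
      · exfalso
        simp [E] at hi) (by
      intro i hi
      obtain ⟨z, rfl⟩ := E.surjective i
      show Us (E.symm (E z)) ≤ _ ∧ _ ≤ Module.finrank F (Us (E.symm (E z))) + s
      rw [E.symm_apply_apply, ← hH]
      rcases z with (z | z) | z
      · exfalso
        have h1 : (z : ℕ) < s := z.2
        simp [E] at hi
        omega
      · exfalso
        have h1 : (z : ℕ) < e := z.2
        simp [E] at hi
        omega
      · refine ⟨van_le H A, ?_⟩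
        have h1 := finrank_van (hA.mono hWH)
        rw [hcA] at h1
        exact h1.ge)
  have hprod : ∏ i, Nat.card (U i) =
      Nat.card (van W A) ^ e * Nat.card (van H A) ^ k * Nat.card W ^ s := by
    have h1 : ∏ i, Nat.card (U i) = ∏ z, Nat.card (Us z) :=
      Equiv.prod_comp E.symm (fun z => Nat.card (Us z))
    rw [h1, Fintype.prod_sum_type, Fintype.prod_sum_type]
    simp only [Us, Sum.elim_inl, Sum.elim_inr, Finset.prod_const, Finset.card_univ,
      Fintype.card_fin]
    ring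
  rw [hprod] at key
  refine le_trans (Nat.mul_le_mul_left _ ?_) key
  let v : (((Fin e → van W A) × (Fin k → van H A)) × (Fin s → W)) → ∀ z, Us z := fun x z =>
    match z with
    | Sum.inl (Sum.inl a) => x.2 a
    | Sum.inl (Sum.inr a) => x.1.1 a
    | Sum.inr a => x.1.2 a
  have hfin : Finite (∀ i, U i) := by
    have : ∀ i, Finite (U i) := fun i => hUf2 _
    infer_instance
  refine Nat.card_le_card_of_injective (fun x => ⟨fun i => v x.1 (E.symm i), ?_⟩) ?_
  · have h2 := x.2
    have h3 : {y : Fin (s + e + k) → F |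
          (∀ i, eval y (x.1.1.1 i : MvPolynomial (Fin (s + e + k)) F) = 0) ∧
          (∀ i, eval y (x.1.1.2 i : MvPolynomial (Fin (s + e + k)) F) = 0) ∧
          (∀ i, eval y (x.1.2 i : MvPolynomial (Fin (s + e + k)) F) = 0)} =
        {y : Fin (s + e + k) → F | ∀ i,
          eval y (v x.1 (E.symm i) : MvPolynomial (Fin (s + e + k)) F) = 0} := by
      ext y
      simp only [Set.mem_ofPred_eq]
      constructor
      · rintro ⟨h4, h5, h6⟩ i
        rcases E.symm i with (z | z) | z
        · exact h6 z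
        · exact h4 z
        · exact h5 z
      · intro h4
        refine ⟨fun z => ?_, fun z => ?_, fun z => ?_⟩
        · have := h4 (E (Sum.inl (Sum.inr z)))
          rw [E.symm_apply_apply] at this
          exact this
        · have := h4 (E (Sum.inr z))
          rw [E.symm_apply_apply] at this
          exact this
        · have := h4 (E (Sum.inl (Sum.inl z)))
          rw [E.symm_apply_apply] at this
          exact this
    rw [h3] at h2
    exact h2
  · intro x x' hxx
    have h4 : ∀ i, v x.1 (E.symm i) = v x'.1 (E.symm i) := fun i =>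
      congrFun (congrArg Subtype.val hxx) i
    have h5 : ∀ z, v x.1 z = v x'.1 z := by
      intro z
      have := h4 (E z)
      rw [E.symm_apply_apply] at this
      exact this
    apply Subtype.ext
    apply Prod.ext
    · apply Prod.ext
      · funext z
        exact h5 (Sum.inl (Sum.inr z))
      · funext z
        exact h5 (Sum.inr z)
    · funext z
      exact h5 (Sum.inl (Sum.inl z))

theorem badx2 (hCOM : S_COM2) (u s e k : ℕ) (hs : 1 ≤ s) (hu : u ≤ s + e)
    (hk : 2 * (s ^ 2 + 2 + k + k * s) ≤ k * (k + 3) * (k + 2)) :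
    ∃ C : ℕ, ∀ (F : Type) [Field F] [Fintype F]
    (W H : Submodule F (MvPolynomial (Fin (s + e + k)) F)),
    W = PW F (wE u s e k (s ^ 2 + s + 2)) (6 * (s ^ 2 + s + 2)) →
    H = PW F (wE u s e k (s ^ 2 + s + 2)) (3 * (s ^ 2 + s + 2) ^ 2) →
    ∀ (n : ℕ) (b : Module.Basis (Fin n) F W) (A : Fin s → Fin (s + e + k) → F), Ind W A →
    Fintype.card F ^ (s ^ 2 + 2 + s * (e + k)) * Nat.card
      {z : ((Fin e → W) × (Fin k → H)) × (Fin n → Fin n → F) // Set.range A ⊆ VV z.1 ∧
        2 ^ (s + e - u) * 3 ^ u * (3 * (s ^ 2 + s + 2) ^ 2) ^ k < Set.ncard {y : Fin (s + e + k) → F |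
          y ∈ VV z.1 ∧
          ∀ i, bil (fun l => (b l : MvPolynomial (Fin (s + e + k)) F)) z.2 (A i) y = 0}} ≤
      C * (Nat.card ((Fin e → W) × (Fin k → H)) * Nat.card (Fin n → Fin n → F)) := by
  obtain ⟨C, hC⟩ := com_apply2 hCOM u s e k hs hu hk
  refine ⟨C, ?_⟩
  intro F _ _ W H hW hH n b A hA
  have hwt : ∀ i, 1 ≤ wE u s e k (s ^ 2 + s + 2) i := by
    intro i
    unfold wE
    split_ifs <;> omega
  have hWf : Module.Finite F W := by rw [hW]; exact PW_finite _ hwt _
  have hHf : Module.Finite F H := by rw [hH]; exact PW_finite _ hwt _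
  have hWH : W ≤ H := by
    rw [hW, hH]
    refine PW_mono ?_
    nlinarith [Nat.zero_le (s ^ 2 + s)]
  have hvW := van_finite W A
  have hvH := van_finite H A
  have fW := finite_sub W
  have fH := finite_sub H
  have fvW := finite_sub (van W A)
  have fvH := finite_sub (van H A)
  have key := hC F W H hW hH A hA
  set T := 2 ^ (s + e - u) * 3 ^ u * (3 * (s ^ 2 + s + 2) ^ 2) ^ k with hT
  let Z := (Fin e → van W A) × (Fin k → van H A)
  let p : Z → (Fin s → W) → Prop := fun x g => T < Set.ncard {y : Fin (s + e + k) → F |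
          (∀ i, eval y (x.1 i : MvPolynomial (Fin (s + e + k)) F) = 0) ∧
          (∀ i, eval y (x.2 i : MvPolynomial (Fin (s + e + k)) F) = 0) ∧
          (∀ i, eval y (g i : MvPolynomial (Fin (s + e + k)) F) = 0)}
  have hfib := card_fib (Z := Z) (gm b A) (gm_surj b hA) p
  have e1 : {z : ((Fin e → W) × (Fin k → H)) × (Fin n → Fin n → F) // Set.range A ⊆ VV z.1 ∧
        T < Set.ncard {y : Fin (s + e + k) → F |
          y ∈ VV z.1 ∧
          ∀ i, bil (fun l => (b l : MvPolynomial (Fin (s + e + k)) F)) z.2 (A i) y = 0}} ≃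
      {z : Z × (Fin n → Fin n → F) // p z.1 (gm b A z.2)} :=
    { toFun := fun z => ⟨((fun a => ⟨z.1.1.1 a, mem_van.2 ⟨(z.1.1.1 a).2, fun i =>
          (z.2.1 ⟨i, rfl⟩).1 a⟩⟩, fun a => ⟨z.1.1.2 a, mem_van.2 ⟨(z.1.1.2 a).2, fun i =>
          (z.2.1 ⟨i, rfl⟩).2 a⟩⟩), z.1.2), by
            have h2 := z.2.2
            have h3 : {y : Fin (s + e + k) → F | y ∈ VV z.1.1 ∧
              ∀ i, bil (fun l => (b l : MvPolynomial (Fin (s + e + k)) F)) z.1.2 (A i) y = 0} =
              {y : Fin (s + e + k) → F |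
                (∀ i, eval y (z.1.1.1 i : MvPolynomial (Fin (s + e + k)) F) = 0) ∧
                (∀ i, eval y (z.1.1.2 i : MvPolynomial (Fin (s + e + k)) F) = 0) ∧
                (∀ i, eval y (gm b A z.1.2 i : MvPolynomial (Fin (s + e + k)) F) = 0)} := by
              ext y
              simp only [Set.mem_ofPred_eq, eval_gm, VV, and_assoc]
            rw [h3] at h2
            exact h2⟩
      invFun := fun z => ⟨((fun a => ⟨z.1.1.1 a, (mem_van.1 (z.1.1.1 a).2).1⟩,
          fun a => ⟨z.1.1.2 a, (mem_van.1 (z.1.1.2 a).2).1⟩), z.1.2), by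
            rintro _ ⟨i, rfl⟩
            exact ⟨fun a => (mem_van.1 (z.1.1.1 a).2).2 i, fun a => (mem_van.1 (z.1.1.2 a).2).2 i⟩,
          by
            have h2 : T < Set.ncard {y : Fin (s + e + k) → F |
                (∀ i, eval y (z.1.1.1 i : MvPolynomial (Fin (s + e + k)) F) = 0) ∧
                (∀ i, eval y (z.1.1.2 i : MvPolynomial (Fin (s + e + k)) F) = 0) ∧
                (∀ i, eval y (gm b A z.1.2 i : MvPolynomial (Fin (s + e + k)) F) = 0)} := z.2
            simp only [eval_gm] at h2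
            show T < Set.ncard {y : Fin (s + e + k) → F | y ∈ VV _ ∧
              ∀ i, bil (fun l => (b l : MvPolynomial (Fin (s + e + k)) F)) z.1.2 (A i) y = 0}
            simp only [VV, Set.mem_ofPred_eq, and_assoc]
            exact h2⟩
      left_inv := fun z => rfl
      right_inv := fun z => rfl }
  rw [Nat.card_congr e1]
  have e2 : Nat.card {z : Z × (Fin s → W) // p z.1 z.2} = Nat.card
      {x : ((Fin e → van W A) × (Fin k → van H A)) × (Fin s → W) //
        T < Set.ncard {y : Fin (s + e + k) → F |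
          (∀ i, eval y (x.1.1 i : MvPolynomial (Fin (s + e + k)) F) = 0) ∧
          (∀ i, eval y (x.1.2 i : MvPolynomial (Fin (s + e + k)) F) = 0) ∧
          (∀ i, eval y (x.2 i : MvPolynomial (Fin (s + e + k)) F) = 0)}} := rfl
  rw [← e2] at key
  have h1 := card_van hA
  have h2 := card_van (hA.mono hWH)
  rw [Fintype.card_fin] at h1 h2
  have hWpos : 0 < Nat.card W := Nat.card_pos
  have h3 : Nat.card (Fin s → W) = Nat.card W ^ s := by
    rw [Nat.card_fun, Nat.card_eq_fintype_card (α := Fin s), Fintype.card_fin]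
  have h4 : Nat.card ((Fin e → W) × (Fin k → H)) = Nat.card W ^ e * Nat.card H ^ k := by
    rw [Nat.card_prod, Nat.card_fun, Nat.card_fun, Nat.card_eq_fintype_card (α := Fin e),
      Fintype.card_fin, Nat.card_eq_fintype_card (α := Fin k), Fintype.card_fin]
  rw [h3] at hfib
  rw [h4]
  have hpos : 0 < Nat.card W ^ s := Nat.pow_pos hWpos
  refine Nat.le_of_mul_le_mul_right ?_ hpos
  calc Fintype.card F ^ (s ^ 2 + 2 + s * (e + k)) *
        Nat.card {z : Z × (Fin n → Fin n → F) // p z.1 (gm b A z.2)} * Nat.card W ^ s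
      = Fintype.card F ^ (s * (e + k)) * (Fintype.card F ^ (s ^ 2 + 2) *
        (Nat.card {z : Z × (Fin n → Fin n → F) // p z.1 (gm b A z.2)} * Nat.card W ^ s)) := by
        rw [pow_add]; ring
    _ = Fintype.card F ^ (s * (e + k)) * ((Fintype.card F ^ (s ^ 2 + 2) *
        Nat.card {z : Z × (Fin s → W) // p z.1 z.2}) * Nat.card (Fin n → Fin n → F)) := by
        rw [hfib]; ring
    _ ≤ Fintype.card F ^ (s * (e + k)) * ((C * (Nat.card (van W A) ^ e *
        Nat.card (van H A) ^ k * Nat.card W ^ s)) * Nat.card (Fin n → Fin n → F)) := by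
        gcongr
    _ = C * ((Nat.card (van W A) * Fintype.card F ^ s) ^ e *
        (Nat.card (van H A) * Fintype.card F ^ s) ^ k * Nat.card (Fin n → Fin n → F)) *
        Nat.card W ^ s := by
        rw [mul_add, pow_add, pow_mul, pow_mul, mul_pow, mul_pow]; ring
    _ = C * (Nat.card W ^ e * Nat.card H ^ k * Nat.card (Fin n → Fin n → F)) *
        Nat.card W ^ s := by
        rw [h1, h2]

theorem bad_card2 (hCOM : S_COM2) (u s e k : ℕ) (hs : 1 ≤ s) (hu : u ≤ s + e)
    (hk : 2 * (s ^ 2 + 2 + k + k * s) ≤ k * (k + 3) * (k + 2)) :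
    ∃ C : ℕ, ∀ (F : Type) [Field F] [Fintype F]
    (W H : Submodule F (MvPolynomial (Fin (s + e + k)) F)),
    W = PW F (wE u s e k (s ^ 2 + s + 2)) (6 * (s ^ 2 + s + 2)) →
    H = PW F (wE u s e k (s ^ 2 + s + 2)) (3 * (s ^ 2 + s + 2) ^ 2) →
    ∀ (n : ℕ) (b : Module.Basis (Fin n) F W),
    Fintype.card F ^ 2 * Nat.card
      {z : ((Fin e → W) × (Fin k → H)) × (Fin n → Fin n → F) //
        Bad (s := s) (2 ^ (s + e - u) * 3 ^ u * (3 * (s ^ 2 + s + 2) ^ 2) ^ k) b z.1 z.2} ≤
      C * (Nat.card ((Fin e → W) × (Fin k → H)) * Nat.card (Fin n → Fin n → F)) := by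
  classical
  obtain ⟨C, hC⟩ := badx2 hCOM u s e k hs hu hk
  refine ⟨2 * C, ?_⟩
  intro F _ _ W H hW hH n b
  have hwt : ∀ i, 1 ≤ wE u s e k (s ^ 2 + s + 2) i := by
    intro i
    unfold wE
    split_ifs <;> omega
  have hWf : Module.Finite F W := by rw [hW]; exact PW_finite _ hwt _
  have hHf : Module.Finite F H := by rw [hH]; exact PW_finite _ hwt _
  have fW := finite_sub W
  have fH := finite_sub H
  have key := hC F W H hW hH n b
  set T := 2 ^ (s + e - u) * 3 ^ u * (3 * (s ^ 2 + s + 2) ^ 2) ^ k with hT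
  let Ω := ((Fin e → W) × (Fin k → H)) × (Fin n → Fin n → F)
  let P1 : (Fin s → Fin (s + e + k) → F) → Ω → Prop := fun A z => Set.range A ⊆ VV z.1 ∧
        T < Set.ncard {y : Fin (s + e + k) → F | y ∈ VV z.1 ∧
          ∀ i, bil (fun l => (b l : MvPolynomial (Fin (s + e + k)) F)) z.2 (A i) y = 0}
  let P2 : (Fin s → Fin (s + e + k) → F) → Ω → Prop := fun A z => Set.range A ⊆ VV z.1 ∧
        T < Set.ncard {y : Fin (s + e + k) → F | y ∈ VV z.1 ∧
          ∀ i, bil (fun l => (b l : MvPolynomial (Fin (s + e + k)) F)) z.2 y (A i) = 0}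
  have h1 : ∀ A, Ind W A → Fintype.card F ^ (s ^ 2 + 2 + s * (e + k)) *
      Nat.card {z : Ω // P1 A z} ≤
      C * (Nat.card ((Fin e → W) × (Fin k → H)) * Nat.card (Fin n → Fin n → F)) :=
    fun A hA => key A hA
  have h2 : ∀ A, Ind W A → Fintype.card F ^ (s ^ 2 + 2 + s * (e + k)) *
      Nat.card {z : Ω // P2 A z} ≤
      C * (Nat.card ((Fin e → W) × (Fin k → H)) * Nat.card (Fin n → Fin n → F)) := by
    intro A hA
    refine le_trans (le_of_eq ?_) (key A hA)
    congr 1
    refine Nat.card_congr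
      { toFun := fun z => ⟨(z.1.1, fun l m => z.1.2 m l), z.2.1, ?_⟩
        invFun := fun z => ⟨(z.1.1, fun l m => z.1.2 m l), z.2.1, ?_⟩
        left_inv := fun z => rfl
        right_inv := fun z => rfl }
    · have h3 := z.2.2
      simp only [bil_swap]
      exact h3
    · have h3 := z.2.2
      show T < Set.ncard {y : Fin (s + e + k) → F | y ∈ VV z.1.1 ∧
          ∀ i, bil (fun l => (b l : MvPolynomial (Fin (s + e + k)) F))
            (fun l m => z.1.2 m l) y (A i) = 0}
      simp only [bil_swap]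
      exact h3
  have h5 : Nat.card {z : Ω // Bad (s := s) T b z.1 z.2} ≤
      ∑ A : Fin s → Fin (s + e + k) → F, (if Ind W A then
        Nat.card {z : Ω // P1 A z} + Nat.card {z : Ω // P2 A z} else 0) := by
    have hsub : {z : Ω | Bad (s := s) T b z.1 z.2} ⊆
        ⋃ A ∈ (Finset.univ : Finset (Fin s → Fin (s + e + k) → F)).filter (fun A => Ind W A),
          ({z : Ω | P1 A z} ∪ {z : Ω | P2 A z}) := by
      rintro z ⟨A, hA, h3, h4⟩
      rw [Set.mem_iUnion₂]
      refine ⟨A, Finset.mem_filter.2 ⟨Finset.mem_univ _, hA⟩, ?_⟩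
      rcases h4 with h4 | h4
      · exact Or.inl ⟨h3, h4⟩
      · exact Or.inr ⟨h3, h4⟩
    have h6 := Set.ncard_le_ncard hsub (Set.toFinite _)
    have h7 : Nat.card {z : Ω // Bad (s := s) T b z.1 z.2} =
        Set.ncard {z : Ω | Bad (s := s) T b z.1 z.2} := rfl
    rw [h7]
    refine h6.trans ?_
    refine (Finset.set_ncard_biUnion_le _ _).trans ?_
    rw [Finset.sum_filter]
    refine Finset.sum_le_sum fun A _ => ?_
    split_ifs
    · exact Set.ncard_union_le _ _
    · exact le_rfl
  have hcardA : Fintype.card (Fin s → Fin (s + e + k) → F) =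
      Fintype.card F ^ (s ^ 2 + s * (e + k)) := by
    rw [Fintype.card_fun, Fintype.card_fun, Fintype.card_fin, Fintype.card_fin, ← pow_mul]
    congr 1
    ring
  have hq : 0 < Fintype.card F := Fintype.card_pos
  have hpos : 0 < Fintype.card F ^ (s ^ 2 + s * (e + k)) := Nat.pow_pos hq
  refine Nat.le_of_mul_le_mul_left ?_ hpos
  calc Fintype.card F ^ (s ^ 2 + s * (e + k)) * (Fintype.card F ^ 2 *
        Nat.card {z : Ω // Bad (s := s) T b z.1 z.2})
      = Fintype.card F ^ (s ^ 2 + 2 + s * (e + k)) *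
        Nat.card {z : Ω // Bad (s := s) T b z.1 z.2} := by
        rw [← mul_assoc, ← pow_add]
        congr 2
        ring
    _ ≤ Fintype.card F ^ (s ^ 2 + 2 + s * (e + k)) *
        ∑ A : Fin s → Fin (s + e + k) → F, (if Ind W A then
        Nat.card {z : Ω // P1 A z} + Nat.card {z : Ω // P2 A z} else 0) :=
        Nat.mul_le_mul_left _ h5
    _ = ∑ A : Fin s → Fin (s + e + k) → F, Fintype.card F ^ (s ^ 2 + 2 + s * (e + k)) *
        (if Ind W A then Nat.card {z : Ω // P1 A z} + Nat.card {z : Ω // P2 A z} else 0) :=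
        Finset.mul_sum _ _ _
    _ ≤ ∑ A : Fin s → Fin (s + e + k) → F, 2 * C *
        (Nat.card ((Fin e → W) × (Fin k → H)) * Nat.card (Fin n → Fin n → F)) := by
        refine Finset.sum_le_sum fun A _ => ?_
        split_ifs with hA
        · have h8 := h1 A hA
          have h9 := h2 A hA
          rw [mul_add]
          calc _ ≤ C * (Nat.card ((Fin e → W) × (Fin k → H)) * Nat.card (Fin n → Fin n → F)) +
                C * (Nat.card ((Fin e → W) × (Fin k → H)) * Nat.card (Fin n → Fin n → F)) :=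
                Nat.add_le_add h8 h9
            _ = _ := by ring
        · rw [mul_zero]
          exact Nat.zero_le _
    _ = Fintype.card F ^ (s ^ 2 + s * (e + k)) * (2 * C *
        (Nat.card ((Fin e → W) × (Fin k → H)) * Nat.card (Fin n → Fin n → F))) := by
        rw [Finset.sum_const, Finset.card_univ, hcardA, smul_eq_mul]

theorem ALG2 (hCOM : S_COM2) (hCIRC : S_CIRC2) (hFM : S_FM) (hCLEAN : S_CLEAN) (hKST : S_KST) :
    S_ALG2 := by
  classical
  intro u s e k r t hs hr hu hgood hk hT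
  obtain ⟨C₁, hC₁⟩ := bad_card2 hCOM u s e k (by omega) hu hk
  have hcirc : ∀ j : Fin (s + 1), ∃ C : ℕ,
      ∀ (F : Type) [Field F] [Fintype F] (W : Submodule F (MvPolynomial (Fin (s + e + k)) F)),
      1 ∈ W → (∀ a, X a ∈ W) → (∀ a b, X a * X b ∈ W) →
      (∀ a b c : Fin (s + e + k), (a : ℕ) < u → (b : ℕ) < u → (c : ℕ) < u →
        X a * X b * X c ∈ W) →
      Nat.card {A : Fin (j : ℕ) → Fin (s + e + k) → F // Circ W A} * Fintype.card F ^ 2 ≤
        C * Fintype.card F ^ (((j : ℕ) - 1) * (e + k) + s) := fun j =>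
    hCIRC u s e k r j hr hu hgood (by omega)
  choose C₂ hC₂ using hcirc
  obtain ⟨q₀, hq₀⟩ := hFM s (e + k) (max C₁ (∑ j, C₂ j)) hs
  refine ⟨q₀, ?_⟩
  intro p hp hpp
  have : Fact p.Prime := ⟨hpp⟩
  set T := 2 ^ (s + e - u) * 3 ^ u * (3 * (s ^ 2 + s + 2) ^ 2) ^ k with hTdef
  let F := ZMod p
  have hcF : Fintype.card F = p := ZMod.card p
  set D := s ^ 2 + s + 2 with hD
  let wt := wE u s e k D
  have hwt : ∀ i, 1 ≤ wt i := by
    intro i
    exact wE_pos u s e k D (by omega) i
  have hwt2 : ∀ i, wt i ≤ 3 * D := fun i => wE_le u s e k D (by omega) i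
  let W := PW F wt (6 * D)
  let H := PW F wt (3 * D ^ 2)
  have hWf : Module.Finite F W := PW_finite _ hwt _
  have hHf : Module.Finite F H := PW_finite _ hwt _
  have fW : Finite W := finite_sub W
  have fH : Finite H := finite_sub H
  have hWH : W ≤ H := by
    refine PW_mono ?_
    rw [hD]
    nlinarith [Nat.zero_le (s ^ 2 + s)]
  have h1W : 1 ∈ W := one_mem_PW _ _
  have hXW : ∀ a, X a ∈ W := fun a => X_mem_PW _ _ a (by have := hwt2 a; omega)
  have hXXW : ∀ a b, X a * X b ∈ W := fun a b => XX_mem_PW _ _ a b (by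
    have := hwt2 a
    have := hwt2 b
    omega)
  have hXXXW : ∀ a b c : Fin (s + e + k), (a : ℕ) < u → (b : ℕ) < u → (c : ℕ) < u →
      X a * X b * X c ∈ W := fun a b c ha hb hc => XXX_mem_PW2 _ _ a b c (by
    have h1 : wt a = 2 * D := if_pos ha
    have h2 : wt b = 2 * D := if_pos hb
    have h3 : wt c = 2 * D := if_pos hc
    omega)
  let n := Module.finrank F W
  let b : Module.Basis (Fin n) F W := Module.finBasis F W
  let Pt := Fin (s + e + k) → F
  let Ω₁ := (Fin e → W) × (Fin k → H)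
  let Ω₂ := Fin n → Fin n → F
  let Ci := (j : Fin (s + 1)) × {A : Fin (j : ℕ) → Fin (s + e + k) → F // Circ W A}
  have i1 : Fintype Ω₁ := Fintype.ofFinite Ω₁
  let i3 : Fintype Ci := inferInstanceAs (Fintype
    ((j : Fin (s + 1)) × {A : Fin (j : ℕ) → Fin (s + e + k) → F // Circ W A}))
  have key := hq₀ p hp Pt Ω₁ Ω₂ Ci (fun z => VV z)
    (fun a x y => bil (fun l => (b l : MvPolynomial (Fin (s + e + k)) F)) a x y = 0)
    (fun c => Set.range c.2.1) (fun z a => Bad (s := s) T b z a) ?_ ?_ ?_ ?_ ?_ ?_ ?_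
  · obtain ⟨z, a, hnb, V₀, hV₀, hcl, hV₀c, hE⟩ := key
    refine hE.trans (Nat.mul_le_mul_left 4 ?_)
    have hTt : T < t := hT
    have hst : s ≤ t := by
      have h1 : s < 2 ^ s := Nat.lt_two_pow_self
      have h2 : 2 ^ s ≤ 2 ^ (s + e) := Nat.pow_le_pow_right (by norm_num) (by omega)
      have h3 : 2 ^ (s + e) ≤ T := by
        rw [hTdef]
        have h4 : 2 ^ (s + e) ≤ 2 ^ (s + e - u) * 3 ^ u := by
          calc 2 ^ (s + e) = 2 ^ (s + e - u) * 2 ^ u := by
                rw [← pow_add]; congr 1; omega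
            _ ≤ _ := Nat.mul_le_mul_left _ (Nat.pow_le_pow_left (by norm_num) u)
        exact h4.trans (Nat.le_mul_of_pos_right _ (Nat.pow_pos (by positivity)))
      omega
    refine hKST s t (4 * p ^ s) Pt V₀
      (fun x y => bil (fun l => (b l : MvPolynomial (Fin (s + e + k)) F)) a x y = 0)
      (by omega) hst (Set.toFinite _) (by omega) ?_
    intro A hAinj hAV
    have hInd : Ind W A := by
      refine hCLEAN F (s + e + k) s W V₀ ?_ A hAinj hAV
      intro j hj A' hA' hr
      exact hcl ⟨⟨j, by omega⟩, ⟨A', hA'⟩⟩ hr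
    have hnb' : ¬ (T < Set.ncard {y : Fin (s + e + k) → F | y ∈ VV z ∧
        ∀ i, bil (fun l => (b l : MvPolynomial (Fin (s + e + k)) F)) a (A i) y = 0} ∨
        T < Set.ncard {y : Fin (s + e + k) → F | y ∈ VV z ∧
        ∀ i, bil (fun l => (b l : MvPolynomial (Fin (s + e + k)) F)) a y (A i) = 0}) :=
      fun h => hnb ⟨A, hInd, hAV.trans hV₀, h⟩
    push Not at hnb'
    refine ⟨lt_of_le_of_lt (le_trans ?_ hnb'.1) hTt, lt_of_le_of_lt (le_trans ?_ hnb'.2) hTt⟩
    · refine Set.ncard_le_ncard ?_ (Set.toFinite _)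
      rintro y ⟨h1, h2⟩
      exact ⟨hV₀ h1, h2⟩
    · refine Set.ncard_le_ncard ?_ (Set.toFinite _)
      rintro y ⟨h1, h2⟩
      exact ⟨hV₀ h1, h2⟩
  · show Fintype.card (Fin (s + e + k) → F) = _
    rw [Fintype.card_fun, Fintype.card_fin, hcF]
    congr 1
    ring
  · intro x
    have h1 := card_pair (e := e) (k := k) (ind_one (ι := Unit) h1W (fun _ => x)) hWH
    rw [Fintype.card_unit, one_mul, hcF, Nat.card_eq_fintype_card (α := Ω₁)] at h1
    rw [← h1]
    congr 1
    refine Nat.card_congr (Equiv.subtypeEquivRight fun z => ?_)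
    exact ⟨fun h _ => h, fun h => h ()⟩
  · intro x y hxy
    have h1 := card_pair (e := e) (k := k) (ind_two h1W hXW hxy) hWH
    rw [Fintype.card_fin, hcF, Nat.card_eq_fintype_card (α := Ω₁)] at h1
    rw [← h1]
    congr 1
    refine Nat.card_congr (Equiv.subtypeEquivRight fun z => ?_)
    constructor
    · rintro ⟨h2, h3⟩ i
      fin_cases i
      · exact h2
      · exact h3
    · intro h
      exact ⟨h 0, h 1⟩
  · intro x y
    have h1 := card_lin (bilL (fun l => (b l : MvPolynomial (Fin (s + e + k)) F)) x y)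
      (bilL_surj h1W b x y)
    rw [hcF, Nat.card_eq_fintype_card (α := Ω₂)] at h1
    exact h1
  · rintro ⟨j, A, hA⟩
    rcases Nat.eq_zero_or_pos (j : ℕ) with hj | hj
    · exfalso
      apply hA.2.1
      intro v
      refine ⟨0, ?_⟩
      funext i
      exact absurd i.2 (by omega)
    · exact ⟨A ⟨0, hj⟩, ⟨⟨0, hj⟩, rfl⟩⟩
  · have hq : 0 < Fintype.card F := Fintype.card_pos
    have h2 : ∀ j : Fin (s + 1), p ^ 2 * ∑ A : {A : Fin (j : ℕ) → Fin (s + e + k) → F // Circ W A},
        Nat.card {z : Ω₁ // Set.range A.1 ⊆ VV z} ≤ C₂ j * p ^ s * Fintype.card Ω₁ := by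
      intro j
      have h3 := hC₂ j F W h1W hXW hXXW hXXXW
      have h4 : Fintype.card F ^ (((j : ℕ) - 1) * (e + k)) *
          ∑ A : {A : Fin (j : ℕ) → Fin (s + e + k) → F // Circ W A},
          Nat.card {z : Ω₁ // Set.range A.1 ⊆ VV z} ≤
          Nat.card {A : Fin (j : ℕ) → Fin (s + e + k) → F // Circ W A} * Nat.card Ω₁ := by
        rw [Finset.mul_sum]
        refine (Finset.sum_le_sum fun A _ => card_circ (e := e) (k := k) hWH A.2).trans ?_
        rw [Finset.sum_const, Finset.card_univ, smul_eq_mul, Nat.card_eq_fintype_card (α :=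
          {A : Fin (j : ℕ) → Fin (s + e + k) → F // Circ W A})]
      have hpos : 0 < Fintype.card F ^ (((j : ℕ) - 1) * (e + k)) := Nat.pow_pos hq
      refine Nat.le_of_mul_le_mul_left ?_ hpos
      rw [hcF] at h3 h4 ⊢
      rw [Nat.card_eq_fintype_card (α := Ω₁)] at h4
      calc _ = p ^ 2 * (p ^ (((j : ℕ) - 1) * (e + k)) *
            ∑ A : {A : Fin (j : ℕ) → Fin (s + e + k) → F // Circ W A},
            Nat.card {z : Ω₁ // Set.range A.1 ⊆ VV z}) := by ring
        _ ≤ p ^ 2 * (Nat.card {A : Fin (j : ℕ) → Fin (s + e + k) → F // Circ W A} *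
            Fintype.card Ω₁) := Nat.mul_le_mul_left _ h4
        _ = (Nat.card {A : Fin (j : ℕ) → Fin (s + e + k) → F // Circ W A} * p ^ 2) *
            Fintype.card Ω₁ := by ring
        _ ≤ (C₂ j * p ^ (((j : ℕ) - 1) * (e + k) + s)) * Fintype.card Ω₁ :=
            Nat.mul_le_mul_right _ h3
        _ = _ := by rw [pow_add]; ring
    have h5 : ∑ c : Ci, Nat.card {z : Ω₁ // Set.range c.2.1 ⊆ VV z} =
        ∑ j : Fin (s + 1), ∑ A : {A : Fin (j : ℕ) → Fin (s + e + k) → F // Circ W A},
          Nat.card {z : Ω₁ // Set.range A.1 ⊆ VV z} := by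
      exact Fintype.sum_sigma (ι := Fin (s + 1)) (α := fun j : Fin (s + 1) =>
        {A : Fin (j : ℕ) → Fin (s + e + k) → F // Circ W A})
        (fun c => Nat.card {z : Ω₁ // Set.range c.2.1 ⊆ VV z})
    rw [h5, Finset.mul_sum]
    calc _ ≤ ∑ j : Fin (s + 1), C₂ j * p ^ s * Fintype.card Ω₁ :=
          Finset.sum_le_sum fun j _ => h2 j
      _ = (∑ j : Fin (s + 1), C₂ j) * p ^ s * Fintype.card Ω₁ := by
          rw [Finset.sum_mul, Finset.sum_mul]
      _ ≤ _ := by
          gcongr
          exact le_max_right _ _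
  · have h1 := hC₁ F W H rfl rfl n b
    rw [hcF, Nat.card_eq_fintype_card (α := (Fin e → W) × (Fin k → H)),
      Nat.card_eq_fintype_card (α := Fin n → Fin n → F), ← mul_assoc] at h1
    refine h1.trans ?_
    gcongr
    exact le_max_left _ _

end Pool.Agent.H99.KC
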