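import Pool.Agent.H20.AC.Alg
import Pool.Agent.H99.KC.AL2

/-!
Project KC: the graphs with windows (adapted from the modules Win, Alg of helper20's project AC).
-/

set_option autoImplicit false

open MvPolynomial

namespace Pool.Agent.H99.KC

open Pool.Agent.N684.BK Pool.Agent.H20.AC

/-- the pattern `α` is not worse than the pattern `0` -/
theorem badxW (hCOM : S_COM2) (u s e k : ℕ) (hs : 1 ≤ s) (hu : u ≤ s + e)
    (hk : 2 * (s ^ 2 + 2 + k + k * s) ≤ k * (k + 3) * (k + 2)) :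
    ∃ C : ℕ, ∀ (F : Type) [Field F] [Fintype F]
    (W H : Submodule F (MvPolynomial (Fin (s + e + k)) F)),
    W = PW F (wE u s e k (s ^ 2 + s + 2)) (6 * (s ^ 2 + s + 2)) →
    H = PW F (wE u s e k (s ^ 2 + s + 2)) (3 * (s ^ 2 + s + 2) ^ 2) →
    ∀ (n : ℕ) (b : Module.Basis (Fin n) F W) (A : Fin s → Fin (s + e + k) → F), Ind W A →
    ∀ α : Fin s → F,
    Fintype.card F ^ (s ^ 2 + 2 + s * (e + k)) * Nat.card
      {z : ((Fin e → W) × (Fin k → H)) × (Fin n → Fin n → F) // Set.range A ⊆ VV z.1 ∧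
        2 ^ (s + e - u) * 3 ^ u * (3 * (s ^ 2 + s + 2) ^ 2) ^ k < Set.ncard {y : Fin (s + e + k) → F |
          y ∈ VV z.1 ∧
          ∀ i, bil (fun l => (b l : MvPolynomial (Fin (s + e + k)) F)) z.2 (A i) y = α i}} ≤
      C * (Nat.card ((Fin e → W) × (Fin k → H)) * Nat.card (Fin n → Fin n → F)) := by
  obtain ⟨C, hC⟩ := badx2 hCOM u s e k hs hu hk
  refine ⟨C, ?_⟩
  intro F _ _ W H hW hH n b A hA α
  refine le_trans (Nat.mul_le_mul_left _ (le_of_eq ?_)) (hC F W H hW hH n b A hA)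
  have h1W : (1 : MvPolynomial (Fin (s + e + k)) F) ∈ W := by rw [hW]; exact one_mem_PW _ _
  obtain ⟨δ, hδ⟩ := gm_surj b hA (fun i => α i • ⟨1, h1W⟩)
  have hδ' : ∀ (i : Fin s) (y : Fin (s + e + k) → F),
      bil (fun l => (b l : MvPolynomial (Fin (s + e + k)) F)) δ (A i) y = α i := by
    intro i y
    rw [← eval_gm b A δ i y, hδ]
    show eval y ((α i • (⟨1, h1W⟩ : W) : W) : MvPolynomial (Fin (s + e + k)) F) = α i
    rw [Submodule.coe_smul, smul_eval, map_one, mul_one]
  have hset : ∀ (z : ((Fin e → W) × (Fin k → H))) (a : Fin n → Fin n → F),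
      {y : Fin (s + e + k) → F | y ∈ VV z ∧
        ∀ i, bil (fun l => (b l : MvPolynomial (Fin (s + e + k)) F)) (a + δ) (A i) y = α i} =
      {y : Fin (s + e + k) → F | y ∈ VV z ∧
        ∀ i, bil (fun l => (b l : MvPolynomial (Fin (s + e + k)) F)) a (A i) y = 0} := by
    intro z a
    ext y
    simp only [Set.mem_ofPred_eq]
    refine and_congr_right fun _ => forall_congr' fun i => ?_
    rw [bil_add, hδ' i y]
    constructor
    · intro h
      have := congrArg (fun u => u - α i) h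
      simpa using this
    · intro h
      rw [h, zero_add]
  refine Nat.card_congr
    { toFun := fun z => ⟨(z.1.1, z.1.2 - δ), z.2.1, ?_⟩
      invFun := fun z => ⟨(z.1.1, z.1.2 + δ), z.2.1, ?_⟩
      left_inv := fun z => Subtype.ext (Prod.ext rfl (sub_add_cancel _ _))
      right_inv := fun z => Subtype.ext (Prod.ext rfl (add_sub_cancel_right _ _)) }
  · have h := z.2.2
    have h2 := hset z.1.1 (z.1.2 - δ)
    rw [sub_add_cancel] at h2
    rw [h2] at h
    exact h
  · have h := z.2.2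
    rw [← hset z.1.1 z.1.2] at h
    exact h

theorem bad_cardW (hCOM : S_COM2) (u s e k h : ℕ) (hs : 1 ≤ s) (hu : u ≤ s + e)
    (hk : 2 * (s ^ 2 + 2 + k + k * s) ≤ k * (k + 3) * (k + 2)) :
    ∃ C : ℕ, ∀ (F : Type) [Field F] [Fintype F] (S : Finset F), S.card = h → 
    ∀ (W H : Submodule F (MvPolynomial (Fin (s + e + k)) F)),
    W = PW F (wE u s e k (s ^ 2 + s + 2)) (6 * (s ^ 2 + s + 2)) →
    H = PW F (wE u s e k (s ^ 2 + s + 2)) (3 * (s ^ 2 + s + 2) ^ 2) →
    ∀ (n : ℕ) (b : Module.Basis (Fin n) F W),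
    Fintype.card F ^ 2 * Nat.card
      {z : ((Fin e → W) × (Fin k → H)) × (Fin n → Fin n → F) //
        Bad' (s := s) (2 ^ (s + e - u) * 3 ^ u * (3 * (s ^ 2 + s + 2) ^ 2) ^ k) S b z.1 z.2} ≤
      C * (Nat.card ((Fin e → W) × (Fin k → H)) * Nat.card (Fin n → Fin n → F)) := by
  classical
  obtain ⟨C, hC⟩ := badxW hCOM u s e k hs hu hk
  refine ⟨2 * C * h ^ s, ?_⟩
  intro F _ _ S hS W H hW hH n b
  have hwt : ∀ i, 1 ≤ wE u s e k (s ^ 2 + s + 2) i := by
    intro i
    unfold wE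
    split_ifs <;> omega
  have hWf : Module.Finite F W := by rw [hW]; exact PW_finite _ hwt _
  have hHf : Module.Finite F H := by rw [hH]; exact PW_finite _ hwt _
  have fW := finite_sub W
  have fH := finite_sub H
  have key := hC F W H hW hH n b
  set T := 2 ^ (s + e - u) * 3 ^ u * (3 * (s ^ 2 + s + 2) ^ 2) ^ k with hT
  let Ω := ((Fin e → W) × (Fin k → H)) × (Fin n → Fin n → F)
  let P1 : (Fin s → Fin (s + e + k) → F) → (Fin s → F) → Ω → Prop := fun A α z =>
      Set.range A ⊆ VV z.1 ∧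
        T < Set.ncard {y : Fin (s + e + k) → F | y ∈ VV z.1 ∧
          ∀ i, bil (fun l => (b l : MvPolynomial (Fin (s + e + k)) F)) z.2 (A i) y = α i}
  let P2 : (Fin s → Fin (s + e + k) → F) → (Fin s → F) → Ω → Prop := fun A α z =>
      Set.range A ⊆ VV z.1 ∧
        T < Set.ncard {y : Fin (s + e + k) → F | y ∈ VV z.1 ∧
          ∀ i, bil (fun l => (b l : MvPolynomial (Fin (s + e + k)) F)) z.2 y (A i) = α i}
  have h1 : ∀ A, Ind W A → ∀ α, Fintype.card F ^ (s ^ 2 + 2 + s * (e + k)) *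
      Nat.card {z : Ω // P1 A α z} ≤
      C * (Nat.card ((Fin e → W) × (Fin k → H)) * Nat.card (Fin n → Fin n → F)) :=
    fun A hA α => key A hA α
  have h2 : ∀ A, Ind W A → ∀ α, Fintype.card F ^ (s ^ 2 + 2 + s * (e + k)) *
      Nat.card {z : Ω // P2 A α z} ≤
      C * (Nat.card ((Fin e → W) × (Fin k → H)) * Nat.card (Fin n → Fin n → F)) := by
    intro A hA α
    refine le_trans (le_of_eq ?_) (key A hA α)
    congr 1
    refine Nat.card_congr
      { toFun := fun z => ⟨(z.1.1, fun l m => z.1.2 m l), z.2.1, ?_⟩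
        invFun := fun z => ⟨(z.1.1, fun l m => z.1.2 m l), z.2.1, ?_⟩
        left_inv := fun z => rfl
        right_inv := fun z => rfl }
    · have h3 := z.2.2
      simp only [bil_swap]
      exact h3
    · have h3 := z.2.2
      show T < Set.ncard {y : Fin (s + e + k) → F | y ∈ VV z.1.1 ∧
          ∀ i, bil (fun l => (b l : MvPolynomial (Fin (s + e + k)) F))
            (fun l m => z.1.2 m l) y (A i) = α i}
      simp only [bil_swap]
      exact h3
  let Pat : Finset (Fin s → F) := Fintype.piFinset fun _ => S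
  have hPat : Pat.card = h ^ s := by
    show (Fintype.piFinset fun _ : Fin s => S).card = h ^ s
    rw [Fintype.card_piFinset_const, hS]
  let X : Finset ((Fin s → Fin (s + e + k) → F) × (Fin s → F)) :=
    (Finset.univ.filter (fun A => Ind W A)) ×ˢ Pat
  have h5 : Nat.card {z : Ω // Bad' (s := s) T S b z.1 z.2} ≤
      ∑ x ∈ X, (Nat.card {z : Ω // P1 x.1 x.2 z} + Nat.card {z : Ω // P2 x.1 x.2 z}) := by
    have hsub : {z : Ω | Bad' (s := s) T S b z.1 z.2} ⊆
        ⋃ x ∈ X, ({z : Ω | P1 x.1 x.2 z} ∪ {z : Ω | P2 x.1 x.2 z}) := by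
      rintro z ⟨A, hA, h3, α, hα, h4⟩
      rw [Set.mem_iUnion₂]
      refine ⟨(A, α), Finset.mem_product.2 ⟨Finset.mem_filter.2 ⟨Finset.mem_univ _, hA⟩,
        Fintype.mem_piFinset.2 hα⟩, ?_⟩
      rcases h4 with h4 | h4
      · exact Or.inl ⟨h3, h4⟩
      · exact Or.inr ⟨h3, h4⟩
    have h6 := Set.ncard_le_ncard hsub (Set.toFinite _)
    have h7 : Nat.card {z : Ω // Bad' (s := s) T S b z.1 z.2} =
        Set.ncard {z : Ω | Bad' (s := s) T S b z.1 z.2} := rfl
    rw [h7]
    refine h6.trans ?_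
    refine (Finset.set_ncard_biUnion_le _ _).trans ?_
    exact Finset.sum_le_sum fun A _ => Set.ncard_union_le _ _
  have hcardA : Fintype.card (Fin s → Fin (s + e + k) → F) =
      Fintype.card F ^ (s ^ 2 + s * (e + k)) := by
    rw [Fintype.card_fun, Fintype.card_fun, Fintype.card_fin, Fintype.card_fin, ← pow_mul]
    congr 1
    ring
  have hcardX : X.card ≤ Fintype.card F ^ (s ^ 2 + s * (e + k)) * h ^ s := by
    show ((Finset.univ.filter (fun A => Ind W A)) ×ˢ Pat).card ≤ _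
    rw [Finset.card_product, hPat, ← hcardA]
    exact Nat.mul_le_mul_right _ (Finset.card_le_univ _)
  have hq : 0 < Fintype.card F := Fintype.card_pos
  have hpos : 0 < Fintype.card F ^ (s ^ 2 + s * (e + k)) := Nat.pow_pos hq
  refine Nat.le_of_mul_le_mul_left ?_ hpos
  calc Fintype.card F ^ (s ^ 2 + s * (e + k)) * (Fintype.card F ^ 2 *
        Nat.card {z : Ω // Bad' (s := s) T S b z.1 z.2})
      = Fintype.card F ^ (s ^ 2 + 2 + s * (e + k)) *
        Nat.card {z : Ω // Bad' (s := s) T S b z.1 z.2} := by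
        rw [← mul_assoc, ← pow_add]
        congr 2
        ring
    _ ≤ Fintype.card F ^ (s ^ 2 + 2 + s * (e + k)) *
        ∑ x ∈ X, (Nat.card {z : Ω // P1 x.1 x.2 z} + Nat.card {z : Ω // P2 x.1 x.2 z}) :=
        Nat.mul_le_mul_left _ h5
    _ = ∑ x ∈ X, Fintype.card F ^ (s ^ 2 + 2 + s * (e + k)) *
        (Nat.card {z : Ω // P1 x.1 x.2 z} + Nat.card {z : Ω // P2 x.1 x.2 z}) :=
        Finset.mul_sum _ _ _
    _ ≤ ∑ x ∈ X, 2 * C *
        (Nat.card ((Fin e → W) × (Fin k → H)) * Nat.card (Fin n → Fin n → F)) := by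
        refine Finset.sum_le_sum fun x hx => ?_
        have hA := (Finset.mem_filter.1 (Finset.mem_product.1 hx).1).2
        have h8 := h1 x.1 hA x.2
        have h9 := h2 x.1 hA x.2
        rw [mul_add]
        calc _ ≤ C * (Nat.card ((Fin e → W) × (Fin k → H)) * Nat.card (Fin n → Fin n → F)) +
              C * (Nat.card ((Fin e → W) × (Fin k → H)) * Nat.card (Fin n → Fin n → F)) :=
              Nat.add_le_add h8 h9
          _ = _ := by ring
    _ = X.card * (2 * C *
        (Nat.card ((Fin e → W) × (Fin k → H)) * Nat.card (Fin n → Fin n → F))) := by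
        rw [Finset.sum_const, smul_eq_mul]
    _ ≤ (Fintype.card F ^ (s ^ 2 + s * (e + k)) * h ^ s) * (2 * C *
        (Nat.card ((Fin e → W) × (Fin k → H)) * Nat.card (Fin n → Fin n → F))) :=
        Nat.mul_le_mul_right _ hcardX
    _ = Fintype.card F ^ (s ^ 2 + s * (e + k)) * (2 * C * h ^ s *
        (Nat.card ((Fin e → W) × (Fin k → H)) * Nat.card (Fin n → Fin n → F))) := by
        ring

theorem ALGW (hCOM : S_COM2) (hCIRC : S_CIRC2) (hCLEAN : S_CLEAN) (hKST : S_KST)
    (u s e k r h t : ℕ) (hs : 2 ≤ s) (hr : 1 ≤ r) (hu : u ≤ s + e) (hgood : Good u s e k r)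
    (hk : 2 * (s ^ 2 + 2 + k + k * s) ≤ k * (k + 3) * (k + 2)) (hh : 1 ≤ h)
    (hT : h ^ s * (2 ^ (s + e - u) * 3 ^ u * (3 * (s ^ 2 + s + 2) ^ 2) ^ k) < t) : ∃ p₀ : ℕ, ∀ p : ℕ, p₀ ≤ p →
    p.Prime → h * p ^ (2 * s - 1) ≤ 4 * SimpleGraph.extremalNumber (4 * p ^ s)
      (completeBipartiteGraph (Fin s) (Fin t)) := by
  classical
  obtain ⟨C₁, hC₁⟩ := bad_cardW hCOM u s e k h (by omega) hu hk
  have hcirc : ∀ j : Fin (s + 1), ∃ C : ℕ,
      ∀ (F : Type) [Field F] [Fintype F] (W : Submodule F (MvPolynomial (Fin (s + e + k)) F)),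
      1 ∈ W → (∀ a, X a ∈ W) → (∀ a b, X a * X b ∈ W) →
      (∀ a b c : Fin (s + e + k), (a : ℕ) < u → (b : ℕ) < u → (c : ℕ) < u →
        X a * X b * X c ∈ W) →
      Nat.card {A : Fin (j : ℕ) → Fin (s + e + k) → F // Circ W A} * Fintype.card F ^ 2 ≤
        C * Fintype.card F ^ (((j : ℕ) - 1) * (e + k) + s) := fun j =>
    hCIRC u s e k r j hr hu hgood (by omega)
  choose C₂ hC₂ using hcirc
  obtain ⟨q₀, hq₀⟩ := FMh.FM s (e + k) (max C₁ (∑ j, C₂ j)) h hs hh
  refine ⟨max q₀ h, ?_⟩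
  intro p hp hpp
  have : Fact p.Prime := ⟨hpp⟩
  set T := 2 ^ (s + e - u) * 3 ^ u * (3 * (s ^ 2 + s + 2) ^ 2) ^ k with hTdef
  let F := ZMod p
  have hcF : Fintype.card F = p := ZMod.card p
  have hph : h ≤ p := le_trans (le_max_right _ _) hp
  obtain ⟨S, -, hS⟩ := Finset.exists_subset_card_eq (s := (Finset.univ : Finset F)) (n := h)
    (by rw [Finset.card_univ, hcF]; exact hph)
  set D := s ^ 2 + s + 2 with hD
  let wt := wE u s e k D
  have hwt : ∀ i, 1 ≤ wt i := by
    intro i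
    exact wE_pos u s e k D (by omega) i
  have hwt2 : ∀ i, wt i ≤ 3 * D := fun i => wE_le u s e k D (by omega) i
  let W := PW F wt (6 * D)
  let H := PW F wt (3 * D ^ 2)
  have hWf : Module.Finite F W := PW_finite _ hwt _
  have hHf : Module.Finite F H := PW_finite _ hwt _
  have fW : Finite W := finite_sub W
  have fH : Finite H := finite_sub H
  have hWH : W ≤ H := by
    refine PW_mono ?_
    rw [hD]
    nlinarith [Nat.zero_le (s ^ 2 + s)]
  have h1W : 1 ∈ W := one_mem_PW _ _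
  have hXW : ∀ a, X a ∈ W := fun a => X_mem_PW _ _ a (by have := hwt2 a; omega)
  have hXXW : ∀ a b, X a * X b ∈ W := fun a b => XX_mem_PW _ _ a b (by
    have := hwt2 a
    have := hwt2 b
    omega)
  have hXXXW : ∀ a b c : Fin (s + e + k), (a : ℕ) < u → (b : ℕ) < u → (c : ℕ) < u →
      X a * X b * X c ∈ W := fun a b c ha hb hc => XXX_mem_PW2 _ _ a b c (by
    have h1 : wt a = 2 * D := if_pos ha
    have h2 : wt b = 2 * D := if_pos hb
    have h3 : wt c = 2 * D := if_pos hc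
    omega)
  let n := Module.finrank F W
  let b : Module.Basis (Fin n) F W := Module.finBasis F W
  let Pt := Fin (s + e + k) → F
  let Ω₁ := (Fin e → W) × (Fin k → H)
  let Ω₂ := Fin n → Fin n → F
  let Ci := (j : Fin (s + 1)) × {A : Fin (j : ℕ) → Fin (s + e + k) → F // Circ W A}
  have i1 : Fintype Ω₁ := Fintype.ofFinite Ω₁
  let i3 : Fintype Ci := inferInstanceAs (Fintype
    ((j : Fin (s + 1)) × {A : Fin (j : ℕ) → Fin (s + e + k) → F // Circ W A}))
  have key := hq₀ p (le_trans (le_max_left _ _) hp) Pt Ω₁ Ω₂ Ci (fun z => VV z)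
    (fun a x y => bil (fun l => (b l : MvPolynomial (Fin (s + e + k)) F)) a x y ∈ S)
    (fun c => Set.range c.2.1) (fun z a => Bad' (s := s) T S b z a) ?_ ?_ ?_ ?_ ?_ ?_ ?_
  · obtain ⟨z, a, hnb, V₀, hV₀, hcl, hV₀c, hE⟩ := key
    refine hE.trans (Nat.mul_le_mul_left 4 ?_)
    have hTt : h ^ s * T < t := hT
    have hst : s ≤ t := by
      have h1 : s < 2 ^ s := Nat.lt_two_pow_self
      have h2 : 2 ^ s ≤ 2 ^ (s + e) := Nat.pow_le_pow_right (by norm_num) (by omega)
      have h3 : 2 ^ (s + e) ≤ T := by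
        rw [hTdef]
        have h4 : 2 ^ (s + e) ≤ 2 ^ (s + e - u) * 3 ^ u := by
          calc 2 ^ (s + e) = 2 ^ (s + e - u) * 2 ^ u := by
                rw [← pow_add]; congr 1; omega
            _ ≤ _ := Nat.mul_le_mul_left _ (Nat.pow_le_pow_left (by norm_num) u)
        exact h4.trans (Nat.le_mul_of_pos_right _ (Nat.pow_pos (by positivity)))
      have h4 : T ≤ h ^ s * T := Nat.le_mul_of_pos_left _ (Nat.pow_pos (by omega))
      omega
    refine hKST s t (4 * p ^ s) Pt V₀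
      (fun x y => bil (fun l => (b l : MvPolynomial (Fin (s + e + k)) F)) a x y ∈ S)
      (by omega) hst (Set.toFinite _) (by omega) ?_
    intro A hAinj hAV
    have hInd : Ind W A := by
      refine hCLEAN F (s + e + k) s W V₀ ?_ A hAinj hAV
      intro j hj A' hA' hr
      exact hcl ⟨⟨j, by omega⟩, ⟨A', hA'⟩⟩ hr
    have hnb' : ∀ α : Fin s → F, (∀ i, α i ∈ S) → ¬ (T < Set.ncard {y : Fin (s + e + k) → F | y ∈ VV z ∧
        ∀ i, bil (fun l => (b l : MvPolynomial (Fin (s + e + k)) F)) a (A i) y = α i} ∨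
        T < Set.ncard {y : Fin (s + e + k) → F | y ∈ VV z ∧
        ∀ i, bil (fun l => (b l : MvPolynomial (Fin (s + e + k)) F)) a y (A i) = α i}) :=
      fun α hα h => hnb ⟨A, hInd, hAV.trans hV₀, α, hα, h⟩
    push Not at hnb'
    have hPat : (Fintype.piFinset fun _ : Fin s => S).card = h ^ s := by
      rw [Fintype.card_piFinset_const, hS]
    have hcount : ∀ g : (Fin (s + e + k) → F) → Fin s → F,
        (∀ α : Fin s → F, (∀ i, α i ∈ S) → Set.ncard {y : Fin (s + e + k) → F | y ∈ VV z ∧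
          ∀ i, g y i = α i} ≤ T) →
        Set.ncard {y : Fin (s + e + k) → F | y ∈ V₀ ∧ ∀ i, g y i ∈ S} < t := by
      intro g hg
      refine lt_of_le_of_lt ?_ hTt
      have hsub : {y : Fin (s + e + k) → F | y ∈ V₀ ∧ ∀ i, g y i ∈ S} ⊆
          ⋃ α ∈ (Fintype.piFinset fun _ : Fin s => S),
            {y : Fin (s + e + k) → F | y ∈ VV z ∧ ∀ i, g y i = α i} := by
        rintro y ⟨h1, h2⟩
        rw [Set.mem_iUnion₂]
        exact ⟨g y, Fintype.mem_piFinset.2 h2, hV₀ h1, fun i => rfl⟩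
      refine (Set.ncard_le_ncard hsub (Set.toFinite _)).trans ?_
      refine (Finset.set_ncard_biUnion_le _ _).trans ?_
      refine (Finset.sum_le_sum fun α hα => hg α (Fintype.mem_piFinset.1 hα)).trans ?_
      rw [Finset.sum_const, hPat, smul_eq_mul]
    exact ⟨hcount _ fun α hα => (hnb' α hα).1, hcount _ fun α hα => (hnb' α hα).2⟩
  · show Fintype.card (Fin (s + e + k) → F) = _
    rw [Fintype.card_fun, Fintype.card_fin, hcF]
    congr 1
    ring
  · intro x
    have h1 := card_pair (e := e) (k := k) (ind_one (ι := Unit) h1W (fun _ => x)) hWH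
    rw [Fintype.card_unit, one_mul, hcF, Nat.card_eq_fintype_card (α := Ω₁)] at h1
    rw [← h1]
    congr 1
    refine Nat.card_congr (Equiv.subtypeEquivRight fun z => ?_)
    exact ⟨fun h _ => h, fun h => h ()⟩
  · intro x y hxy
    have h1 := card_pair (e := e) (k := k) (ind_two h1W hXW hxy) hWH
    rw [Fintype.card_fin, hcF, Nat.card_eq_fintype_card (α := Ω₁)] at h1
    rw [← h1]
    congr 1
    refine Nat.card_congr (Equiv.subtypeEquivRight fun z => ?_)
    constructor
    · rintro ⟨h2, h3⟩ i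
      fin_cases i
      · exact h2
      · exact h3
    · intro h
      exact ⟨h 0, h 1⟩
  · intro x y
    have h1 := card_win (bilL (fun l => (b l : MvPolynomial (Fin (s + e + k)) F)) x y)
      (bilL_surj h1W b x y) S
    rw [hcF, hS, Nat.card_eq_fintype_card (α := Ω₂)] at h1
    exact h1
  · rintro ⟨j, A, hA⟩
    rcases Nat.eq_zero_or_pos (j : ℕ) with hj | hj
    · exfalso
      apply hA.2.1
      intro v
      refine ⟨0, ?_⟩
      funext i
      exact absurd i.2 (by omega)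
    · exact ⟨A ⟨0, hj⟩, ⟨⟨0, hj⟩, rfl⟩⟩
  · have hq : 0 < Fintype.card F := Fintype.card_pos
    have h2 : ∀ j : Fin (s + 1), p ^ 2 * ∑ A : {A : Fin (j : ℕ) → Fin (s + e + k) → F // Circ W A},
        Nat.card {z : Ω₁ // Set.range A.1 ⊆ VV z} ≤ C₂ j * p ^ s * Fintype.card Ω₁ := by
      intro j
      have h3 := hC₂ j F W h1W hXW hXXW hXXXW
      have h4 : Fintype.card F ^ (((j : ℕ) - 1) * (e + k)) *
          ∑ A : {A : Fin (j : ℕ) → Fin (s + e + k) → F // Circ W A},
          Nat.card {z : Ω₁ // Set.range A.1 ⊆ VV z} ≤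
          Nat.card {A : Fin (j : ℕ) → Fin (s + e + k) → F // Circ W A} * Nat.card Ω₁ := by
        rw [Finset.mul_sum]
        refine (Finset.sum_le_sum fun A _ => card_circ (e := e) (k := k) hWH A.2).trans ?_
        rw [Finset.sum_const, Finset.card_univ, smul_eq_mul, Nat.card_eq_fintype_card (α :=
          {A : Fin (j : ℕ) → Fin (s + e + k) → F // Circ W A})]
      have hpos : 0 < Fintype.card F ^ (((j : ℕ) - 1) * (e + k)) := Nat.pow_pos hq
      refine Nat.le_of_mul_le_mul_left ?_ hpos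
      rw [hcF] at h3 h4 ⊢
      rw [Nat.card_eq_fintype_card (α := Ω₁)] at h4
      calc _ = p ^ 2 * (p ^ (((j : ℕ) - 1) * (e + k)) *
            ∑ A : {A : Fin (j : ℕ) → Fin (s + e + k) → F // Circ W A},
            Nat.card {z : Ω₁ // Set.range A.1 ⊆ VV z}) := by ring
        _ ≤ p ^ 2 * (Nat.card {A : Fin (j : ℕ) → Fin (s + e + k) → F // Circ W A} *
            Fintype.card Ω₁) := Nat.mul_le_mul_left _ h4
        _ = (Nat.card {A : Fin (j : ℕ) → Fin (s + e + k) → F // Circ W A} * p ^ 2) *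
            Fintype.card Ω₁ := by ring
        _ ≤ (C₂ j * p ^ (((j : ℕ) - 1) * (e + k) + s)) * Fintype.card Ω₁ :=
            Nat.mul_le_mul_right _ h3
        _ = _ := by rw [pow_add]; ring
    have h5 : ∑ c : Ci, Nat.card {z : Ω₁ // Set.range c.2.1 ⊆ VV z} =
        ∑ j : Fin (s + 1), ∑ A : {A : Fin (j : ℕ) → Fin (s + e + k) → F // Circ W A},
          Nat.card {z : Ω₁ // Set.range A.1 ⊆ VV z} := by
      exact Fintype.sum_sigma (ι := Fin (s + 1)) (α := fun j : Fin (s + 1) =>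
        {A : Fin (j : ℕ) → Fin (s + e + k) → F // Circ W A})
        (fun c => Nat.card {z : Ω₁ // Set.range c.2.1 ⊆ VV z})
    rw [h5, Finset.mul_sum]
    calc _ ≤ ∑ j : Fin (s + 1), C₂ j * p ^ s * Fintype.card Ω₁ :=
          Finset.sum_le_sum fun j _ => h2 j
      _ = (∑ j : Fin (s + 1), C₂ j) * p ^ s * Fintype.card Ω₁ := by
          rw [Finset.sum_mul, Finset.sum_mul]
      _ ≤ _ := by
          gcongr
          exact le_max_right _ _
  · have h1 := hC₁ F S hS W H rfl rfl n b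
    rw [hcF, Nat.card_eq_fintype_card (α := (Fin e → W) × (Fin k → H)),
      Nat.card_eq_fintype_card (α := Fin n → Fin n → F), ← mul_assoc] at h1
    refine h1.trans ?_
    gcongr
    exact le_max_left _ _

end Pool.Agent.H99.KC
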