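import Pool.Agent.H99.KC.ROWS2
import Pool.Agent.H20.G.R_pool_sql_team_seeded_63374d34.N392.BK.CIRC

/-!
Project KC, part CIRC2: counting minimally dependent families, with cubic variables
(helper96, after `Pool.Agent.N392.BK.CIRC`).
-/

set_option autoImplicit false

open Finset Module MvPolynomial

namespace Pool.Agent.H99.KC

open Pool.Agent.N684.BK
open Pool.Agent.N392.BK.ROWS (Iso RR finrank_RR_le)
open Pool.Agent.N392.BK.CIRC (tr exists_rel iso_of two_mul_finrank two_le_finrank)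

section
variable {F : Type} [Field F] {j u n : ℕ}

/-- the first `u` rows -/
def CIRC2_fst (hu : u ≤ n) (A : Fin n → Fin j → F) : Fin u → Fin j → F := fun a => A (Fin.castLE hu a)

/-- the other rows -/
def CIRC2_snd (hu : u ≤ n) (A : Fin n → Fin j → F) : Fin (n - u) → Fin j → F :=
  fun a => A ⟨u + a, by omega⟩

theorem CIRC2_RR (hu : u ≤ n) (A : Fin n → Fin j → F) :
    RR A = ROWS2_R (RR (CIRC2_fst hu A)) (CIRC2_snd hu A) := by
  unfold RR ROWS2_R
  rw [← Submodule.span_union]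
  congr 1
  ext v
  simp only [Set.mem_insert_iff, Set.mem_range, Set.mem_union]
  constructor
  · rintro (h | ⟨i, hi⟩)
    · exact Or.inl (Or.inl h)
    · rcases lt_or_ge (i : ℕ) u with h | h
      · exact Or.inl (Or.inr ⟨⟨i, h⟩, hi⟩)
      · refine Or.inr ⟨⟨(i : ℕ) - u, by omega⟩, ?_⟩
        rw [← hi]
        unfold CIRC2_snd
        congr 1
        apply Fin.ext
        show u + ((i : ℕ) - u) = i
        omega
  · rintro ((h | ⟨i, hi⟩) | ⟨i, hi⟩)
    · exact Or.inl h
    · exact Or.inr ⟨_, hi⟩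
    · exact Or.inr ⟨_, hi⟩

omit [Field F] in
theorem CIRC2_inj (hu : u ≤ n) {A A' : Fin n → Fin j → F} (h1 : CIRC2_fst hu A = CIRC2_fst hu A')
    (h2 : CIRC2_snd hu A = CIRC2_snd hu A') : A = A' := by
  funext i
  rcases lt_or_ge (i : ℕ) u with h | h
  · exact congrFun h1 ⟨i, h⟩
  · have h3 := congrFun h2 ⟨(i : ℕ) - u, by omega⟩
    unfold CIRC2_snd at h3
    have e : (⟨u + ((i : ℕ) - u), by omega⟩ : Fin n) = i := by
      apply Fin.ext
      show u + ((i : ℕ) - u) = i
      omega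
    rw [← e]
    exact h3

end

open Classical in
/-- the first rows -/
noncomputable def CIRC2_T1 {F : Type} [Field F] [Fintype F] {j : ℕ} (c : Fin j → F) (u b : ℕ) :
    Finset (Fin u → Fin j → F) :=
  univ.filter fun A => (∀ t₁ t₂ t₃, ∑ i, c i * A t₁ i * A t₂ i * A t₃ i = 0) ∧ finrank F (RR A) = b + 1

open Classical in
/-- all rows -/
noncomputable def CIRC2_T {F : Type} [Field F] [Fintype F] {j : ℕ} (c : Fin j → F) (u m b d : ℕ) :
    Finset (Σ _ : Fin u → Fin j → F, Fin m → Fin j → F) :=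
  (CIRC2_T1 c u b).sigma fun A => ROWS2_S c (RR A) m (b + 1 + d)

/-- the number of all rows -/
theorem CIRC2_cardT {F : Type} [Field F] [Fintype F] {j : ℕ} (c : Fin j → F) (hc : ∀ i, c i ≠ 0)
    (u m b d : ℕ) :
    (CIRC2_T c u m b d).card * Fintype.card F ^ (d * (b + 1) + d * (d - 1) / 2 + d * (b + 1 + d)) ≤
      (CIRC2_T1 c u b).card * (2 ^ m * Fintype.card F ^ (d * j + m * (b + 1 + d))) := by
  classical
  rw [CIRC2_T, Finset.card_sigma, Finset.sum_mul]
  refine (Finset.sum_le_card_nsmul _ _ _ fun A hA => ?_).trans (le_of_eq (smul_eq_mul _ _))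
  rw [CIRC2_T1, mem_filter] at hA
  exact ROWS2_main hc (RR A) (b + 1) hA.2.2 m d

/-- **Part CIRC2.** -/
theorem CIRC2 : S_CUB → S_ROWS2 → S_CIRC2 := by
  intro hCUB _ u s e k r j hr hu hgood hj
  obtain ⟨n, hn⟩ : ∃ n, n = s + e + k := ⟨_, rfl⟩
  have hun : u ≤ n := by omega
  refine ⟨(2 ^ s) ^ (j * n + 2) + s * s * 2 ^ (j + s + n), fun F _ _ W h1 hX hXX hXXX => ?_⟩
  classical
  obtain ⟨q, hq⟩ : ∃ q, q = Fintype.card F := ⟨_, rfl⟩
  rw [← hq]
  have hq1 : 1 ≤ q := by rw [hq]; exact Fintype.card_pos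
  have hqpos : ∀ x, 0 < q ^ x := fun x => pow_pos hq1 x
  rcases le_or_gt q (2 ^ s) with hsmall | hbig
  · -- small fields
    have h2 : Nat.card {A : Fin j → Fin (s + e + k) → F // Circ W A} ≤ q ^ (j * n) := by
      refine (Nat.card_le_card_of_injective _ Subtype.val_injective).trans ?_
      rw [Nat.card_fun, Nat.card_fun, Nat.card_eq_fintype_card (α := F), ← hq,
        Nat.card_eq_fintype_card, Fintype.card_fin, Nat.card_eq_fintype_card, Fintype.card_fin,
        ← pow_mul, hn, mul_comm]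
    calc Nat.card {A : Fin j → Fin (s + e + k) → F // Circ W A} * q ^ 2
        ≤ q ^ (j * n) * q ^ 2 := Nat.mul_le_mul_right _ h2
      _ = q ^ (j * n + 2) := by rw [pow_add]
      _ ≤ (2 ^ s) ^ (j * n + 2) := Nat.pow_le_pow_left hsmall _
      _ ≤ (2 ^ s) ^ (j * n + 2) + s * s * 2 ^ (j + s + n) := Nat.le_add_right _ _
      _ ≤ _ := Nat.le_mul_of_pos_right _ (hqpos _)
  · have h2j : 2 ^ j < q := lt_of_le_of_lt (Nat.pow_le_pow_right (by norm_num) hj) hbig
    -- the individual counts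
    have hcnt : ∀ c : Fin j → F, (∀ i, c i ≠ 0) → ∀ b d, b < s → b ≤ u → 1 ≤ b + d →
        2 * (b + 1 + d) ≤ j → (CIRC2_T c u (n - u) b d).card * q ^ 2 * q ^ j ≤
          2 ^ (j + s + n) * q ^ ((j - 1) * (e + k) + s) := by
      intro c hc b d hbs hbu hbd hbd2
      have h3 := CIRC2_cardT c hc u (n - u) b d
      rw [← hq] at h3
      have h4 := hCUB F u j r b c hr hc (by rw [← hq]; exact h2j)
      rw [← hq] at h4
      have e0 : Nat.card {A : Fin u → Fin j → F //
          (∀ t₁ t₂ t₃, ∑ i, c i * A t₁ i * A t₂ i * A t₃ i = 0) ∧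
          Module.finrank F (Submodule.span F (insert 1 (Set.range A))) = b + 1} =
          (CIRC2_T1 c u b).card := by
        rw [Nat.card_eq_fintype_card, Fintype.card_subtype, CIRC2_T1]
        congr 1
      rw [e0] at h4
      have h5 := hgood j b d hbu hbd hbd2 hj
      rw [← hn] at h5
      obtain ⟨E1, hE1⟩ : ∃ E1, E1 = j * r ^ 2 + j * r + (j / r + 1) * j + b * ((j + r + j / r + r ^ 2) / 2) :=
        ⟨_, rfl⟩
      obtain ⟨E2, hE2⟩ : ∃ E2, E2 = d * (b + 1) + d * (d - 1) / 2 + d * (b + 1 + d) := ⟨_, rfl⟩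
      obtain ⟨E3, hE3⟩ : ∃ E3, E3 = d * j + (n - u) * (b + 1 + d) := ⟨_, rfl⟩
      obtain ⟨E4, hE4⟩ : ∃ E4, E4 = (b + 1) * (u - b) := ⟨_, rfl⟩
      obtain ⟨E5, hE5⟩ : ∃ E5, E5 = (j - 1) * (e + k) + s := ⟨_, rfl⟩
      rw [← hE1, ← hE2, ← hE3, ← hE4, ← hE5] at h5
      rw [← hE2, ← hE3] at h3
      rw [← hE1, ← hE4] at h4
      rw [← hE5]
      refine Nat.le_of_mul_le_mul_right ?_ (hqpos E2)
      have h6 : 2 ^ u * 2 ^ (j + b) * 2 ^ (n - u) ≤ 2 ^ (j + s + n) := by
        rw [← pow_add, ← pow_add]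
        exact Nat.pow_le_pow_right (by norm_num) (by omega)
      calc (CIRC2_T c u (n - u) b d).card * q ^ 2 * q ^ j * q ^ E2
          = (CIRC2_T c u (n - u) b d).card * q ^ E2 * (q ^ 2 * q ^ j) := by ring
        _ ≤ (CIRC2_T1 c u b).card * (2 ^ (n - u) * q ^ E3) * (q ^ 2 * q ^ j) := Nat.mul_le_mul_right _ h3
        _ ≤ (2 ^ u * (2 ^ (j + b) * q ^ E1) * q ^ E4) * (2 ^ (n - u) * q ^ E3) * (q ^ 2 * q ^ j) :=
            Nat.mul_le_mul_right _ (Nat.mul_le_mul_right _ h4)
        _ = (2 ^ u * 2 ^ (j + b) * 2 ^ (n - u)) * q ^ (j + E1 + E4 + E3 + 2) := by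
            simp only [pow_add]; ring
        _ ≤ 2 ^ (j + s + n) * q ^ (E5 + E2) :=
            Nat.mul_le_mul h6 (Nat.pow_le_pow_right hq1 h5)
        _ = 2 ^ (j + s + n) * q ^ E5 * q ^ E2 := by rw [pow_add]; ring
    -- the union bound
    let I : Finset ((Fin j → F) × ℕ × ℕ) :=
      (univ.filter fun c : Fin j → F => ∀ i, c i ≠ 0) ×ˢ
        ((Finset.range s ×ˢ Finset.range s).filter fun z =>
          z.1 ≤ u ∧ 1 ≤ z.1 + z.2 ∧ 2 * (z.1 + 1 + z.2) ≤ j)
    have hub : Nat.card {A : Fin j → Fin (s + e + k) → F // Circ W A} ≤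
        ∑ z ∈ I, (CIRC2_T z.1 u (n - u) z.2.1 z.2.2).card := by
      subst hn
      rw [Nat.card_eq_fintype_card, Fintype.card_subtype]
      refine (Finset.card_le_card_of_injOn
        (t := I.biUnion fun z => CIRC2_T z.1 u (s + e + k - u) z.2.1 z.2.2)
        (fun A => ⟨CIRC2_fst hun (tr A), CIRC2_snd hun (tr A)⟩) ?_ ?_).trans Finset.card_biUnion_le
      · intro A hA
        rw [mem_coe, mem_filter] at hA
        have hA := hA.2
        obtain ⟨c, hc, hrel⟩ := exists_rel hA
        have hiso := iso_of h1 hX hXX hrel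
        have h2 := two_le_finrank h1 hA
        have h3 := two_mul_finrank hc hiso
        have hRR := CIRC2_RR hun (tr A)
        have h4 : finrank F (RR (CIRC2_fst hun (tr A))) ≤ finrank F (RR (tr A)) := by
          rw [hRR]; exact Submodule.finrank_mono le_sup_left
        have h5 := finrank_RR_le (CIRC2_fst hun (tr A))
        have h6 : 1 ≤ finrank F (RR (CIRC2_fst hun (tr A))) := by
          have hone : (1 : Fin j → F) ∈ RR (CIRC2_fst hun (tr A)) :=
            Submodule.subset_span (Set.mem_insert _ _)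
          rw [Nat.one_le_iff_ne_zero]
          intro h0
          rw [Submodule.finrank_eq_zero.1 h0, Submodule.mem_bot] at hone
          exact one_ne_zero (congrFun hone ⟨0, by omega⟩)
        rw [mem_coe, mem_biUnion]
        refine ⟨(c, finrank F (RR (CIRC2_fst hun (tr A))) - 1,
          finrank F (RR (tr A)) - finrank F (RR (CIRC2_fst hun (tr A)))), ?_, ?_⟩
        · rw [mem_product, mem_filter, mem_filter, mem_product, mem_range, mem_range]
          refine ⟨⟨mem_univ _, hc⟩, ⟨?_, ?_⟩, ?_, ?_, ?_⟩ <;> simp only <;> omega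
        · rw [CIRC2_T, mem_sigma, CIRC2_T1, mem_filter, ROWS2_S, mem_filter]
          refine ⟨⟨mem_univ _, ?_, ?_⟩, mem_univ _, ?_, ?_⟩
          · intro t₁ t₂ t₃
            have h7 := hrel _ (hXXX (Fin.castLE hun t₁) (Fin.castLE hun t₂) (Fin.castLE hun t₃)
              t₁.2 t₂.2 t₃.2)
            rw [← h7]
            refine Finset.sum_congr rfl fun i _ => ?_
            simp only [map_mul, eval_X, CIRC2_fst, tr]
            ring
          · simp only
            omega
          · simp only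
            rw [← hRR]
            exact hiso
          · simp only
            rw [← hRR]
            omega
      · intro A _ A' _ h
        simp only [Sigma.mk.injEq, heq_eq_eq] at h
        have h2 := CIRC2_inj hun h.1 h.2
        funext i a
        exact congrFun (congrFun h2 a) i
    have hI : I.card ≤ q ^ j * (s * s) := by
      rw [Finset.card_product]
      refine Nat.mul_le_mul ?_ ?_
      · refine (Finset.card_le_univ _).trans ?_
        rw [Fintype.card_fun, Fintype.card_fin, hq]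
      · refine (Finset.card_filter_le _ _).trans ?_
        rw [Finset.card_product, Finset.card_range]
    refine Nat.le_of_mul_le_mul_right ?_ (hqpos j)
    calc Nat.card {A : Fin j → Fin (s + e + k) → F // Circ W A} * q ^ 2 * q ^ j ≤
          (∑ z ∈ I, (CIRC2_T z.1 u (n - u) z.2.1 z.2.2).card) * q ^ 2 * q ^ j :=
          Nat.mul_le_mul_right _ (Nat.mul_le_mul_right _ hub)
      _ = ∑ z ∈ I, (CIRC2_T z.1 u (n - u) z.2.1 z.2.2).card * q ^ 2 * q ^ j := by
          rw [Finset.sum_mul, Finset.sum_mul]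
      _ ≤ ∑ _z ∈ I, 2 ^ (j + s + n) * q ^ ((j - 1) * (e + k) + s) := by
          refine Finset.sum_le_sum fun z hz => ?_
          rw [mem_product, mem_filter, mem_filter, mem_product, mem_range, mem_range] at hz
          exact hcnt z.1 hz.1.2 z.2.1 z.2.2 hz.2.1.1 hz.2.2.1 hz.2.2.2.1 hz.2.2.2.2
      _ = I.card * (2 ^ (j + s + n) * q ^ ((j - 1) * (e + k) + s)) := by
          rw [Finset.sum_const, smul_eq_mul]
      _ ≤ q ^ j * (s * s) * (2 ^ (j + s + n) * q ^ ((j - 1) * (e + k) + s)) := Nat.mul_le_mul_right _ hI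
      _ = (s * s * 2 ^ (j + s + n)) * q ^ ((j - 1) * (e + k) + s) * q ^ j := by ring
      _ ≤ ((2 ^ s) ^ (j * n + 2) + s * s * 2 ^ (j + s + n)) * q ^ ((j - 1) * (e + k) + s) * q ^ j :=
          Nat.mul_le_mul_right _ (Nat.mul_le_mul_right _ (Nat.le_add_left _ _))

end Pool.Agent.H99.KC
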