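import Pool.Agent.H99.KC.CNT1A

/-! # Project KC, stub CNT1 (helper27) -/

set_option autoImplicit false

namespace Pool.Agent.H99.KC

open Module

section

variable {F : Type} [Field F] {j r : ℕ}

/-- the span of the products -/
def PP (σ : Fin r → Fin j → F) {b : ℕ} (w : Fin b → Fin j → F) : Submodule F (Fin j → F) :=
  Submodule.span F {z | ∃ l t, z = σ l * w t}

theorem PP_cons_le (σ : Fin r → Fin j → F) {b : ℕ} (v : Fin j → F) (w : Fin b → Fin j → F) :
    PP σ w ≤ PP σ (Fin.cons v w : Fin (b + 1) → Fin j → F) := by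
  unfold PP
  refine Submodule.span_mono ?_
  rintro z ⟨l, t, rfl⟩
  exact ⟨l, t.succ, by rw [Fin.cons_succ]⟩

theorem comb_mem (σ : Fin r → Fin j → F) {b : ℕ} (v : Fin j → F) (w : Fin b → Fin j → F)
    (x : Fin r → F) :
    (∑ l, x l • σ l) * v ∈ PP σ (Fin.cons v w : Fin (b + 1) → Fin j → F) := by
  rw [Finset.sum_mul]
  refine Submodule.sum_mem _ (fun l _ => ?_)
  rw [smul_mul_assoc]
  refine Submodule.smul_mem _ _ (Submodule.subset_span ⟨l, 0, ?_⟩)
  rw [Fin.cons_zero]

/-- `x ↦ msk Tᶜ ((∑ x_l σ_l) v)` -/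
def Psi (T : Finset (Fin j)) (σ : Fin r → Fin j → F) (v : Fin j → F) :
    (Fin r → F) →ₗ[F] (Fin j → F) where
  toFun x := msk Tᶜ ((∑ l, x l • σ l) * v)
  map_add' x y := by
    rw [← map_add, ← add_mul, ← Finset.sum_add_distrib]
    simp only [Pi.add_apply, add_smul]
  map_smul' a x := by
    rw [RingHom.id_apply, ← map_smul, ← smul_mul_assoc, Finset.smul_sum]
    simp only [Pi.smul_apply, smul_eq_mul, mul_smul]

/-- the dimension grows by `r` if no combination is in the old space -/
theorem finrank_ge (T : Finset (Fin j)) (σ : Fin r → Fin j → F) {b : ℕ} (v : Fin j → F)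
    (w : Fin b → Fin j → F)
    (h : ¬ ∃ x : Fin r → F, x ≠ 0 ∧ msk Tᶜ ((∑ l, x l • σ l) * v) ∈ (PP σ w).map (msk Tᶜ)) :
    finrank F ((PP σ w).map (msk Tᶜ)) + r ≤
      finrank F ((PP σ (Fin.cons v w : Fin (b + 1) → Fin j → F)).map (msk Tᶜ)) := by
  set L := (PP σ w).map (msk Tᶜ) with hL
  have hinj : Function.Injective (Psi T σ v) := by
    rw [← LinearMap.ker_eq_bot, LinearMap.ker_eq_bot']
    intro x hx
    by_contra hne
    refine h ⟨x, hne, ?_⟩
    have h1 : msk Tᶜ ((∑ l, x l • σ l) * v) = 0 := hx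
    rw [h1]
    exact Submodule.zero_mem _
  have hr : finrank F (LinearMap.range (Psi T σ v)) = r := by
    rw [LinearMap.finrank_range_of_inj hinj, finrank_fin_fun]
  have hdis : L ⊓ LinearMap.range (Psi T σ v) = ⊥ := by
    rw [eq_bot_iff]
    rintro z ⟨h1, x, rfl⟩
    rw [Submodule.mem_bot]
    by_cases hx : x = 0
    · rw [hx, map_zero]
    · exact absurd ⟨x, hx, h1⟩ h
  have h2 := Submodule.finrank_sup_add_finrank_inf_eq L (LinearMap.range (Psi T σ v))
  rw [hdis, finrank_bot, add_zero, hr] at h2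
  rw [← h2]
  refine Submodule.finrank_mono (sup_le (Submodule.map_mono (PP_cons_le σ v w)) ?_)
  rintro z ⟨x, rfl⟩
  exact ⟨_, comb_mem σ v w x, rfl⟩

end

/-- validity -/
def Valid {F : Type} [Field F] {j r : ℕ} (c : Fin j → F) (T : Finset (Fin j))
    (U : Submodule F (Fin j → F)) (σ : Fin r → Fin j → F) {b : ℕ} (w : Fin b → Fin j → F) : Prop :=
  (∀ l t t', ∑ i, c i * σ l i * w t i * w t' i = 0) ∧ ∀ t, ∃ v ∈ U, ∀ i ∈ T, w t i = v i

open Classical in
/-- the weighted sum -/
noncomputable def MM {F : Type} [Field F] [Fintype F] {j r : ℕ} (c : Fin j → F) (T : Finset (Fin j))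
    (U : Submodule F (Fin j → F)) (σ : Fin r → Fin j → F) (b : ℕ) : ℕ :=
  ∑ w : Fin b → Fin j → F, if Valid c T U σ w then
    (Fintype.card F ^ (j / r + 1)) ^ (j - finrank F ((PP σ w).map (msk Tᶜ))) else 0

open Classical in
theorem MM_succ {F : Type} [Field F] [Fintype F] {j r : ℕ} (c : Fin j → F) (T : Finset (Fin j))
    (U : Submodule F (Fin j → F)) (σ : Fin r → Fin j → F) (b : ℕ) (hr : 1 ≤ r)
    (hc : ∀ i, c i ≠ 0) (hU : finrank F U ≤ r ^ 2)
    (hσ : ∀ x : Fin r → F, x ≠ 0 →
      r * Set.ncard {i : Fin j | i ∉ T ∧ (∑ l, x l • σ l) i = 0} ≤ j) :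
    MM c T U σ (b + 1) ≤ (1 + Fintype.card F ^ ((j + r + j / r + r ^ 2) / 2)) * MM c T U σ b := by
  set q := Fintype.card F with hq
  set κ := (j + r + j / r + r ^ 2) / 2 with hκ
  set Q := q ^ (j / r + 1) with hQ
  have hq1 : 1 ≤ q := Fintype.card_pos
  have hQ1 : 1 ≤ Q := Nat.one_le_pow _ _ hq1
  -- the inner bound
  have inner : ∀ w : Fin b → Fin j → F, Valid c T U σ w →
      ∑ v : Fin j → F, (if (∀ y ∈ PP σ w, ∑ i, c i * y i * v i = 0) ∧
        (∃ u ∈ U, ∀ i ∈ T, v i = u i) then
        Q ^ (j - finrank F ((PP σ (Fin.cons v w : Fin (b + 1) → Fin j → F)).map (msk Tᶜ))) else 0) ≤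
      (1 + q ^ κ) * Q ^ (j - finrank F ((PP σ w).map (msk Tᶜ))) := by
    intro w _
    set D := finrank F ((PP σ w).map (msk Tᶜ)) with hD
    have h1 : ∀ v : Fin j → F, (if (∀ y ∈ PP σ w, ∑ i, c i * y i * v i = 0) ∧
        (∃ u ∈ U, ∀ i ∈ T, v i = u i) then
        Q ^ (j - finrank F ((PP σ (Fin.cons v w : Fin (b + 1) → Fin j → F)).map (msk Tᶜ))) else 0) ≤
        (if D + r ≤ j then Q ^ (j - D - r) else 0) +
        (if (∀ y ∈ PP σ w, ∑ i, c i * y i * v i = 0) ∧ (∃ u ∈ U, ∀ i ∈ T, v i = u i) ∧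
          ∃ x : Fin r → F, x ≠ 0 ∧ msk Tᶜ ((∑ l, x l • σ l) * v) ∈ (PP σ w).map (msk Tᶜ)
          then Q ^ (j - D) else 0) := by
      intro v
      have hj : finrank F ((PP σ (Fin.cons v w : Fin (b + 1) → Fin j → F)).map (msk Tᶜ)) ≤ j := by
        have := Submodule.finrank_le ((PP σ (Fin.cons v w : Fin (b + 1) → Fin j → F)).map (msk Tᶜ))
        rwa [finrank_fin_fun] at this
      by_cases hok : (∀ y ∈ PP σ w, ∑ i, c i * y i * v i = 0) ∧ (∃ u ∈ U, ∀ i ∈ T, v i = u i)
      · rw [if_pos hok]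
        by_cases hB : ∃ x : Fin r → F, x ≠ 0 ∧
            msk Tᶜ ((∑ l, x l • σ l) * v) ∈ (PP σ w).map (msk Tᶜ)
        · rw [if_pos (show (∀ y ∈ PP σ w, ∑ i, c i * y i * v i = 0) ∧
            (∃ u ∈ U, ∀ i ∈ T, v i = u i) ∧ _ from ⟨hok.1, hok.2, hB⟩)]
          have h2 : D ≤ finrank F ((PP σ (Fin.cons v w : Fin (b + 1) → Fin j → F)).map (msk Tᶜ)) :=
            Submodule.finrank_mono (Submodule.map_mono (PP_cons_le σ v w))
          refine (Nat.pow_le_pow_right hQ1 (Nat.sub_le_sub_left h2 j)).trans (Nat.le_add_left _ _)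
        · have h2 := finrank_ge T σ v w hB
          rw [← hD] at h2
          rw [if_pos (h2.trans hj)]
          refine (Nat.pow_le_pow_right hQ1 ?_).trans (Nat.le_add_right _ _)
          omega
      · rw [if_neg hok]
        exact Nat.zero_le _
    refine (Finset.sum_le_sum (fun v _ => h1 v)).trans ?_
    rw [Finset.sum_add_distrib, add_mul, one_mul]
    refine Nat.add_le_add ?_ ?_
    · rw [Finset.sum_const, Finset.card_univ, Fintype.card_fun, Fintype.card_fin, smul_eq_mul]
      by_cases hDr : D + r ≤ j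
      · rw [if_pos hDr]
        have h2 : q ^ j ≤ Q ^ r := by
          rw [hQ, ← pow_mul]
          refine Nat.pow_le_pow_right hq1 ?_
          have h3 := Nat.lt_div_mul_add (a := j) (b := r) (by omega)
          rw [add_mul, one_mul]
          exact h3.le
        calc q ^ j * Q ^ (j - D - r) ≤ Q ^ r * Q ^ (j - D - r) := Nat.mul_le_mul_right _ h2
          _ = Q ^ (j - D) := by
            rw [← pow_add]
            congr 1
            omega
      · rw [if_neg hDr, mul_zero]
        exact Nat.zero_le _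
    · rw [← Finset.sum_filter, Finset.sum_const, smul_eq_mul]
      refine Nat.mul_le_mul_right _ ?_
      have h2 := CNT1A F j r c T U σ (PP σ w) hr hc hU hσ
      rw [Nat.card_eq_fintype_card, Fintype.card_subtype] at h2
      exact h2
  -- the sum over the families
  unfold MM
  rw [← (Fin.consEquiv (fun _ : Fin (b + 1) => Fin j → F)).sum_comp, Fintype.sum_prod_type_right,
    Finset.mul_sum]
  refine Finset.sum_le_sum (fun w _ => ?_)
  by_cases hw : Valid c T U σ w
  · rw [if_pos hw]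
    refine le_trans (Finset.sum_le_sum (fun v _ => ?_)) (inner w hw)
    by_cases hv : Valid c T U σ ((Fin.consEquiv (fun _ : Fin (b + 1) => Fin j → F)) (v, w))
    · have hv' : Valid c T U σ (Fin.cons v w : Fin (b + 1) → Fin j → F) := hv
      rw [if_pos hv, if_pos]
      · exact le_rfl
      · constructor
        · intro y hy
          unfold PP at hy
          induction hy using Submodule.span_induction with
          | mem z hz =>
            obtain ⟨l, t, rfl⟩ := hz
            have h3 := hv'.1 l t.succ 0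
            rw [Fin.cons_succ, Fin.cons_zero] at h3
            rw [← h3]
            refine Finset.sum_congr rfl (fun i _ => ?_)
            rw [Pi.mul_apply]
            ring
          | zero => simp
          | add y z _ _ h4 h5 =>
            simp only [Pi.add_apply, mul_add, add_mul, Finset.sum_add_distrib, h4, h5, add_zero]
          | smul a y _ h4 =>
            simp only [Pi.smul_apply, smul_eq_mul]
            rw [show ∑ i, c i * (a * y i) * v i = a * ∑ i, c i * y i * v i by
              rw [Finset.mul_sum]; exact Finset.sum_congr rfl fun i _ => by ring, h4, mul_zero]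
        · have h3 := hv'.2 0
          rw [Fin.cons_zero] at h3
          exact h3
    · rw [if_neg hv]
      exact Nat.zero_le _
  · rw [if_neg hw, mul_zero, Nat.le_zero]
    refine Finset.sum_eq_zero (fun v _ => ?_)
    rw [if_neg]
    intro hv
    have hv' : Valid c T U σ (Fin.cons v w : Fin (b + 1) → Fin j → F) := hv
    refine hw ⟨fun l t t' => ?_, fun t => ?_⟩
    · have h3 := hv'.1 l t.succ t'.succ
      rwa [Fin.cons_succ, Fin.cons_succ] at h3
    · have h3 := hv'.2 t.succ
      rwa [Fin.cons_succ] at h3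

theorem CNT1 : S_CNT1 := by
  classical
  intro F _ _ j r b c T U σ hr hc hU hσ
  set q := Fintype.card F with hq
  set κ := (j + r + j / r + r ^ 2) / 2 with hκ
  have hq1 : 1 ≤ q := Fintype.card_pos
  have hQ1 : 1 ≤ q ^ (j / r + 1) := Nat.one_le_pow _ _ hq1
  have h0 : MM c T U σ 0 ≤ (q ^ (j / r + 1)) ^ j := by
    unfold MM
    rw [Fintype.sum_unique]
    split_ifs
    · exact Nat.pow_le_pow_right hQ1 (Nat.sub_le _ _)
    · exact Nat.zero_le _
  have h1 : MM c T U σ b ≤ (1 + q ^ κ) ^ b * (q ^ (j / r + 1)) ^ j := by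
    induction b with
    | zero => rw [pow_zero, one_mul]; exact h0
    | succ b ih =>
      refine (MM_succ c T U σ b hr hc hU hσ).trans ?_
      rw [pow_succ' (1 + q ^ κ) b, mul_assoc]
      exact Nat.mul_le_mul_left _ ih
  have h2 : Nat.card {w : Fin b → Fin j → F //
      (∀ l t t', ∑ i, c i * σ l i * w t i * w t' i = 0) ∧ ∀ t, ∃ v ∈ U, ∀ i ∈ T, w t i = v i} ≤
      MM c T U σ b := by
    rw [Nat.card_eq_fintype_card, Fintype.card_subtype, Finset.card_filter]
    unfold MM
    refine Finset.sum_le_sum (fun w _ => ?_)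
    by_cases hw : (∀ l t t', ∑ i, c i * σ l i * w t i * w t' i = 0) ∧
        ∀ t, ∃ v ∈ U, ∀ i ∈ T, w t i = v i
    · rw [if_pos hw, if_pos (show Valid c T U σ w from hw)]
      exact Nat.one_le_pow _ _ hQ1
    · rw [if_neg hw]
      exact Nat.zero_le _
  refine h2.trans (h1.trans ?_)
  rw [mul_comm]
  refine Nat.mul_le_mul_left _ (Nat.pow_le_pow_left ?_ b)
  have := Nat.one_le_pow κ q hq1
  omega

end Pool.Agent.H99.KC
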