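import Pool.Agent.H99.KC.Stm
import Pool.Agent.H20.G.R_pool_sql_team_seeded_63374d34.N392.BK.ROWS

/-! # Project KC, stub CNT1A (helper27) -/

set_option autoImplicit false

namespace Pool.Agent.H99.KC

open Module Pool.Agent.N392.BK.ROWS

theorem card_sub' {F : Type} [Field F] [Fintype F] {j : ℕ} (R : Submodule F (Fin j → F)) :
    Nat.card R = Fintype.card F ^ finrank F R := by
  rw [← Nat.card_eq_fintype_card]
  exact Module.natCard_eq_pow_finrank

theorem CNT1A : S_CNT1A := by
  classical
  intro F _ _ j r c T U σ P hr hc hU hσ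
  set q := Fintype.card F with hq
  have hq1 : 1 ≤ q := Fintype.card_pos
  have hp : finrank F P ≤ j := by
    have := Submodule.finrank_le P
    rwa [finrank_fin_fun] at this
  have hD : finrank F (P.map (msk Tᶜ)) ≤ finrank F P := Submodule.finrank_map_le _ _
  set V := {v : Fin j → F // (∀ y ∈ P, ∑ i, c i * y i * v i = 0) ∧
    (∃ w ∈ U, ∀ i ∈ T, v i = w i) ∧
    ∃ x : Fin r → F, x ≠ 0 ∧ msk Tᶜ ((∑ l, x l • σ l) * v) ∈ P.map (msk Tᶜ)} with hV
  -- first bound
  have b1 : Nat.card V ≤ q ^ (j - finrank F P) := by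
    have h1 : q ^ (j - finrank F P) = Nat.card ((Bf c).orthogonal P) := by
      rw [card_sub', LinearMap.BilinForm.finrank_orthogonal (Bf_nondeg hc), finrank_fin_fun]
    rw [h1]
    refine Nat.card_le_card_of_injective (fun v : V => (⟨v.1, ?_⟩ : (Bf c).orthogonal P)) ?_
    · rw [LinearMap.BilinForm.mem_orthogonal_iff]
      intro u hu
      exact v.2.1 u hu
    · intro v v' h
      have := congrArg Subtype.val h
      exact Subtype.ext this
  -- second bound
  have b2 : Nat.card V ≤ q ^ (finrank F (P.map (msk Tᶜ)) + r + j / r + r ^ 2) := by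
    choose w hw hwT using fun v : V => v.2.2.1
    choose x hx hmem using fun v : V => v.2.2.2
    let X := {x : Fin r → F // x ≠ 0}
    let Z : X → Type := fun x => ↥{i : Fin j | i ∉ T ∧ (∑ l, x.1 l • σ l) i = 0}
    let β : X → Type := fun x => ↥(P.map (msk Tᶜ)) × ↥U × (Z x → F)
    let g : V → Σ x : X, β x := fun v => ⟨⟨x v, hx v⟩, ⟨⟨_, hmem v⟩, ⟨w v, hw v⟩, fun i => v.1 i.1⟩⟩
    let dec : (Σ x : X, β x) → Fin j → F := fun a i =>
      if hi : i ∈ T then a.2.2.1.1 i else
        if h : (∑ l, a.1.1 l • σ l) i = 0 then a.2.2.2 ⟨i, hi, h⟩ else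
          a.2.1.1 i / (∑ l, a.1.1 l • σ l) i
    have hdec : ∀ v : V, dec (g v) = v.1 := by
      intro v
      funext i
      simp only [dec, g]
      by_cases hi : i ∈ T
      · rw [dif_pos hi]
        exact (hwT v i hi).symm
      · rw [dif_neg hi]
        by_cases h : (∑ l, x v l • σ l) i = 0
        · rw [dif_pos h]
        · rw [dif_neg h]
          simp only [msk, LinearMap.coe_mk, AddHom.coe_mk, Finset.mem_compl, hi, not_false_eq_true,
            if_true, Pi.mul_apply]
          rw [mul_comm, mul_div_assoc, div_self h, mul_one]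
    have hg : Function.Injective g := by
      intro v v' h
      apply Subtype.ext
      rw [← hdec v, ← hdec v', h]
    have h1 : Nat.card V ≤ Nat.card (Σ x : X, β x) := Nat.card_le_card_of_injective g hg
    refine h1.trans ?_
    rw [Nat.card_sigma]
    have h2 : ∀ x : X, Nat.card (β x) ≤ q ^ (finrank F (P.map (msk Tᶜ)) + (r ^ 2 + j / r)) := by
      intro x
      have h3 : Nat.card (β x) = q ^ finrank F (P.map (msk Tᶜ)) * (q ^ finrank F U *
          q ^ Nat.card (Z x)) := by
        change Nat.card (↥(P.map (msk Tᶜ)) × ↥U × (Z x → F)) = _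
        rw [Nat.card_prod, Nat.card_prod, Nat.card_fun, card_sub', card_sub',
          Nat.card_eq_fintype_card (α := F)]
      rw [h3, pow_add, pow_add]
      have h4 : Nat.card (Z x) ≤ j / r := by
        change Nat.card ↥{i : Fin j | i ∉ T ∧ (∑ l, x.1 l • σ l) i = 0} ≤ j / r
        rw [Nat.card_coe_set_eq, Nat.le_div_iff_mul_le (by omega), mul_comm]
        exact hσ x.1 x.2
      exact Nat.mul_le_mul_left _ (Nat.mul_le_mul (Nat.pow_le_pow_right hq1 hU)
        (Nat.pow_le_pow_right hq1 h4))
    refine (Finset.sum_le_card_nsmul _ _ _ (fun x _ => h2 x)).trans ?_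
    rw [smul_eq_mul]
    have h5 : (Finset.univ : Finset X).card ≤ q ^ r := by
      rw [Finset.card_univ]
      refine (Fintype.card_subtype_le _).trans ?_
      rw [Fintype.card_fun, Fintype.card_fin]
    refine (Nat.mul_le_mul_right _ h5).trans (le_of_eq ?_)
    rw [← pow_add]
    congr 1
    ring
  rcases le_or_gt (j - finrank F P) ((j + r + j / r + r ^ 2) / 2) with h | h
  · exact b1.trans (Nat.pow_le_pow_right hq1 h)
  · refine b2.trans (Nat.pow_le_pow_right hq1 ?_)
    omega

end Pool.Agent.H99.KC
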