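import Pool.Agent.H99.KC.Stm

/-! # Project KC, stub CNT2 (helper27) -/

set_option autoImplicit false

namespace Pool.Agent.H99.KC

open Module

theorem finrank_msk_union {F : Type} [Field F] {j : ℕ} (B : Submodule F (Fin j → F))
    (T Z : Finset (Fin j)) :
    finrank F (B.map (msk (T ∪ Z))) ≤ finrank F (B.map (msk T)) + finrank F (B.map (msk Z)) := by
  have h1 : B.map (msk (T ∪ Z)) ≤ B.map (msk T) ⊔ (B.map (msk Z)).map (msk (Z \ T)) := by
    rintro _ ⟨v, hv, rfl⟩
    have h2 : msk (T ∪ Z) v = msk T v + msk (Z \ T) (msk Z v) := by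
      funext i
      simp only [msk, LinearMap.coe_mk, AddHom.coe_mk, Pi.add_apply, Finset.mem_union,
        Finset.mem_sdiff]
      by_cases h3 : i ∈ T <;> by_cases h4 : i ∈ Z <;> simp [h3, h4]
    rw [h2]
    exact Submodule.add_mem_sup ⟨v, hv, rfl⟩ ⟨msk Z v, ⟨v, hv, rfl⟩, rfl⟩
  refine (Submodule.finrank_mono h1).trans ?_
  refine (Submodule.finrank_add_le_finrank_add_finrank _ _).trans ?_
  exact Nat.add_le_add_left (Submodule.finrank_map_le _ _) _

theorem CNT2 : S_CNT2 := by
  intro F _ j r B hr
  have key : ∃ n, (∃ T : Finset (Fin j), finrank F (B.map (msk T)) ≤ n * (r - 1) ∧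
      n * (j + 1) ≤ r * T.card) ∧ ¬ ∃ T : Finset (Fin j),
      finrank F (B.map (msk T)) ≤ (n + 1) * (r - 1) ∧ (n + 1) * (j + 1) ≤ r * T.card := by
    by_contra hcon
    have h1 : ∀ n, ∃ T : Finset (Fin j), finrank F (B.map (msk T)) ≤ n * (r - 1) ∧
        n * (j + 1) ≤ r * T.card := by
      intro n
      induction n with
      | zero =>
        refine ⟨∅, ?_, by simp⟩
        have h2 : (msk (∅ : Finset (Fin j)) : (Fin j → F) →ₗ[F] (Fin j → F)) = 0 := by
          ext v i
          simp [msk]
        rw [h2, Submodule.map_zero, finrank_bot]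
        exact Nat.zero_le _
      | succ n ih =>
        by_contra h3
        exact hcon ⟨n, ih, h3⟩
    obtain ⟨T, -, h2⟩ := h1 r
    have h3 : T.card ≤ j := by
      have := Finset.card_le_univ T
      rwa [Fintype.card_fin] at this
    have h4 : r * T.card ≤ r * j := Nat.mul_le_mul_left r h3
    have h5 : r * (j + 1) = r * j + r := by ring
    omega
  obtain ⟨n, ⟨T, h1, h2⟩, h3⟩ := key
  have hcard : T.card ≤ j := by
    have := Finset.card_le_univ T
    rwa [Fintype.card_fin] at this
  have hn : n < r := by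
    by_contra hcon
    push Not at hcon
    have h4 : r * T.card ≤ r * j := Nat.mul_le_mul_left r hcard
    have h5 : r * (j + 1) ≤ n * (j + 1) := Nat.mul_le_mul_right _ hcon
    have h6 : r * (j + 1) = r * j + r := by ring
    omega
  refine ⟨T, h1.trans ?_, ?_⟩
  · rw [sq]
    exact Nat.mul_le_mul hn.le (Nat.sub_le _ _)
  · intro Z hZ
    by_contra hcon
    push Not at hcon
    refine h3 ⟨T ∪ Z, ?_, ?_⟩
    · refine (finrank_msk_union B T Z).trans ?_
      rw [add_mul, one_mul]
      exact Nat.add_le_add h1 (by omega)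
    · have h4 : (T ∪ Z).card = T.card + (Z \ T).card := by
        rw [← Finset.union_sdiff_self_eq_union, Finset.card_union_of_disjoint Finset.disjoint_sdiff]
      rw [h4]
      have h5 : (n + 1) * (j + 1) = n * (j + 1) + (j + 1) := by ring
      have h6 : r * (T.card + (Z \ T).card) = r * T.card + r * (Z \ T).card := by ring
      omega

end Pool.Agent.H99.KC
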