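import Pool.Agent.H99.KC.Stm

/-! # KC-CNT3 (helper61): generic vectors -/

set_option autoImplicit false

namespace Pool.Agent.H99.KC

theorem CNT3 : S_CNT3 := by
  intro F _ _ j r
  induction r with
  | zero =>
    intro B _
    exact ⟨fun l => l.elim0, fun l => l.elim0, fun Z _ x hx => absurd (Subsingleton.elim x 0) hx⟩
  | succ r ih =>
    intro B hq
    obtain ⟨σ, hσB, hσ⟩ := ih B hq
    classical
    let ι := {Z : Finset (Fin j) // r + 1 ≤ Module.finrank F (B.map (msk Z))}
    let S : Finset (Fin j) → Submodule F (Fin j → F) :=
      fun Z => Submodule.span F (Set.range fun l => msk Z (σ l))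
    let p : ι → Submodule F B := fun Z => ((S Z.1).comap (msk Z.1)).comap B.subtype
    have hp : ∀ Z : ι, p Z ≠ ⊤ := by
      intro Z h
      have h1 : B.map (msk Z.1) ≤ S Z.1 := by
        rw [Submodule.map_le_iff_le_comap]
        intro v hv
        have h2 : (⟨v, hv⟩ : B) ∈ p Z := by rw [h]; exact Submodule.mem_top
        exact h2
      have h2 := Submodule.finrank_mono h1
      have h3 : Module.finrank F (S Z.1) ≤ r := by
        have := finrank_range_le_card (R := F) (b := fun l : Fin r => msk Z.1 (σ l))
        rw [Fintype.card_fin] at this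
        exact this
      have := Z.2
      omega
    have hcard : ((Finset.univ : Finset ι).card : ENat) < ENat.card F := by
      rw [ENat.card_eq_coe_fintype_card]
      have h1 : Fintype.card ι ≤ 2 ^ j := by
        have := Fintype.card_subtype_le
          (fun Z : Finset (Fin j) => r + 1 ≤ Module.finrank F (B.map (msk Z)))
        rwa [Fintype.card_finset, Fintype.card_fin] at this
      rw [Finset.card_univ]
      exact_mod_cast h1.trans_lt hq
    have h := Submodule.iUnion_ssubset_of_forall_ne_top_of_card_lt (Finset.univ : Finset ι) p hp hcard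
    obtain ⟨v, -, hv⟩ := Set.exists_of_ssubset h
    have hv' : ∀ Z : Finset (Fin j), r + 1 ≤ Module.finrank F (B.map (msk Z)) →
        msk Z (v : Fin j → F) ∉ S Z := by
      intro Z hZ hmem
      apply hv
      rw [Set.mem_iUnion₂]
      exact ⟨⟨Z, hZ⟩, Finset.mem_univ _, hmem⟩
    refine ⟨@Fin.snoc r (fun _ => Fin j → F) σ (v : Fin j → F), ?_, ?_⟩
    · intro l
      refine Fin.lastCases ?_ (fun l => ?_) l
      · rw [Fin.snoc_last]
        exact v.2
      · rw [Fin.snoc_castSucc]
        exact hσB l
    · intro Z hZ x hx h0
      rw [Fin.sum_univ_castSucc] at h0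
      simp only [Fin.snoc_castSucc, Fin.snoc_last] at h0
      rw [map_add, map_smul] at h0
      by_cases hxl : x (Fin.last r) = 0
      · rw [hxl, zero_smul, add_zero] at h0
        refine hσ Z (by omega) (fun l => x (Fin.castSucc l)) ?_ h0
        intro hx0
        apply hx
        funext l
        refine Fin.lastCases ?_ (fun l => ?_) l
        · exact hxl
        · exact congrFun hx0 l
      · apply hv' Z hZ
        have h1 : msk Z (v : Fin j → F) =
            (x (Fin.last r))⁻¹ • - msk Z (∑ l : Fin r, x (Fin.castSucc l) • σ l) := by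
          rw [eq_inv_smul_iff₀ hxl]
          exact eq_neg_of_add_eq_zero_right h0
        rw [h1]
        refine Submodule.smul_mem _ _ (Submodule.neg_mem _ ?_)
        rw [map_sum]
        refine Submodule.sum_mem _ fun l _ => ?_
        rw [map_smul]
        exact Submodule.smul_mem _ _ (Submodule.subset_span ⟨l, rfl⟩)

end Pool.Agent.H99.KC
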