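import Pool.Agent.H99.KC.Stm

/-!
# KC-CNT4: number of the families with `∑ c w w w = 0`
-/

set_option autoImplicit false

open Finset

namespace Pool.Agent.H99.KC

variable {F : Type} [Field F]

/-- a submodule of rank at most `n` is covered by the span of `n` vectors -/
theorem CNT4_gen {j n : ℕ} (U : Submodule F (Fin j → F)) (h : Module.finrank F U ≤ n) :
    ∃ μ : Fin n → Fin j → F, U ≤ Submodule.span F (Set.range μ) := by
  classical
  set B := Module.finBasis F U
  refine ⟨fun i => if h' : (i : ℕ) < Module.finrank F U then (B ⟨i, h'⟩ : Fin j → F) else 0, ?_⟩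
  intro y hy
  have h1 := B.sum_repr ⟨y, hy⟩
  have h2 : y = ∑ i, B.repr ⟨y, hy⟩ i • (B i : Fin j → F) := by
    have h3 : ((∑ i, B.repr ⟨y, hy⟩ i • B i : U) : Fin j → F) = y := congrArg Subtype.val h1
    refine h3.symm.trans ?_
    rw [AddSubmonoidClass.coe_finsetSum]
    rfl
  rw [h2]
  refine Submodule.sum_mem _ fun i _ => Submodule.smul_mem _ _ (Submodule.subset_span ?_)
  refine ⟨⟨i, i.2.trans_le h⟩, ?_⟩
  simp

theorem CNT4_sigma {j b : ℕ} (c : Fin j → F) (w : Fin b → Fin j → F)
    (hw : ∀ t₁ t₂ t₃, ∑ i, c i * w t₁ i * w t₂ i * w t₃ i = 0) (y : Fin j → F)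
    (hy : y ∈ Submodule.span F (Set.range w)) (t t' : Fin b) :
    ∑ i, c i * y i * w t i * w t' i = 0 := by
  induction hy using Submodule.span_induction with
  | mem x hx =>
    obtain ⟨s, rfl⟩ := hx
    exact hw s t t'
  | zero => simp
  | add x y _ _ hx hy =>
    have : ∑ i, c i * (x + y) i * w t i * w t' i =
        ∑ i, c i * x i * w t i * w t' i + ∑ i, c i * y i * w t i * w t' i := by
      rw [← sum_add_distrib]
      refine sum_congr rfl fun i _ => ?_
      simp only [Pi.add_apply]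
      ring
    rw [this, hx, hy, add_zero]
  | smul a x _ hx =>
    have : ∑ i, c i * (a • x) i * w t i * w t' i = a * ∑ i, c i * x i * w t i * w t' i := by
      rw [mul_sum]
      refine sum_congr rfl fun i _ => ?_
      simp only [Pi.smul_apply, smul_eq_mul]
      ring
    rw [this, hx, mul_zero]

theorem CNT4 : S_CNT1 → S_CNT2 → S_CNT3 → S_CNT4 := by
  classical
  intro h1 h2 h3 F _ _ j r b c hr hc hq
  set q := Fintype.card F with hqdef
  let P : (Fin b → Fin j → F) → Prop := fun w => ∀ t₁ t₂ t₃, ∑ i, c i * w t₁ i * w t₂ i * w t₃ i = 0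
  let Tr : Type := Finset (Fin j) × (Fin (r ^ 2) → Fin j → F) × (Fin r → Fin j → F)
  let H : Tr → Prop := fun τ => ∀ x : Fin r → F, x ≠ 0 →
    r * Set.ncard {i : Fin j | i ∉ τ.1 ∧ (∑ l, x l • τ.2.2 l) i = 0} ≤ j
  let Q : Tr → (Fin b → Fin j → F) → Prop := fun τ w =>
    (∀ l t t', ∑ i, c i * τ.2.2 l i * w t i * w t' i = 0) ∧
      ∀ t, ∃ v ∈ Submodule.span F (Set.range τ.2.1), ∀ i ∈ τ.1, w t i = v i
  set M : ℕ := (q ^ (j / r + 1)) ^ j * (2 * q ^ ((j + r + j / r + r ^ 2) / 2)) ^ b with hM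
  have hex : ∀ w, P w → ∃ τ : Tr, H τ ∧ Q τ w := by
    intro w hw
    set B := Submodule.span F (Set.range w) with hB
    obtain ⟨T, hT1, hT2⟩ := h2 F j r B hr
    obtain ⟨σ, hσ, hσ2⟩ := h3 F j r B hq
    obtain ⟨μ, hμ⟩ := CNT4_gen _ hT1
    refine ⟨(T, μ, σ), ?_, ?_, ?_⟩
    · intro x hx
      set Z : Finset (Fin j) := univ.filter fun i => (∑ l, x l • σ l) i = 0 with hZ
      have hz : msk Z (∑ l, x l • σ l) = 0 := by
        funext i
        by_cases hi : i ∈ Z
        · have : (∑ l, x l • σ l) i = 0 := (mem_filter.1 hi).2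
          simp only [msk, LinearMap.coe_mk, AddHom.coe_mk, hi, if_true, this, Pi.zero_apply]
        · simp only [msk, LinearMap.coe_mk, AddHom.coe_mk, hi, if_false, Pi.zero_apply]
      have hlt : Module.finrank F (B.map (msk Z)) < r := by
        by_contra hcon
        exact hσ2 Z (not_lt.1 hcon) x hx hz
      have h4 := hT2 Z hlt
      have h5 : Set.ncard {i : Fin j | i ∉ T ∧ (∑ l, x l • σ l) i = 0} = (Z \ T).card := by
        rw [← Set.ncard_coe_finset]
        congr 1
        ext i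
        simp only [Set.mem_ofPred_eq, coe_sdiff, Set.mem_sdiff, mem_coe, hZ, mem_filter, mem_univ, true_and]
        tauto
      show r * Set.ncard {i : Fin j | i ∉ T ∧ (∑ l, x l • σ l) i = 0} ≤ j
      rw [h5]
      exact h4
    · intro l t t'
      exact CNT4_sigma c w hw (σ l) (hσ l) t t'
    · intro t
      refine ⟨msk T (w t), hμ ⟨w t, Submodule.subset_span ⟨t, rfl⟩, rfl⟩, fun i hi => ?_⟩
      simp only [msk, LinearMap.coe_mk, AddHom.coe_mk, hi, if_true]
  have hcard : ∀ τ : Tr, H τ → (univ.filter (Q τ)).card ≤ M := by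
    intro τ hτ
    have hfr : Module.finrank F (Submodule.span F (Set.range τ.2.1)) ≤ r ^ 2 := by
      have := finrank_range_le_card (R := F) τ.2.1
      simpa [Set.finrank] using this
    have := h1 F j r b c τ.1 (Submodule.span F (Set.range τ.2.1)) τ.2.2 hr hc hfr hτ
    rw [Nat.card_eq_fintype_card, Fintype.card_subtype] at this
    exact this
  have hmain : (univ.filter P).card ≤ ((univ.filter H).biUnion fun τ => univ.filter (Q τ)).card := by
    refine card_le_card fun w hw => ?_
    obtain ⟨τ, hτ, hQ⟩ := hex w (mem_filter.1 hw).2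
    exact mem_biUnion.2 ⟨τ, mem_filter.2 ⟨mem_univ _, hτ⟩, mem_filter.2 ⟨mem_univ _, hQ⟩⟩
  have h6 : ((univ.filter H).biUnion fun τ => univ.filter (Q τ)).card ≤ (univ.filter H).card * M :=
    card_biUnion_le_card_mul _ _ _ fun τ hτ => hcard τ (mem_filter.1 hτ).2
  have h7 : (univ.filter H).card ≤ 2 ^ j * (q ^ (j * r ^ 2) * q ^ (j * r)) := by
    refine (card_filter_le _ _).trans (le_of_eq ?_)
    rw [card_univ]
    show Fintype.card (Finset (Fin j) × (Fin (r ^ 2) → Fin j → F) × (Fin r → Fin j → F)) = _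
    simp only [Fintype.card_prod, Fintype.card_finset, Fintype.card_fun, Fintype.card_fin, ← pow_mul, hqdef]
  rw [Nat.card_eq_fintype_card, Fintype.card_subtype]
  refine (hmain.trans (h6.trans (Nat.mul_le_mul_right M h7))).trans (le_of_eq ?_)
  rw [hM, mul_pow, ← pow_mul, ← pow_mul]
  ring

end Pool.Agent.H99.KC
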