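import Pool.Agent.H99.KC.Stm

/-!
# KC-CUB: number of the matrices with cubic rows
-/

set_option autoImplicit false

open Finset

namespace Pool.Agent.H99.KC

variable {F : Type} [Field F]

/-- the coordinates -/
theorem CUB_mem {j b : ℕ} (w : Fin b → Fin j → F) (y : Fin j → F)
    (hy : y ∈ Submodule.span F (insert 1 (Set.range w))) :
    ∃ x : Fin (b + 1) → F, y = x 0 • 1 + ∑ t, x (Fin.succ t) • w t := by
  obtain ⟨a, z, hz, rfl⟩ := Submodule.mem_span_insert.1 hy
  obtain ⟨x, rfl⟩ := (Submodule.mem_span_range_iff_exists_fun F).1 hz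
  exact ⟨Fin.cons a x, by simp⟩

/-- the selection of the rows -/
theorem CUB_sel {j u b : ℕ} (A : Fin u → Fin j → F)
    (h : Module.finrank F (Submodule.span F (insert 1 (Set.range A))) = b + 1) :
    ∃ J : Finset (Fin u), J.card = b ∧
      ∀ t, A t ∈ Submodule.span F (insert 1 (A '' (J : Set (Fin u)))) := by
  classical
  have h1 : (1 : Fin j → F) ≠ 0 := by
    intro h0
    have hj : ∀ y : Fin j → F, y = 0 := by
      intro y
      have : y = 1 * y := (one_mul y).symm
      rw [this, h0, zero_mul]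
    have : Submodule.span F (insert 1 (Set.range A)) = ⊥ := by
      rw [Submodule.span_eq_bot]
      exact fun x _ => hj x
    rw [this, finrank_bot] at h
    omega
  obtain ⟨B, hB1, hB2, hB3, hB4⟩ := exists_linearIndepOn_id_extension (K := F)
    (LinearIndepOn.singleton (v := id) (i := (1 : Fin j → F)) h1)
    (show ({1} : Set (Fin j → F)) ⊆ insert 1 (Set.range A) by simp)
  have hspan : Submodule.span F (insert 1 (Set.range A)) = Submodule.span F B :=
    le_antisymm (Submodule.span_le.2 hB3) (Submodule.span_mono hB1)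
  have hfin : B.Finite := ((Set.finite_range A).insert 1).subset hB1
  have hcard : B.ncard = b + 1 := by
    haveI : Fintype B := hfin.fintype
    have h2 := finrank_span_set_eq_card (R := F) (s := B) hB4
    rw [← hspan, h] at h2
    rw [h2, Set.ncard_eq_toFinset_card']
  have h1B : (1 : Fin j → F) ∈ B := hB2 rfl
  have hsurj : Set.SurjOn A Set.univ (B \ {1}) := by
    rintro y ⟨hy, hy1⟩
    rcases hB1 hy with h3 | ⟨t, rfl⟩
    · exact absurd h3 hy1
    · exact ⟨t, trivial, rfl⟩
  obtain ⟨J, _, hJ⟩ := hsurj.exists_bijOn_subset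
  refine ⟨J.toFinset, ?_, fun t => ?_⟩
  · have h4 : J.ncard = (B \ {1}).ncard := by
      rw [← hJ.image_eq, Set.ncard_image_of_injOn hJ.injOn]
    rw [Set.ncard_diff_singleton_of_mem h1B, hcard] at h4
    rw [← Set.ncard_eq_toFinset_card', h4]
    omega
  · have h5 : insert (1 : Fin j → F) (A '' ((J.toFinset : Finset (Fin u)) : Set (Fin u))) = B := by
      rw [Set.coe_toFinset, hJ.image_eq]
      simp [h1B]
    rw [h5, ← hspan]
    exact Submodule.subset_span (Set.mem_insert_of_mem _ ⟨t, rfl⟩)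

theorem CUB : S_CNT4 → S_CUB := by
  classical
  intro h4 F _ _ u j r b c hr hc hq
  set q := Fintype.card F with hqdef
  set M : ℕ := 2 ^ (j + b) * q ^
      (j * r ^ 2 + j * r + (j / r + 1) * j + b * ((j + r + j / r + r ^ 2) / 2)) with hM
  let P : (Fin b → Fin j → F) → Prop := fun w => ∀ t₁ t₂ t₃, ∑ i, c i * w t₁ i * w t₂ i * w t₃ i = 0
  have hP : Fintype.card {w // P w} ≤ M := by
    have := h4 F j r b c hr hc hq
    rwa [Nat.card_eq_fintype_card] at this
  let D : Type := Finset (Fin u) × {w // P w} × (Fin (u - b) → Fin (b + 1) → F)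
  let e1 : ∀ J : Finset (Fin u), J.card = b → {t // t ∈ J} ≃ Fin b := fun J hJ =>
    J.equivFinOfCardEq hJ
  have hcomp : ∀ J : Finset (Fin u), J.card = b → (Jᶜ).card = u - b := by
    intro J hJ
    rw [card_compl, hJ, Fintype.card_fin]
  let e2 : ∀ J : Finset (Fin u), J.card = b → {t // t ∈ Jᶜ} ≃ Fin (u - b) := fun J hJ =>
    (Jᶜ).equivFinOfCardEq (hcomp J hJ)
  let R : D → (Fin u → Fin j → F) := fun p => if hJ : p.1.card = b then
      fun t => if ht : t ∈ p.1 then p.2.1.1 (e1 p.1 hJ ⟨t, ht⟩) else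
        (p.2.2 (e2 p.1 hJ ⟨t, mem_compl.2 ht⟩)) 0 • (1 : Fin j → F) +
          ∑ s, (p.2.2 (e2 p.1 hJ ⟨t, mem_compl.2 ht⟩)) (Fin.succ s) • p.2.1.1 s
    else 0
  have hR : ∀ A : Fin u → Fin j → F, ((∀ t₁ t₂ t₃, ∑ i, c i * A t₁ i * A t₂ i * A t₃ i = 0) ∧
      Module.finrank F (Submodule.span F (insert 1 (Set.range A))) = b + 1) → ∃ p : D, R p = A := by
    rintro A ⟨hA1, hA2⟩
    obtain ⟨J, hJ, hspan⟩ := CUB_sel A hA2
    let w : Fin b → Fin j → F := fun s => A ((e1 J hJ).symm s).1
    have hw : P w := fun t₁ t₂ t₃ => hA1 _ _ _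
    have him : A '' (J : Set (Fin u)) = Set.range w := by
      ext y
      constructor
      · rintro ⟨t, ht, rfl⟩
        exact ⟨e1 J hJ ⟨t, ht⟩, by simp [w]⟩
      · rintro ⟨s, rfl⟩
        exact ⟨((e1 J hJ).symm s).1, ((e1 J hJ).symm s).2, rfl⟩
    have hx : ∀ t, ∃ x : Fin (b + 1) → F, A t = x 0 • 1 + ∑ s, x (Fin.succ s) • w s := by
      intro t
      refine CUB_mem w (A t) ?_
      rw [← him]
      exact hspan t
    choose x hx using hx
    refine ⟨(J, ⟨w, hw⟩, fun s => x ((e2 J hJ).symm s).1), ?_⟩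
    funext t
    by_cases ht : t ∈ J
    · simp only [R, hJ, dif_pos, ht]
      simp [w]
    · simp only [R, hJ, dif_pos, ht, dif_neg, not_false_iff]
      simp only [Equiv.symm_apply_apply]
      exact (hx t).symm
  have hle : Nat.card {A : Fin u → Fin j → F // (∀ t₁ t₂ t₃, ∑ i, c i * A t₁ i * A t₂ i * A t₃ i = 0) ∧
      Module.finrank F (Submodule.span F (insert 1 (Set.range A))) = b + 1} ≤ Fintype.card D := by
    rw [Nat.card_eq_fintype_card]
    choose f hf using hR
    refine Fintype.card_le_of_injective (fun A => f A.1 A.2) ?_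
    intro A A' h
    have h' : f A.1 A.2 = f A'.1 A'.2 := h
    apply Subtype.ext
    rw [← hf A.1 A.2, ← hf A'.1 A'.2, h']
  refine hle.trans ?_
  have hD : Fintype.card D = 2 ^ u * Fintype.card {w // P w} * (q ^ ((b + 1) * (u - b))) := by
    show Fintype.card (Finset (Fin u) × {w // P w} × (Fin (u - b) → Fin (b + 1) → F)) = _
    simp only [Fintype.card_prod, Fintype.card_finset, Fintype.card_fun, Fintype.card_fin, ← pow_mul, hqdef]
    ring
  rw [hD]
  gcongr

end Pool.Agent.H99.KC
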