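import Pool.Agent.H99.KC.Stm

set_option autoImplicit false

namespace Pool.Agent.H99.KC

private lemma GOOD_real {δ r s u E J β a w K : ℝ} (hδ : 0 < δ) (hδ1 : δ ≤ 1) (hr0 : 0 < r)
    (hr : 20 ≤ δ * r) (hu0 : 0 ≤ u) (hus : 2 * u ≤ s) (hβ : 1 ≤ β) (hβa : β ≤ a) (haJ : a ≤ J)
    (hJ2 : 2 ≤ J) (hJs : 2 * J ≤ s) (hw : w * s = (s / 2 - u) ^ 2) (hE : s + (w + δ * s) ≤ E)
    (hK : K = 5 / 2 * (r ^ 2 + r) + 6) (hs : 8 * K + 2 / δ ≤ δ * s) :
    2 + 5 * J ^ 2 / r + 2 * J * (2 + 5 / 4 * (r ^ 2 + r)) ≤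
      (2 * J - 1) * E + s + 3 / 2 * a ^ 2 - a * β + β ^ 2 / 2 - β * J - β * u -
        (a - β) * (2 * J) - (s + E - u) * a := by
  have hs0 : 0 < s := by linarith
  have hw0 : 0 ≤ w := by
    by_contra h
    push Not at h
    have : w * s < 0 := mul_neg_of_neg_of_pos h hs0
    nlinarith [sq_nonneg (s / 2 - u)]
  have hw4 : w ≤ s / 4 := by
    by_contra h
    push Not at h
    have h1 : s / 4 * s < w * s := mul_lt_mul_of_pos_right h hs0
    nlinarith
  have hK0 : 6 ≤ K := by rw [hK]; nlinarith [sq_nonneg r]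
  have h1 : (a - J) * (3 / 2 * (a + J) - β - 2 * J - (s + E - u)) ≥ 0 := by
    apply mul_nonneg_of_nonpos_of_nonpos
    · linarith
    · nlinarith [mul_pos hδ hs0]
  have h2 : (2 * J - 1) * E + s + 3 / 2 * a ^ 2 - a * β + β ^ 2 / 2 - β * J - β * u -
        (a - β) * (2 * J) - (s + E - u) * a =
      (J - 1) * (E - s) + (J - β) * (u - (J + β) / 2) +
        (a - J) * (3 / 2 * (a + J) - β - 2 * J - (s + E - u)) := by ring
  rw [h2]
  have hψ : (J - β) * (u - (J + β) / 2) = (β - u) ^ 2 / 2 - (J - u) ^ 2 / 2 := by ring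
  have h3 : -(J * w) ≤ (J - β) * (u - (J + β) / 2) := by
    rcases le_total J u with h | h
    · have : 0 ≤ (J - β) * (u - (J + β) / 2) := mul_nonneg (by linarith) (by linarith)
      nlinarith
    · rw [hψ]
      have h5 : (J - u) ^ 2 / 2 * s ≤ J * w * s := by
        have h6 : J * w * s = J * (s / 2 - u) ^ 2 := by rw [mul_assoc, hw]
        rw [h6]
        have h7 : J * (s / 2 - u) ^ 2 - (J - u) ^ 2 / 2 * s = (s / 2 - J) * (J * (s / 2) - u ^ 2) := by
          ring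
        have h8 : 0 ≤ (s / 2 - J) * (J * (s / 2) - u ^ 2) := by
          apply mul_nonneg
          · linarith
          · nlinarith
        linarith
      have h9 : (J - u) ^ 2 / 2 ≤ J * w := le_of_mul_le_mul_right h5 hs0
      nlinarith [sq_nonneg (β - u)]
  have h4 : -(J ^ 2 / 2) ≤ (J - β) * (u - (J + β) / 2) := by
    rcases le_total J u with h | h
    · have : 0 ≤ (J - β) * (u - (J + β) / 2) := mul_nonneg (by linarith) (by linarith)
      nlinarith
    · rw [hψ]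
      nlinarith [sq_nonneg (β - u), mul_nonneg hu0 (sub_nonneg.2 h)]
  have hG : w + δ * s ≤ E - s := by linarith
  have h10 : (J - 1) * (w + δ * s) ≤ (J - 1) * (E - s) := mul_le_mul_of_nonneg_left hG (by linarith)
  have hinv : 1 / r ≤ δ / 20 := by
    rw [div_le_div_iff₀ hr0 (by norm_num)]
    linarith
  have hR : 5 * J ^ 2 / r ≤ J ^ 2 * δ / 4 := by
    have : 5 * J ^ 2 / r = 5 * J ^ 2 * (1 / r) := by ring
    rw [this]
    have : 5 * J ^ 2 * (1 / r) ≤ 5 * J ^ 2 * (δ / 20) := mul_le_mul_of_nonneg_left hinv (by positivity)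
    linarith
  have hlin : 2 + 2 * J * (2 + 5 / 4 * (r ^ 2 + r)) ≤ J * (K - 1) := by
    rw [hK]
    nlinarith
  have h2δ : 0 < 2 / δ := by positivity
  rcases le_total 2 (δ * J) with hB | hA
  · -- large `J`
    have e1 : J ^ 2 * δ / 4 ≤ J * (δ * s) / 8 := by nlinarith [mul_pos hδ (by linarith : (0:ℝ) < J)]
    have e2 : J * (K - 1) ≤ J * (δ * s) / 8 := by nlinarith
    have e3 : s * 2 ≤ s * (δ * J) := mul_le_mul_of_nonneg_left hB hs0.le
    have e4 : s * δ ≤ s * 1 := mul_le_mul_of_nonneg_left hδ1 hs0.le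
    nlinarith
  · have hJδ : J ≤ 2 / δ := by
      rw [le_div_iff₀ hδ]; linarith
    have e1 : J ^ 2 * δ / 4 ≤ J / 2 := by nlinarith
    have e2 : J * (K + J / 2) ≤ J * (δ * s / 2) := by
      apply mul_le_mul_of_nonneg_left _ (by linarith)
      linarith
    have e3 : J / 2 * (δ * s) ≤ (J - 1) * (δ * s) := by
      apply mul_le_mul_of_nonneg_right (by linarith) (by positivity)
    have e4 : 0 ≤ (J - 1) * w := mul_nonneg (by linarith) hw0
    nlinarith

theorem GOOD : S_GOOD := by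
  intro δ hδ hδ1
  obtain ⟨r, hr⟩ := exists_nat_gt (20 / δ)
  have hr0 : (0 : ℝ) < r := lt_trans (by positivity) hr
  have hr20 : 20 ≤ δ * r := by
    rw [div_lt_iff₀ hδ] at hr
    linarith
  have hr1 : 1 ≤ r := by
    have : 0 < r := by exact_mod_cast hr0
    omega
  set K : ℝ := 5 / 2 * ((r : ℝ) ^ 2 + r) + 6 with hK
  obtain ⟨s₀, hs₀⟩ := exists_nat_gt ((8 * K + 2 / δ) / δ)
  refine ⟨r, s₀, hr1, fun u s e k hs hus hE j b d hb hbd hj hjs => ?_⟩
  have hsR : 8 * K + 2 / δ ≤ δ * s := by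
    rw [div_lt_iff₀ hδ] at hs₀
    have : (s₀ : ℝ) ≤ s := by exact_mod_cast hs
    nlinarith
  have hj4 : 4 ≤ j := by omega
  have hs4 : 4 ≤ s := by omega
  have hsp : (0 : ℝ) < s := by
    have : 0 < s := by omega
    exact_mod_cast this
  -- the parameters
  set w : ℝ := (1 / 2 - (u : ℝ) / s) ^ 2 * s with hw
  have hws : w * s = ((s : ℝ) / 2 - u) ^ 2 := by
    rw [hw]
    field_simp
  have hEr : (s : ℝ) + (w + δ * s) ≤ (e : ℝ) + k := by
    have : (s : ℝ) + ((1 / 2 - (u : ℝ) / s) ^ 2 + δ) * s = s + (w + δ * s) := by rw [hw]; ring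
    linarith
  have cb : (b : ℝ) ≤ u := by exact_mod_cast hb
  have cbd : (1 : ℝ) ≤ b + d := by exact_mod_cast hbd
  have cj : 2 * ((b : ℝ) + 1 + d) ≤ j := by exact_mod_cast hj
  have cjs : (j : ℝ) ≤ s := by exact_mod_cast hjs
  have cus : 2 * (u : ℝ) ≤ s := by exact_mod_cast hus
  have cj4 : (4 : ℝ) ≤ j := by exact_mod_cast hj4
  have hb0 : (0 : ℝ) ≤ b := Nat.cast_nonneg b
  have hd0 : (0 : ℝ) ≤ d := Nat.cast_nonneg d
  have hmain := GOOD_real (δ := δ) (r := r) (s := s) (u := u) (E := (e : ℝ) + k) (J := (j : ℝ) / 2)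
    (β := (b : ℝ) + 1) (a := (b : ℝ) + 1 + d) (w := w) (K := K) hδ hδ1 hr0 hr20 (Nat.cast_nonneg u) cus
    (by linarith) (by linarith) (by linarith) (by linarith) (by linarith) hws hEr hK hsR
  -- the floors
  have q1 : ((j / r : ℕ) : ℝ) ≤ (j : ℝ) / r := Nat.cast_div_le
  have q2 : (((j + r + j / r + r ^ 2) / 2 : ℕ) : ℝ) ≤ ((j : ℝ) + r + j / r + r ^ 2) / 2 := by
    have h := @Nat.cast_div_le ℝ _ _ _ (j + r + j / r + r ^ 2) 2
    push_cast at h ⊢
    linarith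
  have q3 : ((d * (d - 1) / 2 : ℕ) : ℝ) = (d : ℝ) * (d - 1) / 2 := by
    have he : 2 * (d * (d - 1) / 2) = d * (d - 1) := Nat.mul_div_cancel' (Nat.even_mul_pred_self d).two_dvd
    have h2 : (2 : ℝ) * ((d * (d - 1) / 2 : ℕ) : ℝ) = (d : ℝ) * (d - 1) := by
      have h3 : ((2 * (d * (d - 1) / 2) : ℕ) : ℝ) = ((d * (d - 1) : ℕ) : ℝ) := by rw [he]
      rcases Nat.eq_zero_or_pos d with h0 | h0
      · subst h0; simp
      · rw [Nat.cast_mul, Nat.cast_mul, Nat.cast_sub h0] at h3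
        push_cast at h3
        exact h3
    linarith
  have hjr : (0 : ℝ) ≤ (j : ℝ) / r := by positivity
  have key : ((j + (j * r ^ 2 + j * r + (j / r + 1) * j + b * ((j + r + j / r + r ^ 2) / 2)) +
    (b + 1) * (u - b) + (d * j + (s + e + k - u) * (b + 1 + d)) + 2 : ℕ) : ℝ) ≤
    (((j - 1) * (e + k) + s + (d * (b + 1) + d * (d - 1) / 2 + d * (b + 1 + d)) : ℕ) : ℝ) := by
    have hsub1 : ((u - b : ℕ) : ℝ) = u - b := Nat.cast_sub hb
    have hsub2 : ((s + e + k - u : ℕ) : ℝ) = (s : ℝ) + e + k - u := by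
      rw [Nat.cast_sub (by omega)]
      push_cast
      ring
    have hsub3 : ((j - 1 : ℕ) : ℝ) = (j : ℝ) - 1 := by
      rw [Nat.cast_sub (by omega)]
      push_cast
      ring
    have e1 : ((b : ℝ)) * (((j + r + j / r + r ^ 2) / 2 : ℕ) : ℝ) ≤
        b * (j / 2) + (j : ℝ) / 4 * (r + r ^ 2) + (j : ℝ) ^ 2 / (4 * r) := by
      have f1 : ((b : ℝ)) * (((j + r + j / r + r ^ 2) / 2 : ℕ) : ℝ) ≤
        b * (((j : ℝ) + r + j / r + r ^ 2) / 2) := mul_le_mul_of_nonneg_left q2 hb0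
      have f2 : (b : ℝ) * (r + r ^ 2) ≤ j / 2 * (r + r ^ 2) :=
        mul_le_mul_of_nonneg_right (by linarith) (by positivity)
      have f3 : (b : ℝ) * (j / r) ≤ j / 2 * (j / r) := mul_le_mul_of_nonneg_right (by linarith) hjr
      have f4 : (j : ℝ) ^ 2 / (4 * r) = j / 2 * (j / r) / 2 := by field_simp; ring
      rw [f4]
      nlinarith
    have e2 : (((j / r : ℕ) : ℝ) + 1) * j ≤ (j : ℝ) ^ 2 / r + j := by
      have f1 : ((j / r : ℕ) : ℝ) * j ≤ (j : ℝ) / r * j := mul_le_mul_of_nonneg_right q1 (by linarith)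
      have f2 : (j : ℝ) / r * j = (j : ℝ) ^ 2 / r := by ring
      linarith
    have e3 : (j : ℝ) ^ 2 / (4 * r) = (j : ℝ) ^ 2 / r / 4 := by field_simp
    have e4 : 5 * ((j : ℝ) / 2) ^ 2 / r = 5 / 4 * ((j : ℝ) ^ 2 / r) := by ring
    push_cast

    rw [hsub1, hsub2, hsub3, q3]
    rw [e3] at e1
    rw [e4] at hmain
    nlinarith
  exact_mod_cast key

end Pool.Agent.H99.KC
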