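import Pool.Agent.H99.KC.Stm

set_option autoImplicit false

/-!
Stub NUM (helper69): the choice of the parameters.
-/

open MvPolynomial Filter

namespace Pool.Agent.H99.KC

theorem NUM_L1 : 1 < Real.logb 2 3 := by
  rw [Real.lt_logb_iff_rpow_lt (by norm_num) (by norm_num)]
  norm_num

theorem NUM_L2 : Real.logb 2 3 < 2 := by
  rw [Real.logb_lt_iff_lt_rpow (by norm_num) (by norm_num)]
  norm_num

/-- the choice of `k` -/
theorem NUM_k (s : ℕ) (hs : 2 ≤ s) : ∃ k : ℕ,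
    2 * (s ^ 2 + 2 + k + k * s) ≤ k * (k + 3) * (k + 2) ∧
    (k : ℝ) ≤ 2 * (s : ℝ) ^ (2 / 3 : ℝ) + 6 := by
  have hsR : (2 : ℝ) ≤ s := by exact_mod_cast hs
  set r : ℝ := (s : ℝ) ^ (2 / 3 : ℝ) with hr
  have hr0 : 0 ≤ r := by positivity
  have hr3 : r ^ 3 = (s : ℝ) ^ 2 := by
    rw [hr, ← Real.rpow_natCast, ← Real.rpow_mul (by positivity), ← Real.rpow_natCast]
    norm_num
  set k : ℕ := max 6 ⌈2 * r⌉₊ with hk
  have hk6 : 6 ≤ k := le_max_left _ _
  have hkr : 2 * r ≤ k := (Nat.le_ceil _).trans (by exact_mod_cast le_max_right _ _)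
  have hk3 : 8 * s ^ 2 ≤ k ^ 3 := by
    have h1 : (2 * r) ^ 3 ≤ (k : ℝ) ^ 3 := by gcongr
    have h2 : (8 : ℝ) * (s : ℝ) ^ 2 ≤ (k : ℝ) ^ 3 := by
      rw [← hr3]
      calc (8 : ℝ) * r ^ 3 = (2 * r) ^ 3 := by ring
        _ ≤ _ := h1
    exact_mod_cast h2
  refine ⟨k, ?_, ?_⟩
  · have h1 : 2 * (k * s) ≤ k ^ 2 + s ^ 2 := by
      have := two_mul_le_add_sq (k : ℤ) (s : ℤ)
      zify
      linarith
    nlinarith
  · rw [hk, Nat.cast_max]
    apply max_le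
    · push_cast
      linarith
    · have := (Nat.ceil_lt_add_one (by positivity : 0 ≤ 2 * r)).le
      linarith

/-- the contribution of `k` is small -/
theorem NUM_small (ε : ℝ) (hε : 0 < ε) : ∃ s₀ : ℕ, ∀ s : ℕ, s₀ ≤ s → 1 ≤ s →
    (s : ℝ) ^ (14 * (s : ℝ) ^ (2 / 3 : ℝ) + 42) ≤ (2 : ℝ) ^ (ε * s) := by
  have hl2 : 0 < Real.log 2 := Real.log_pos (by norm_num)
  have hc : 0 < ε * Real.log 2 / 56 := by positivity
  have h1 := (isLittleO_log_rpow_atTop (r := 1 / 3) (by norm_num)).def hc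
  have h2 := tendsto_natCast_atTop_atTop.eventually h1
  obtain ⟨s₀, hs₀⟩ := Filter.eventually_atTop.mp h2
  refine ⟨s₀, fun s hs hs1 => ?_⟩
  have hs1R : (1 : ℝ) ≤ s := by exact_mod_cast hs1
  have hs0R : (0 : ℝ) < s := by linarith
  have h3 := hs₀ s hs
  rw [Real.norm_of_nonneg (Real.log_nonneg hs1R), Real.norm_of_nonneg (by positivity)] at h3
  have h4 : (1 : ℝ) ≤ (s : ℝ) ^ (2 / 3 : ℝ) := Real.one_le_rpow hs1R (by norm_num)
  have h5 : (s : ℝ) ^ (2 / 3 : ℝ) * (s : ℝ) ^ (1 / 3 : ℝ) = s := by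
    rw [← Real.rpow_add hs0R]
    norm_num
  have h6 : Real.log s * (14 * (s : ℝ) ^ (2 / 3 : ℝ) + 42) ≤ Real.log 2 * (ε * s) := by
    calc Real.log s * (14 * (s : ℝ) ^ (2 / 3 : ℝ) + 42)
        ≤ Real.log s * (56 * (s : ℝ) ^ (2 / 3 : ℝ)) := by
          apply mul_le_mul_of_nonneg_left _ (Real.log_nonneg hs1R)
          linarith
      _ ≤ (ε * Real.log 2 / 56 * (s : ℝ) ^ (1 / 3 : ℝ)) * (56 * (s : ℝ) ^ (2 / 3 : ℝ)) := by
          apply mul_le_mul_of_nonneg_right h3 (by positivity)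
      _ = ε * Real.log 2 * ((s : ℝ) ^ (2 / 3 : ℝ) * (s : ℝ) ^ (1 / 3 : ℝ)) := by ring
      _ = Real.log 2 * (ε * s) := by rw [h5]; ring
  rw [Real.rpow_def_of_pos hs0R, Real.rpow_def_of_pos (by norm_num : (0 : ℝ) < 2)]
  exact Real.exp_le_exp.mpr h6

theorem NUM : S_NUM := by
  intro hG ε hε
  set L : ℝ := Real.logb 2 3 with hL
  have hL1 : 1 < L := NUM_L1
  have hL2 : L < 2 := NUM_L2
  set v : ℝ := 1 - L / 2 with hv
  have hv0 : 0 < v := by rw [hv]; linarith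
  have hv1 : v < 1 / 2 := by rw [hv]; linarith
  set δ : ℝ := min 1 (ε / 4) with hδ
  have hδ0 : 0 < δ := lt_min one_pos (by positivity)
  have hδ1 : δ ≤ 1 := min_le_left _ _
  have hδε : δ ≤ ε / 4 := min_le_right _ _
  obtain ⟨r, s₁, hr, hgood⟩ := hG δ hδ0 hδ1
  obtain ⟨s₂, hsmall⟩ := NUM_small (ε / 4) (by positivity)
  refine ⟨max (max s₁ s₂) (max 3 (⌈6 / ε⌉₊ + 1)), fun s hs => ?_⟩
  have hs1 : s₁ ≤ s := le_trans (le_trans (le_max_left _ _) (le_max_left _ _)) hs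
  have hs2 : s₂ ≤ s := le_trans (le_trans (le_max_right _ _) (le_max_left _ _)) hs
  have hs3 : 3 ≤ s := le_trans (le_trans (le_max_left _ _) (le_max_right _ _)) hs
  have hs4 : ⌈6 / ε⌉₊ + 1 ≤ s := le_trans (le_trans (le_max_right _ _) (le_max_right _ _)) hs
  have hs3R : (3 : ℝ) ≤ s := by exact_mod_cast hs3
  have hs0R : (0 : ℝ) < s := by linarith
  have hs4R : 6 / ε < s := by
    have h1 := Nat.le_ceil (6 / ε)
    have h2 : ((⌈6 / ε⌉₊ + 1 : ℕ) : ℝ) ≤ s := by exact_mod_cast hs4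
    push_cast at h2
    linarith
  have hs6 : 6 < ε * s := by
    rw [div_lt_iff₀ hε] at hs4R
    linarith
  obtain ⟨k, hk1, hk2⟩ := NUM_k s (by omega)
  set u : ℕ := ⌊v * s⌋₊ with hu
  have hu1 : (u : ℝ) ≤ v * s := Nat.floor_le (by positivity)
  have hu2 : v * s < u + 1 := Nat.lt_floor_add_one _
  have h2u : 2 * u ≤ s := by
    have h1 : (2 : ℝ) * u ≤ s := by nlinarith
    exact_mod_cast h1
  set g : ℝ := (s : ℝ) + ((1 / 2 - (u : ℝ) / s) ^ 2 + δ) * s with hg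
  have hg0 : 0 ≤ g := by positivity
  set e : ℕ := ⌈g⌉₊ with he
  have he1 : g ≤ e := Nat.le_ceil _
  have he2 : (e : ℝ) < g + 1 := Nat.ceil_lt_add_one hg0
  refine ⟨by omega, u, e, k, r, hr, by omega, hgood u s e k hs1 h2u ?_, hk1, ?_⟩
  · have : (0 : ℝ) ≤ k := by positivity
    linarith
  · -- the estimate
    have hbase : 3 * (s ^ 2 + s + 2) ^ 2 ≤ s ^ 7 := by
      have h1 : s ^ 2 + s + 2 ≤ s ^ 3 := by nlinarith [Nat.mul_le_mul hs3 hs3]
      calc 3 * (s ^ 2 + s + 2) ^ 2 ≤ s * (s ^ 3) ^ 2 := by gcongr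
        _ = s ^ 7 := by ring
    have hA : (((3 * (s ^ 2 + s + 2) ^ 2) ^ k : ℕ) : ℝ) ≤ (2 : ℝ) ^ (ε / 4 * s) := by
      have h1 : (3 * (s ^ 2 + s + 2) ^ 2) ^ k ≤ s ^ (7 * k) := by
        rw [pow_mul]
        exact Nat.pow_le_pow_left hbase k
      calc (((3 * (s ^ 2 + s + 2) ^ 2) ^ k : ℕ) : ℝ) ≤ ((s ^ (7 * k) : ℕ) : ℝ) := by exact_mod_cast h1
        _ = (s : ℝ) ^ ((7 * k : ℕ) : ℝ) := by rw [Real.rpow_natCast]; push_cast; rfl
        _ ≤ (s : ℝ) ^ (14 * (s : ℝ) ^ (2 / 3 : ℝ) + 42) := by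
            apply Real.rpow_le_rpow_of_exponent_le (by linarith)
            push_cast
            linarith
        _ ≤ _ := hsmall s hs2 (by omega)
    have hB : ((2 ^ (s + e - u) * 3 ^ u : ℕ) : ℝ) =
        (2 : ℝ) ^ ((s : ℝ) + e - u + L * u) := by
      have h1 : ((s + e - u : ℕ) : ℝ) = (s : ℝ) + e - u := by
        rw [Nat.cast_sub (by omega)]
        push_cast
        rfl
      have h2 : (2 : ℝ) ^ (L * u) = (3 : ℝ) ^ u := by
        rw [Real.rpow_mul (by norm_num), hL, Real.rpow_logb (by norm_num) (by norm_num) (by norm_num),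
          Real.rpow_natCast]
      rw [Real.rpow_add (by norm_num), h2, ← h1, Real.rpow_natCast]
      push_cast
      rfl
    have hx : (u : ℝ) / s * s = u := by field_simp
    have hE : (s : ℝ) + e - u + L * u < (9 / 4 - v ^ 2) * s + ε / 4 * s + 3 := by
      have hLv : L = 2 - 2 * v := by rw [hv]; ring
      set x : ℝ := (u : ℝ) / s with hxdef
      have hx1 : x ≤ v := by
        rw [hxdef, div_le_iff₀ hs0R]
        exact hu1
      have hxv : (v - x) * s < 1 := by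
        have : (v - x) * s = v * s - u := by rw [sub_mul, hx]
        linarith
      have hx0 : 0 ≤ x := by positivity
      have hq : (1 / 2 - x) ^ 2 * s ≤ (1 / 2 - v) ^ 2 * s + 2 := by
        have h1 : (1 / 2 - x) ^ 2 * s = (1 / 2 - v) ^ 2 * s + (1 - v - x) * ((v - x) * s) := by ring
        have h2 : 0 ≤ (v - x) * s := mul_nonneg (by linarith) hs0R.le
        have h3 : (1 - v - x) * ((v - x) * s) ≤ 1 * 1 :=
          mul_le_mul (by linarith) hxv.le h2 (by norm_num)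
        linarith
      have hgle : g ≤ s + (1 / 2 - v) ^ 2 * s + 2 + ε / 4 * s := by
        have : g = s + (1 / 2 - x) ^ 2 * s + δ * s := by rw [hg]; ring
        have h2 : δ * s ≤ ε / 4 * s := by gcongr
        linarith
      have h3 : (L - 1) * u ≤ (1 - 2 * v) * (v * s) := by
        rw [hLv]
        have : 2 - 2 * v - 1 = 1 - 2 * v := by ring
        rw [this]
        apply mul_le_mul_of_nonneg_left hu1 (by linarith)
      have h4 : (s : ℝ) + (s + (1 / 2 - v) ^ 2 * s) + (1 - 2 * v) * (v * s) = (9 / 4 - v ^ 2) * s := by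
        ring
      have h5 : L * u - u = (L - 1) * u := by ring
      linarith
    calc ((2 ^ (s + e - u) * 3 ^ u * (3 * (s ^ 2 + s + 2) ^ 2) ^ k : ℕ) : ℝ)
        = ((2 ^ (s + e - u) * 3 ^ u : ℕ) : ℝ) * (((3 * (s ^ 2 + s + 2) ^ 2) ^ k : ℕ) : ℝ) := by
          rw [← Nat.cast_mul]
      _ ≤ (2 : ℝ) ^ ((s : ℝ) + e - u + L * u) * (2 : ℝ) ^ (ε / 4 * s) := by
          rw [hB]
          gcongr
      _ = (2 : ℝ) ^ ((s : ℝ) + e - u + L * u + ε / 4 * s) := by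
          rw [← Real.rpow_add (by norm_num)]
      _ < (2 : ℝ) ^ ((9 / 4 - v ^ 2 + ε) * s) := by
          apply Real.rpow_lt_rpow_of_exponent_lt (by norm_num)
          nlinarith

end Pool.Agent.H99.KC
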