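import Pool.Agent.H99.KC.Stm
import Pool.Agent.H20.G.R_pool_sql_team_seeded_63374d34.N392.BK.ROWS

/-!
Project KC, part ROWS2: matrices whose rows span an isotropic subspace together with a given subspace
(helper96, after `Pool.Agent.N392.BK.ROWS`).
-/

set_option autoImplicit false

open Finset Module

namespace Pool.Agent.H99.KC

open Pool.Agent.N392.BK.ROWS (Iso Bf Bf_apply Bf_nondeg card_mem)

section

variable {F : Type} [Field F] {j : ℕ}

/-- the span of the rows and of `B` -/
def ROWS2_R (B : Submodule F (Fin j → F)) {M : ℕ} (A : Fin M → Fin j → F) : Submodule F (Fin j → F) :=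
  B ⊔ Submodule.span F (Set.range A)

theorem ROWS2_cons (B : Submodule F (Fin j → F)) {M : ℕ} (A : Fin (M + 1) → Fin j → F) :
    ROWS2_R B A = ROWS2_R B (Fin.tail A) ⊔ Submodule.span F {A 0} := by
  have h : Set.range A = Set.range (Fin.tail A) ∪ {A 0} := by
    ext v
    simp only [Set.mem_range, Set.union_singleton, Set.mem_insert_iff]
    constructor
    · rintro ⟨i, hi⟩
      refine Fin.cases ?_ (fun i hi => ?_) i hi
      · intro h; exact Or.inl h.symm
      · exact Or.inr ⟨i, hi⟩
    · rintro (h | ⟨i, hi⟩)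
      · exact ⟨0, h.symm⟩
      · exact ⟨i.succ, hi⟩
  unfold ROWS2_R
  rw [h, Submodule.span_union, ← sup_assoc]

theorem ROWS2_finrank_le (B : Submodule F (Fin j → F)) {M : ℕ} (A : Fin M → Fin j → F) :
    finrank F (ROWS2_R B A) ≤ finrank F B + M := by
  unfold ROWS2_R
  refine (Submodule.finrank_add_le_finrank_add_finrank _ _).trans ?_
  have := finrank_range_le_card (R := F) A
  rw [Fintype.card_fin] at this
  unfold Set.finrank at this
  omega

end

variable {F : Type} [Field F] [Fintype F] {j : ℕ}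

open Classical in
/-- the good matrices -/
noncomputable def ROWS2_S (c : Fin j → F) (B : Submodule F (Fin j → F)) (M r : ℕ) :
    Finset (Fin M → Fin j → F) :=
  univ.filter fun A => Iso c (ROWS2_R B A) ∧ finrank F (ROWS2_R B A) = r

open Classical in
theorem ROWS2_step {c : Fin j → F} (hc : ∀ i, c i ≠ 0) (B : Submodule F (Fin j → F)) (M r : ℕ) :
    (ROWS2_S c B (M + 1) (r + 1)).card ≤ (ROWS2_S c B M (r + 1)).card * Fintype.card F ^ (r + 1) +
      (ROWS2_S c B M r).card * Fintype.card F ^ (j - r) := by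
  set T1 : Finset (Σ _ : Fin M → Fin j → F, Fin j → F) :=
    (ROWS2_S c B M (r + 1)).sigma fun A => univ.filter fun v => v ∈ ROWS2_R B A with hT1
  set T2 : Finset (Σ _ : Fin M → Fin j → F, Fin j → F) :=
    (ROWS2_S c B M r).sigma fun A => univ.filter fun v => v ∈ (Bf c).orthogonal (ROWS2_R B A) with hT2
  have h1 : T1.card = (ROWS2_S c B M (r + 1)).card * Fintype.card F ^ (r + 1) := by
    rw [hT1, Finset.card_sigma, Finset.sum_const_nat]
    intro A hA
    rw [card_mem]
    rw [ROWS2_S, mem_filter] at hA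
    rw [hA.2.2]
  have h2 : T2.card = (ROWS2_S c B M r).card * Fintype.card F ^ (j - r) := by
    rw [hT2, Finset.card_sigma, Finset.sum_const_nat]
    intro A hA
    rw [card_mem]
    rw [ROWS2_S, mem_filter] at hA
    rw [LinearMap.BilinForm.finrank_orthogonal (Bf_nondeg hc), hA.2.2]
    simp
  rw [← h1, ← h2]
  refine le_trans ?_ (Finset.card_union_le T1 T2)
  refine Finset.card_le_card_of_injOn (fun A => ⟨Fin.tail A, A 0⟩) ?_ ?_
  · intro A hA
    rw [mem_coe, ROWS2_S, mem_filter] at hA
    obtain ⟨-, hiso, hfr⟩ := hA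
    have hle : ROWS2_R B (Fin.tail A) ≤ ROWS2_R B A := by rw [ROWS2_cons]; exact le_sup_left
    have hA0 : A 0 ∈ ROWS2_R B A := by
      rw [ROWS2_cons]
      exact Submodule.mem_sup_right (Submodule.mem_span_singleton_self _)
    have hiso' : Iso c (ROWS2_R B (Fin.tail A)) := fun u hu v hv => hiso u (hle hu) v (hle hv)
    rw [mem_coe, mem_union]
    by_cases hv : A 0 ∈ ROWS2_R B (Fin.tail A)
    · left
      rw [hT1, mem_sigma, mem_filter, ROWS2_S, mem_filter]
      refine ⟨⟨mem_univ _, hiso', ?_⟩, mem_univ _, hv⟩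
      have h4 : ROWS2_R B A = ROWS2_R B (Fin.tail A) := by
        rw [ROWS2_cons]
        exact sup_eq_left.2 ((Submodule.span_singleton_le_iff_mem _ _).2 hv)
      show finrank F (ROWS2_R B (Fin.tail A)) = r + 1
      rw [← h4]; exact hfr
    · right
      rw [hT2, mem_sigma, mem_filter, ROWS2_S, mem_filter]
      refine ⟨⟨mem_univ _, hiso', ?_⟩, mem_univ _, ?_⟩
      · have h3 : finrank F (ROWS2_R B A) = finrank F (ROWS2_R B (Fin.tail A)) + 1 := by
          rw [ROWS2_cons]
          exact Submodule.finrank_sup_span_singleton hv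
        show finrank F (ROWS2_R B (Fin.tail A)) = r
        omega
      · rw [LinearMap.BilinForm.mem_orthogonal_iff]
        intro u hu
        exact hiso u (hle hu) _ hA0
  · intro A _ A' _ h
    simp only [Sigma.mk.injEq, heq_eq_eq] at h
    rw [← Fin.cons_self_tail A, ← Fin.cons_self_tail A', h.1, h.2]

/-- the ranks below `finrank B` and the large ranks do not occur -/
theorem ROWS2_big (c : Fin j → F) (B : Submodule F (Fin j → F)) (M r : ℕ)
    (h : j < r ∨ finrank F B + M < r ∨ r < finrank F B) : ROWS2_S c B M r = ∅ := by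
  classical
  rw [ROWS2_S, Finset.filter_eq_empty_iff]
  rintro A - ⟨-, h0⟩
  have h1 := ROWS2_finrank_le B A
  have h2 : finrank F (ROWS2_R B A) ≤ finrank F (Fin j → F) := Submodule.finrank_le _
  have h3 : finrank F B ≤ finrank F (ROWS2_R B A) := Submodule.finrank_mono le_sup_left
  rw [finrank_fin_fun] at h2
  omega

/-- the case of the least rank -/
theorem ROWS2_least (c : Fin j → F) (B : Submodule F (Fin j → F)) (M b : ℕ) (hb : finrank F B = b) :
    (ROWS2_S c B M b).card ≤ Fintype.card F ^ (M * b) := by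
  classical
  have h1 : (ROWS2_S c B M b).card ≤ Nat.card (Fin M → B) := by
    rw [Nat.card_eq_fintype_card, ← Finset.card_univ]
    refine Finset.card_le_card_of_surjOn (fun A i => (A i : Fin j → F)) ?_
    intro A hA
    rw [mem_coe, ROWS2_S, mem_filter] at hA
    have h2 : B = ROWS2_R B A :=
      Submodule.eq_of_le_of_finrank_le le_sup_left (by rw [hA.2.2, hb])
    have h3 : ∀ i, A i ∈ B := by
      intro i
      rw [h2]
      exact Submodule.mem_sup_right (Submodule.subset_span ⟨i, rfl⟩)
    exact ⟨fun i => ⟨A i, h3 i⟩, by simp, rfl⟩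
  refine h1.trans ?_
  rw [Nat.card_fun, Nat.card_eq_fintype_card, Module.card_eq_pow_finrank (K := F) (V := B), hb,
    Nat.card_eq_fintype_card, Fintype.card_fin, ← pow_mul, mul_comm b M]

theorem ROWS2_main {c : Fin j → F} (hc : ∀ i, c i ≠ 0) (B : Submodule F (Fin j → F)) (b : ℕ)
    (hb : finrank F B = b) (M : ℕ) : ∀ d : ℕ,
    (ROWS2_S c B M (b + d)).card * Fintype.card F ^ (d * b + d * (d - 1) / 2 + d * (b + d)) ≤
      2 ^ M * Fintype.card F ^ (d * j + M * (b + d)) := by
  classical
  have hq : 1 ≤ Fintype.card F := Fintype.card_pos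
  have h0 : ∀ M, (ROWS2_S c B M (b + 0)).card * Fintype.card F ^ (0 * b + 0 * (0 - 1) / 2 + 0 * (b + 0)) ≤
      2 ^ M * Fintype.card F ^ (0 * j + M * (b + 0)) := by
    intro M
    simp only [zero_mul, Nat.zero_div, add_zero, zero_add, pow_zero, mul_one]
    exact (ROWS2_least c B M b hb).trans (Nat.le_mul_of_pos_left _ (by positivity))
  induction M with
  | zero =>
    intro d
    rcases Nat.eq_zero_or_pos d with rfl | hd
    · exact h0 0
    · rw [ROWS2_big c B 0 (b + d) (Or.inr (Or.inl (by omega)))]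
      simp
  | succ M ih =>
    intro d
    rcases Nat.eq_zero_or_pos d with rfl | hd
    · exact h0 (M + 1)
    obtain ⟨t, rfl⟩ : ∃ t, d = t + 1 := ⟨d - 1, by omega⟩
    have hs := ROWS2_step hc B M (b + t)
    have h1 := ih (t + 1)
    have h2 := ih t
    set q := Fintype.card F with hqd
    rw [add_assoc] at hs
    have hexp : (t + 1) * b + (t + 1) * (t + 1 - 1) / 2 + (t + 1) * (b + (t + 1)) =
        t * b + t * (t - 1) / 2 + t * (b + t) + (2 * b + 3 * t + 1) := by
      have e : (t + 1) * (t + 1 - 1) / 2 = t * (t - 1) / 2 + t := by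
        rcases Nat.eq_zero_or_pos t with rfl | ht
        · rfl
        · obtain ⟨x, rfl⟩ : ∃ x, t = x + 1 := ⟨t - 1, by omega⟩
          have e1 : (x + 1 + 1) * (x + 1 + 1 - 1) = (x + 1) * (x + 1 - 1) + (x + 1) * 2 := by
            simp only [Nat.add_sub_cancel]
            ring
          rw [e1, Nat.add_mul_div_right _ _ (by norm_num : 0 < 2)]
      rw [e]
      ring
    have e1 : (ROWS2_S c B M (b + (t + 1))).card * q ^ (b + (t + 1)) *
        q ^ ((t + 1) * b + (t + 1) * (t + 1 - 1) / 2 + (t + 1) * (b + (t + 1))) ≤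
        2 ^ M * q ^ ((t + 1) * j + (M + 1) * (b + (t + 1))) := by
      calc (ROWS2_S c B M (b + (t + 1))).card * q ^ (b + (t + 1)) *
            q ^ ((t + 1) * b + (t + 1) * (t + 1 - 1) / 2 + (t + 1) * (b + (t + 1))) =
            (ROWS2_S c B M (b + (t + 1))).card *
            q ^ ((t + 1) * b + (t + 1) * (t + 1 - 1) / 2 + (t + 1) * (b + (t + 1))) *
              q ^ (b + (t + 1)) := by ring
        _ ≤ 2 ^ M * q ^ ((t + 1) * j + M * (b + (t + 1))) * q ^ (b + (t + 1)) :=
          Nat.mul_le_mul_right _ h1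
        _ = 2 ^ M * q ^ ((t + 1) * j + (M + 1) * (b + (t + 1))) := by
          rw [mul_assoc, ← pow_add]; congr 2; ring
    have e2 : (ROWS2_S c B M (b + t)).card * q ^ (j - (b + t)) *
        q ^ ((t + 1) * b + (t + 1) * (t + 1 - 1) / 2 + (t + 1) * (b + (t + 1))) ≤
        2 ^ M * q ^ ((t + 1) * j + (M + 1) * (b + (t + 1))) := by
      by_cases hbb : j < b + t ∨ finrank F B + M < b + t ∨ b + t < finrank F B
      · rw [ROWS2_big c B M (b + t) hbb]; simp
      push Not at hbb
      have htM : t ≤ M := by omega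
      rw [hexp]
      calc (ROWS2_S c B M (b + t)).card * q ^ (j - (b + t)) *
            q ^ (t * b + t * (t - 1) / 2 + t * (b + t) + (2 * b + 3 * t + 1)) =
            (ROWS2_S c B M (b + t)).card * q ^ (t * b + t * (t - 1) / 2 + t * (b + t)) *
              q ^ (j - (b + t) + (2 * b + 3 * t + 1)) := by
              rw [pow_add q (t * b + t * (t - 1) / 2 + t * (b + t)), pow_add q (j - (b + t))]; ring
        _ ≤ 2 ^ M * q ^ (t * j + M * (b + t)) * q ^ (j - (b + t) + (2 * b + 3 * t + 1)) :=
          Nat.mul_le_mul_right _ h2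
        _ = 2 ^ M * q ^ (t * j + M * (b + t) + (j - (b + t) + (2 * b + 3 * t + 1))) := by
          rw [mul_assoc, ← pow_add]
        _ ≤ 2 ^ M * q ^ ((t + 1) * j + (M + 1) * (b + (t + 1))) := by
          refine Nat.mul_le_mul_left _ (Nat.pow_le_pow_right hq ?_)
          obtain ⟨x, hx⟩ := Nat.exists_eq_add_of_le hbb.1
          have h3 : j - (b + t) = x := by omega
          rw [h3, hx]
          nlinarith [htM]
    calc (ROWS2_S c B (M + 1) (b + (t + 1))).card *
          q ^ ((t + 1) * b + (t + 1) * (t + 1 - 1) / 2 + (t + 1) * (b + (t + 1))) ≤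
          ((ROWS2_S c B M (b + (t + 1))).card * q ^ (b + (t + 1)) +
            (ROWS2_S c B M (b + t)).card * q ^ (j - (b + t))) *
          q ^ ((t + 1) * b + (t + 1) * (t + 1 - 1) / 2 + (t + 1) * (b + (t + 1))) :=
          Nat.mul_le_mul_right _ hs
      _ ≤ 2 ^ M * q ^ ((t + 1) * j + (M + 1) * (b + (t + 1))) +
          2 ^ M * q ^ ((t + 1) * j + (M + 1) * (b + (t + 1))) := by
          rw [add_mul]; exact Nat.add_le_add e1 e2
      _ = 2 ^ (M + 1) * q ^ ((t + 1) * j + (M + 1) * (b + (t + 1))) := by ring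

/-- **Part ROWS2.** -/
theorem ROWS2 : S_ROWS2 := by
  intro F _ _ M j b d c B hc hb
  classical
  have h := ROWS2_main hc B b hb M d
  have e : Nat.card {A : Fin M → Fin j → F //
    (∀ x ∈ B ⊔ Submodule.span F (Set.range A),
      ∀ y ∈ B ⊔ Submodule.span F (Set.range A), ∑ i, c i * x i * y i = 0) ∧
    Module.finrank F ↥(B ⊔ Submodule.span F (Set.range A)) = b + d} =
      (ROWS2_S c B M (b + d)).card := by
    rw [Nat.card_eq_fintype_card, Fintype.card_subtype, ROWS2_S]
    congr 1
    ext A
    rw [mem_filter, mem_filter]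
    rfl
  rw [e]
  exact h

end Pool.Agent.H99.KC
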