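import Pool.Agent.H99.KC.Main
import Pool.Agent.H99.KC.CNT1
import Pool.Agent.H99.KC.CNT1A
import Pool.Agent.H99.KC.CNT2
import Pool.Agent.H99.KC.CNT3
import Pool.Agent.H99.KC.CNT4
import Pool.Agent.H99.KC.CUB
import Pool.Agent.H99.KC.ROWS2
import Pool.Agent.H99.KC.CIRC2
import Pool.Agent.H99.KC.GOOD
import Pool.Agent.H99.KC.NUM

/-!
Project KC: everything.
-/

set_option autoImplicit false

namespace Pool.Agent.H99.KC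

theorem all : ∃ c : ℝ, 0 < c ∧ ∀ ε : ℝ, 0 < ε → ∃ s₀ : ℕ, ∀ s t : ℕ, s₀ ≤ s →
    (2 : ℝ) ^ ((9 / 4 - (1 - Real.logb 2 3 / 2) ^ 2 + ε) * s) ≤ t → ∃ n₀ : ℕ, ∀ n : ℕ, n₀ ≤ n →
      c * ((t : ℝ) ^ (1 / (s : ℝ)) * (n : ℝ) ^ (2 - 1 / (s : ℝ))) ≤
        (SimpleGraph.extremalNumber n (completeBipartiteGraph (Fin s) (Fin t)) : ℝ) ∧
      (SimpleGraph.extremalNumber n (completeBipartiteGraph (Fin s) (Fin t)) : ℝ) ≤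
        (t : ℝ) ^ (1 / (s : ℝ)) * (n : ℝ) ^ (2 - 1 / (s : ℝ)) :=
  main (CIRC2 (CUB (CNT4 CNT1 CNT2 CNT3)) ROWS2) GOOD NUM

end Pool.Agent.H99.KC
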