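import Pool.Agent.H20.AC.Fin
import Pool.Agent.H20.AC.Kst
import Pool.Agent.H20.G.R_pool_sql_team_seeded_63374d34.N684.BK.Low
import Pool.Agent.H20.G.R_pool_sql_team_seeded_63374d34.N684.BK.Top
import Pool.Agent.H99.KC.ALW

/-!
Project KC: assembly, absolute constants.
-/

set_option autoImplicit false

open Filter Topology

namespace Pool.Agent.H99.KC

open Pool.Agent.N684.BK Pool.Agent.H20.AC

theorem com2 : S_COM2 := by
  have hDIM := Pool.Agent.N769.BK.DIM.DIM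
  have hMONO := Pool.Agent.N769.BK.DIM.MONO
  have hBEZ := Pool.Agent.N861.BK.BEZ.BEZ Pool.Agent.N769.BK.MULSUM.MUL
    Pool.Agent.N769.BK.MULSUM.SUM
  have hRCI := Pool.Agent.N136.BK.RCI.main hDIM hMONO hBEZ LOW Pool.Agent.N738.BK.RAT.PT
  have hFE := Pool.Agent.N591.BK.FE.FE hDIM hMONO hBEZ LOW
  exact COM2 hMONO Pool.Agent.N415.BK.TOP.TOP
    Pool.Agent.N738.BK.RAT.RAT Pool.Agent.N684.BK.TR POS QU hRCI hFE Pool.Agent.N415.BK.TOP.FIB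

/-- the threshold exponent is at most `3` -/
theorem kap_le : (9 / 4 : ℝ) - (1 - Real.logb 2 3 / 2) ^ 2 ≤ 3 := by
  have := sq_nonneg (1 - Real.logb 2 3 / 2)
  linarith

/-- large `t` -/
theorem rq2 (hCIRC : S_CIRC2) (hGOOD : S_GOOD) (hNUM : S_NUM) (ε : ℝ) (hε : 0 < ε) (hε1 : ε ≤ 1) :
    ∃ s₀ : ℕ, ∀ s t : ℕ, s₀ ≤ s →
    (2 : ℝ) ^ ((9 / 4 - (1 - Real.logb 2 3 / 2) ^ 2 + ε) * s) ≤ t →
    2 ≤ s ∧ 1 ≤ t ∧ ∃ n₀ : ℕ, ∀ n : ℕ, n₀ ≤ n →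
    (1 / (256 * 16) : ℝ) * ((t : ℝ) ^ (1 / (s : ℝ)) * (n : ℝ) ^ (2 - 1 / (s : ℝ))) ≤
      (SimpleGraph.extremalNumber n (completeBipartiteGraph (Fin s) (Fin t)) : ℝ) := by
  obtain ⟨s₀, hs₀⟩ := hNUM hGOOD ε hε
  refine ⟨s₀, fun s t hss ht => ?_⟩
  obtain ⟨hs, u, e, k, r, hr, hu, hgood, hk, hT0⟩ := hs₀ s hss
  set T0 := 2 ^ (s + e - u) * 3 ^ u * (3 * (s ^ 2 + s + 2) ^ 2) ^ k with hT0def
  have hT0pos : 1 ≤ T0 := Nat.mul_pos (Nat.mul_pos (Nat.pow_pos (by norm_num))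
    (Nat.pow_pos (by norm_num))) (Nat.pow_pos (by positivity))
  have hT0t : T0 < t := by exact_mod_cast hT0.trans_le ht
  have hs0 : (0 : ℝ) < s := by exact_mod_cast (by omega : 0 < s)
  have hT16 : (T0 : ℝ) ≤ 16 ^ s := by
    refine hT0.le.trans ?_
    have h1 : (9 / 4 - (1 - Real.logb 2 3 / 2) ^ 2 + ε) * s ≤ 4 * s := by
      have := kap_le
      gcongr
      linarith
    calc (2 : ℝ) ^ ((9 / 4 - (1 - Real.logb 2 3 / 2) ^ 2 + ε) * s) ≤ (2 : ℝ) ^ (4 * (s : ℝ)) :=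
          Real.rpow_le_rpow_of_exponent_le (by norm_num) h1
      _ = 16 ^ s := by
          rw [Real.rpow_mul (by norm_num), Real.rpow_natCast]
          norm_num
  refine ⟨hs, by omega, ?_⟩
  set P : ℕ → Prop := fun h => h ^ s * T0 < t with hP
  have : DecidablePred P := fun h => Nat.decLt _ _
  set h := Nat.findGreatest P t with hh
  have hP1 : P 1 := by simpa [hP] using hT0t
  have h1 : 1 ≤ h := Nat.le_findGreatest (by omega) hP1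
  have h2 : P h := Nat.findGreatest_spec (P := P) (by omega : 1 ≤ t) hP1
  have h3 : ¬ P (h + 1) := by
    intro h4
    have h5 : h + 1 ≤ t := by
      have h6 : (h + 1) ^ s * T0 < t := h4
      have h7 : h + 1 ≤ (h + 1) ^ s := Nat.le_self_pow (by omega) _
      have h8 : (h + 1) ^ s ≤ (h + 1) ^ s * T0 := Nat.le_mul_of_pos_right _ hT0pos
      omega
    have := Nat.findGreatest_is_greatest (P := P) (n := t) (k := h + 1) (by omega) h5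
    exact this h4
  have h4 : t ≤ (h + 1) ^ s * T0 := by
    by_contra hcon
    exact h3 (not_le.1 hcon)
  have h5 : (t : ℝ) ^ (1 / (s : ℝ)) ≤ 2 * h * 16 := by
    have h6 : (t : ℝ) ≤ (((h : ℝ) + 1) * 16) ^ s := by
      have h7 : (t : ℝ) ≤ ((h : ℝ) + 1) ^ s * T0 := by exact_mod_cast h4
      refine h7.trans ?_
      rw [mul_pow]
      gcongr
    have h8 : (t : ℝ) ^ (1 / (s : ℝ)) ≤ ((((h : ℝ) + 1) * 16) ^ s) ^ (1 / (s : ℝ)) :=
      Real.rpow_le_rpow (Nat.cast_nonneg _) h6 (by positivity)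
    rw [← Real.rpow_natCast, ← Real.rpow_mul (by positivity), mul_one_div_cancel hs0.ne',
      Real.rpow_one] at h8
    refine h8.trans ?_
    have h9 : (1 : ℝ) ≤ h := by exact_mod_cast h1
    nlinarith
  have hALG := ALGW com2 hCIRC
    Pool.Agent.N615.BK.CLEAN.CLEAN Pool.Agent.N615.BK.CLEAN.KST u s e k r h t hs hr hu hgood hk h1 h2
  obtain ⟨n₀, hn₀⟩ := FINh s t h hs (by omega) hALG
  refine ⟨n₀, fun n hn => le_trans ?_ (hn₀ n hn)⟩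
  have h6 : (1 / (256 * 16) : ℝ) * (t : ℝ) ^ (1 / (s : ℝ)) ≤ 1 / 128 * h := by
    calc (1 / (256 * 16) : ℝ) * (t : ℝ) ^ (1 / (s : ℝ)) ≤
          (1 / (256 * 16)) * (2 * h * 16) := by gcongr
      _ = 1 / 128 * h := by ring
  rw [← mul_assoc]
  gcongr

theorem main (hCIRC : S_CIRC2) (hGOOD : S_GOOD) (hNUM : S_NUM) :
    ∃ c : ℝ, 0 < c ∧ ∀ ε : ℝ, 0 < ε → ∃ s₀ : ℕ, ∀ s t : ℕ, s₀ ≤ s →
    (2 : ℝ) ^ ((9 / 4 - (1 - Real.logb 2 3 / 2) ^ 2 + ε) * s) ≤ t → ∃ n₀ : ℕ, ∀ n : ℕ, n₀ ≤ n →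
      c * ((t : ℝ) ^ (1 / (s : ℝ)) * (n : ℝ) ^ (2 - 1 / (s : ℝ))) ≤
        (SimpleGraph.extremalNumber n (completeBipartiteGraph (Fin s) (Fin t)) : ℝ) ∧
      (SimpleGraph.extremalNumber n (completeBipartiteGraph (Fin s) (Fin t)) : ℝ) ≤
        (t : ℝ) ^ (1 / (s : ℝ)) * (n : ℝ) ^ (2 - 1 / (s : ℝ)) := by
  refine ⟨1 / (256 * 16), by norm_num, fun ε hε => ?_⟩
  obtain ⟨s₀, hs₀⟩ := rq2 hCIRC hGOOD hNUM (min ε 1) (lt_min hε one_pos) (min_le_right _ _)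
  refine ⟨s₀, fun s t hss ht => ?_⟩
  have ht' : (2 : ℝ) ^ ((9 / 4 - (1 - Real.logb 2 3 / 2) ^ 2 + min ε 1) * s) ≤ t := by
    refine le_trans (Real.rpow_le_rpow_of_exponent_le (by norm_num) ?_) ht
    gcongr
    exact min_le_left _ _
  obtain ⟨hs, ht1, n₀, hn₀⟩ := hs₀ s t hss ht'
  obtain ⟨n₁, hn₁⟩ := kst s t hs ht1
  exact ⟨max n₀ n₁, fun n hn => ⟨hn₀ n (le_trans (le_max_left _ _) hn),
    hn₁ n (le_trans (le_max_right _ _) hn)⟩⟩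

end Pool.Agent.H99.KC
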